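import Mathlib

/-!
# Hyperbolic branching Brownian motion on the Poincare disk: definitions
-/

open MeasureTheory ProbabilityTheory
open scoped ComplexConjugate NNReal ENNReal

namespace Pool.Agent.Lib.P46005

/-- The hyperbolic Laplacian `(1 - |z|²)² / 4 * (∂_x² f + ∂_y² f)` at the point `z`. -/
noncomputable def hypLap (f : ℂ → ℝ) (z : ℂ) : ℝ :=
  (1 - ‖z‖ ^ 2) ^ 2 / 4 *
    (iteratedDeriv 2 (fun s : ℝ => f (z + s)) 0 +
      iteratedDeriv 2 (fun s : ℝ => f (z + s * Complex.I)) 0)

/-- `B` is a hyperbolic Brownian motion in the Poincare disk started at `0`, under the probability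
measure `Q`: a continuous process in the open unit disk with `B 0 = 0` which solves the martingale
problem for `(1/2) * hypLap` and the smooth functions with compact support in the open disk. -/
structure IsHypBM {E : Type} [MeasurableSpace E] (B : ℝ≥0 → E → ℂ) (Q : Measure E) : Prop where
  meas : ∀ t, Measurable (B t)
  mem : ∀ t e, ‖B t e‖ < 1
  cont : ∀ e, Continuous fun t => B t e
  start : ∀ᵐ e ∂Q, B 0 e = 0
  mart : ∀ f : ℂ → ℝ, ContDiff ℝ (⊤ : ℕ∞) f → HasCompactSupport f →
    tsupport f ⊆ Metric.ball (0 : ℂ) 1 →
    Martingale (fun (t : ℝ≥0) (e : E) =>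
        f (B t e) - f (B 0 e) - ∫ s in (0 : ℝ)..t, 1 / 2 * hypLap f (B s.toNNReal e))
      (Filtration.natural B fun t => (meas t).stronglyMeasurable) Q

/-- The orientation preserving isometry of the Poincare disk mapping `0` to `z` and fixing the
boundary point `1`: the rotation by `κ = (1 - z) / (1 - z̄)` followed by
`w ↦ (w + z) / (1 + z̄ w)`. -/
noncomputable def moveTo (z w : ℂ) : ℂ :=
  ((1 - z) / (1 - conj z) * w + z) / (1 + conj z * ((1 - z) / (1 - conj z) * w))

variable {E : Type}

/-- The data of the branching process: a lifetime and a motion (started at `0`) for every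
particle; the particles are labelled by finite words in two letters. -/
abbrev Om (E : Type) : Type := List Bool → ℝ × E

/-- The law of the data: independent exponential lifetimes of rate `β` and independent motions
with law `Q`. -/
noncomputable def bbmLaw [MeasurableSpace E] (β : ℝ) (Q : Measure E) : Measure (Om E) :=
  Measure.infinitePi fun _ => (expMeasure β).prod Q

/-- The data of the `i`-th subtree after the first branching. -/
def sub (i : Bool) (ω : Om E) : Om E := fun u => ω (i :: u)

/-- The birth time of the particle `u`: the root `[]` is born at time `0`; the particle `i :: u`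
is the particle `u` of the `i`-th subtree, which starts at the death of the root. -/
def birth : List Bool → Om E → ℝ
  | [], _ => 0
  | i :: u, ω => (ω []).1 + birth u (sub i ω)

/-- The particle `u` is alive at time `t`. -/
def alive (t : ℝ) (u : List Bool) (ω : Om E) : Prop :=
  birth u ω ≤ t ∧ t < birth u ω + (ω u).1

/-- The position of the particle `u` at time `t` (relevant if it is alive): the root moves
according to its motion `B`, the `i`-th subtree starts at the death of the root, at its position
at that time. -/
noncomputable def pos (B : ℝ≥0 → E → ℂ) : List Bool → ℝ → Om E → ℂ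
  | [], t, ω => B t.toNNReal (ω []).2
  | i :: u, t, ω =>
    moveTo (B (ω []).1.toNNReal (ω []).2) (pos B u (t - (ω []).1) (sub i ω))

/-- The unnormalised empirical measure: the sum of the point masses at the positions of the
particles alive at time `t`. -/
noncomputable def emp (B : ℝ≥0 → E → ℂ) (t : ℝ) (ω : Om E) : Measure ℂ :=
  Measure.sum fun u : {u : List Bool // alive t u ω} => Measure.dirac (pos B u t ω)

/-- The normalised empirical measure `μ_t`. -/
noncomputable def mu (B : ℝ≥0 → E → ℂ) (t : ℝ) (ω : Om E) : Measure ℂ :=
  (emp B t ω Set.univ)⁻¹ • emp B t ω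

/-- Arc length on the unit circle. -/
noncomputable def arcLength : Measure ℂ :=
  (volume.restrict (Set.Ioc 0 (2 * Real.pi))).map fun θ : ℝ => Complex.exp (θ * Complex.I)

end Pool.Agent.Lib.P46005
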