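import Mathlib
import Pool.Agent.Lib.P46005.Defs

/-!
# The isometries of the disk fixing the boundary point `1`
-/

open MeasureTheory ProbabilityTheory
open scoped ComplexConjugate NNReal ENNReal

namespace Pool.Agent.Lib.P46005

lemma one_sub_ne {z : ℂ} (hz : ‖z‖ < 1) : 1 - z ≠ 0 := by
  intro h
  have : z = 1 := (sub_eq_zero.1 h).symm
  rw [this, norm_one] at hz
  exact lt_irrefl _ hz

lemma one_sub_conj_ne {z : ℂ} (hz : ‖z‖ < 1) : 1 - conj z ≠ 0 :=
  one_sub_ne (by rwa [RCLike.norm_conj])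

/-- The rotation factor. -/
noncomputable def kap (z : ℂ) : ℂ := (1 - z) / (1 - conj z)

lemma norm_kap {z : ℂ} (hz : ‖z‖ < 1) : ‖kap z‖ = 1 := by
  unfold kap
  have h : 1 - conj z = conj (1 - z) := by simp
  rw [norm_div, h, RCLike.norm_conj, div_self]
  exact norm_ne_zero_iff.2 (one_sub_ne hz)

lemma moveTo_eq (z w : ℂ) : moveTo z w = (kap z * w + z) / (1 + conj z * (kap z * w)) := rfl

lemma normSq_mob (z w : ℂ) : Complex.normSq (1 + conj z * w) - Complex.normSq (w + z) =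
    (1 - Complex.normSq z) * (1 - Complex.normSq w) := by
  simp only [Complex.normSq_apply, Complex.add_re, Complex.add_im, Complex.mul_re, Complex.mul_im,
    Complex.one_re, Complex.one_im, Complex.conj_re, Complex.conj_im]
  ring

lemma den_ne {z w : ℂ} (hz : ‖z‖ < 1) (hw : ‖w‖ ≤ 1) : 1 + conj z * (kap z * w) ≠ 0 := by
  intro h
  have h1 : conj z * (kap z * w) = -1 := by
    rw [← sub_eq_zero, sub_neg_eq_add, add_comm]; exact h
  have h2 : ‖conj z * (kap z * w)‖ = 1 := by rw [h1]; simp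
  rw [norm_mul, norm_mul, RCLike.norm_conj, norm_kap hz, one_mul] at h2
  have h3 : ‖z‖ * ‖w‖ ≤ ‖z‖ * 1 := mul_le_mul_of_nonneg_left hw (norm_nonneg _)
  linarith

lemma normSq_le_one {z : ℂ} (hz : ‖z‖ ≤ 1) : Complex.normSq z ≤ 1 := by
  rw [Complex.normSq_eq_norm_sq]
  exact pow_le_one₀ (norm_nonneg _) hz

lemma normSq_lt_one {z : ℂ} (hz : ‖z‖ < 1) : Complex.normSq z < 1 := by
  rw [Complex.normSq_eq_norm_sq]
  exact pow_lt_one₀ (norm_nonneg _) hz (by norm_num)

/-- The fundamental identity. -/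
lemma one_sub_normSq_moveTo {z w : ℂ} (hz : ‖z‖ < 1) (hw : ‖w‖ ≤ 1) :
    1 - Complex.normSq (moveTo z w) =
      (1 - Complex.normSq z) * (1 - Complex.normSq w) /
        Complex.normSq (1 + conj z * (kap z * w)) := by
  have hk : Complex.normSq (kap z * w) = Complex.normSq w := by
    rw [Complex.normSq_mul, Complex.normSq_eq_norm_sq (kap z), norm_kap hz]; simp
  have hd : Complex.normSq (1 + conj z * (kap z * w)) ≠ 0 :=
    (Complex.normSq_pos.2 (den_ne hz hw)).ne'
  have h := normSq_mob z (kap z * w)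
  rw [hk] at h
  rw [moveTo_eq, Complex.normSq_div, ← h, eq_div_iff hd, sub_mul, div_mul_cancel₀ _ hd, one_mul]

lemma norm_lt_iff {z : ℂ} : ‖z‖ < 1 ↔ 0 < 1 - Complex.normSq z := by
  rw [Complex.normSq_eq_norm_sq]
  constructor
  · intro h
    have : ‖z‖ ^ 2 < 1 := pow_lt_one₀ (norm_nonneg _) h (by norm_num)
    linarith
  · intro h
    by_contra hcon
    push Not at hcon
    have : 1 ≤ ‖z‖ ^ 2 := one_le_pow₀ hcon
    linarith

lemma norm_moveTo_lt {z w : ℂ} (hz : ‖z‖ < 1) (hw : ‖w‖ < 1) : ‖moveTo z w‖ < 1 := by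
  rw [norm_lt_iff, one_sub_normSq_moveTo hz hw.le]
  exact div_pos (mul_pos (norm_lt_iff.1 hz) (norm_lt_iff.1 hw))
    (Complex.normSq_pos.2 (den_ne hz hw.le))

lemma norm_moveTo_eq_one {z w : ℂ} (hz : ‖z‖ < 1) (hw : ‖w‖ = 1) : ‖moveTo z w‖ = 1 := by
  have h := one_sub_normSq_moveTo hz hw.le
  rw [Complex.normSq_eq_norm_sq w, hw] at h
  norm_num at h
  rw [Complex.normSq_eq_norm_sq] at h
  have h1 : ‖moveTo z w‖ ^ 2 = 1 := by linarith
  nlinarith [norm_nonneg (moveTo z w)]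

/-- The Poisson kernel at the boundary point `1`. -/
noncomputable def yP (z : ℂ) : ℝ := (1 - Complex.normSq z) / Complex.normSq (1 - z)

lemma yP_pos {z : ℂ} (hz : ‖z‖ < 1) : 0 < yP z :=
  div_pos (norm_lt_iff.1 hz) (Complex.normSq_pos.2 (one_sub_ne hz))

lemma yP_zero : yP 0 = 1 := by simp [yP]

/-- `1 - moveTo z w` in closed form. -/
lemma one_sub_moveTo {z w : ℂ} (hz : ‖z‖ < 1) (hw : ‖w‖ ≤ 1) :
    1 - moveTo z w = (1 - z) * (1 - w) / (1 + conj z * (kap z * w)) := by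
  have hd := den_ne hz hw
  have hc := one_sub_conj_ne hz
  have hk : kap z * (1 - conj z) = 1 - z := by
    unfold kap; field_simp
  rw [moveTo_eq, eq_div_iff hd, sub_mul, div_mul_cancel₀ _ hd]
  have : (1 - z) * (1 - w) = (1 - z) - kap z * (1 - conj z) * w := by rw [hk]; ring
  rw [this]
  ring

lemma yP_moveTo {z w : ℂ} (hz : ‖z‖ < 1) (hw : ‖w‖ < 1) : yP (moveTo z w) = yP z * yP w := by
  unfold yP
  rw [one_sub_normSq_moveTo hz hw.le, one_sub_moveTo hz hw.le, Complex.normSq_div,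
    Complex.normSq_mul]
  have h1 : Complex.normSq (1 + conj z * (kap z * w)) ≠ 0 :=
    (Complex.normSq_pos.2 (den_ne hz hw.le)).ne'
  have h2 : Complex.normSq (1 - z) ≠ 0 := (Complex.normSq_pos.2 (one_sub_ne hz)).ne'
  have h3 : Complex.normSq (1 - w) ≠ 0 := (Complex.normSq_pos.2 (one_sub_ne hw)).ne'
  generalize Complex.normSq (1 + conj z * (kap z * w)) = D at h1 ⊢
  field_simp

lemma yP_le {z : ℂ} (hz : ‖z‖ < 1) : 1 - ‖z‖ ≤ 4 * yP z := by
  have h1 : Complex.normSq (1 - z) ≤ 4 := by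
    rw [Complex.normSq_eq_norm_sq]
    have : ‖1 - z‖ ≤ 2 := (norm_sub_le _ _).trans (by rw [norm_one]; linarith)
    have := pow_le_pow_left₀ (norm_nonneg _) this 2
    linarith
  have h2 : 0 < Complex.normSq (1 - z) := Complex.normSq_pos.2 (one_sub_ne hz)
  have h3 : 1 - ‖z‖ ≤ 1 - Complex.normSq z := by
    rw [Complex.normSq_eq_norm_sq]
    have := norm_nonneg z
    nlinarith
  have h4 := norm_lt_iff.1 hz
  unfold yP
  rw [mul_div_assoc', le_div_iff₀ h2]
  have h5 : 0 ≤ 1 - ‖z‖ := by linarith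
  nlinarith

lemma differentiableOn_moveTo {z : ℂ} (hz : ‖z‖ < 1) :
    DifferentiableOn ℂ (moveTo z) (Metric.ball 0 1) := by
  intro w hw
  rw [mem_ball_zero_iff] at hw
  refine DifferentiableAt.differentiableWithinAt ?_
  have h : (moveTo z) = fun w => (kap z * w + z) / (1 + conj z * (kap z * w)) := rfl
  rw [h]
  refine DifferentiableAt.div (by fun_prop) (by fun_prop) (den_ne hz hw.le)

lemma continuousOn_moveTo {z : ℂ} (hz : ‖z‖ < 1) :
    ContinuousOn (moveTo z) (Metric.closedBall 0 1) := by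
  have h : (moveTo z) = fun w => (kap z * w + z) / (1 + conj z * (kap z * w)) := rfl
  rw [h]
  refine ContinuousOn.div (by fun_prop) (by fun_prop) ?_
  intro w hw
  rw [mem_closedBall_zero_iff] at hw
  exact den_ne hz hw

variable {E : Type}

lemma norm_pos_lt {B : ℝ≥0 → E → ℂ} (hmem : ∀ t e, ‖B t e‖ < 1) (u : List Bool) :
    ∀ (t : ℝ) (ω : Om E), ‖pos B u t ω‖ < 1 := by
  induction u with
  | nil => intro t ω; exact hmem _ _
  | cons i u ih => intro t ω; exact norm_moveTo_lt (hmem _ _) (ih _ _)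

end Pool.Agent.Lib.P46005
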