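import Mathlib
import Pool.Agent.Lib.P46005.Defs

/-!
# The product structure of the tree space
-/

open MeasureTheory ProbabilityTheory
open scoped ComplexConjugate NNReal ENNReal

namespace Pool.Agent.Lib.P46005

variable {M : Type*} [MeasurableSpace M]

/-- Assemble a tree from the root mark and the two subtrees. -/
def asm (p : M × ((List Bool → M) × (List Bool → M))) : List Bool → M
  | [] => p.1
  | false :: u => p.2.1 u
  | true :: u => p.2.2 u

lemma measurable_asm : Measurable (asm (M := M)) := by
  rw [measurable_pi_iff]
  intro u
  match u with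
  | [] => exact measurable_fst
  | false :: u =>
    exact (measurable_pi_apply u).comp (measurable_fst.comp measurable_snd)
  | true :: u =>
    exact (measurable_pi_apply u).comp (measurable_snd.comp measurable_snd)

lemma prod_split (s : Finset (List Bool)) (g : List Bool → ℝ≥0∞) :
    ∏ w ∈ s, g w = (if [] ∈ s then g [] else 1) *
      ((∏ u ∈ s.preimage (List.cons false) (List.cons_injective.injOn), g (false :: u)) *
      (∏ u ∈ s.preimage (List.cons true) (List.cons_injective.injOn), g (true :: u))) := by
  classical
  rw [Finset.prod_preimage' (List.cons false) s (List.cons_injective.injOn) g,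
    Finset.prod_preimage' (List.cons true) s (List.cons_injective.injOn) g]
  rw [← Finset.prod_filter_mul_prod_filter_not s (fun w => w = [])]
  congr 1
  · by_cases h : [] ∈ s
    · rw [if_pos h]
      have : s.filter (fun w => w = []) = {[]} := by
        ext w
        simp only [Finset.mem_filter, Finset.mem_singleton]
        constructor
        · exact fun hw => hw.2
        · rintro rfl; exact ⟨h, rfl⟩
      rw [this, Finset.prod_singleton]
    · rw [if_neg h]
      have : s.filter (fun w => w = []) = ∅ := by
        ext w
        simp only [Finset.mem_filter, Finset.notMem_empty, iff_false, not_and]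
        rintro hw rfl; exact h hw
      rw [this, Finset.prod_empty]
  · rw [← Finset.prod_filter_mul_prod_filter_not (s.filter fun w => ¬ w = [])
      (fun w => w ∈ Set.range (List.cons false))]
    congr 1
    · refine Finset.prod_congr ?_ fun _ _ => rfl
      ext w
      simp only [Finset.mem_filter, Set.mem_range]
      constructor
      · rintro ⟨⟨h1, _⟩, h2⟩; exact ⟨h1, h2⟩
      · rintro ⟨h1, u, rfl⟩; exact ⟨⟨h1, by simp⟩, u, rfl⟩
    · refine Finset.prod_congr ?_ fun _ _ => rfl
      ext w
      simp only [Finset.mem_filter, Set.mem_range]
      constructor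
      · rintro ⟨⟨h1, h2⟩, h3⟩
        refine ⟨h1, ?_⟩
        match w with
        | [] => exact absurd rfl h2
        | false :: u => exact absurd ⟨u, rfl⟩ h3
        | true :: u => exact ⟨u, rfl⟩
      · rintro ⟨h1, u, rfl⟩
        exact ⟨⟨h1, by simp⟩, by simp⟩

variable (lam : Measure M) [IsProbabilityMeasure lam]

/-- The law of the tree of i.i.d. marks. -/
noncomputable def PT : Measure (List Bool → M) := Measure.infinitePi fun _ => lam

instance : IsProbabilityMeasure (PT lam) := by unfold PT; infer_instance

lemma map_asm : (lam.prod ((PT lam).prod (PT lam))).map asm = PT lam := by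
  classical
  refine Measure.eq_infinitePi (μ := fun _ : List Bool => lam) ?_
  intro s t ht
  rw [Measure.map_apply measurable_asm (MeasurableSet.pi s.countable_toSet fun i _ => ht i)]
  have hpre : asm ⁻¹' (Set.pi (s : Set (List Bool)) t) =
      (if [] ∈ s then t [] else Set.univ) ×ˢ
      ((Set.pi (s.preimage (List.cons false) (List.cons_injective.injOn) : Set (List Bool))
        fun u => t (false :: u)) ×ˢ
      (Set.pi (s.preimage (List.cons true) (List.cons_injective.injOn) : Set (List Bool))
        fun u => t (true :: u))) := by
    ext ⟨m, a, c⟩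
    simp only [Set.mem_preimage, Set.mem_pi, Finset.mem_coe, Set.mem_prod, Finset.mem_preimage]
    constructor
    · intro h
      refine ⟨?_, ?_, ?_⟩
      · split_ifs with h0
        · exact h [] h0
        · exact Set.mem_univ _
      · intro u hu; exact h (false :: u) hu
      · intro u hu; exact h (true :: u) hu
    · rintro ⟨h0, h1, h2⟩ w hw
      match w with
      | [] => rw [if_pos hw] at h0; exact h0
      | false :: u => exact h1 u hw
      | true :: u => exact h2 u hw
  rw [hpre, Measure.prod_prod, Measure.prod_prod, prod_split s]
  unfold PT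
  rw [Measure.infinitePi_pi _ fun i _ => ht _, Measure.infinitePi_pi _ fun i _ => ht _]
  congr 1
  split_ifs
  · rfl
  · simp

/-- Integration over the tree space. -/
lemma lintegral_tree {F : (List Bool → M) → ℝ≥0∞} (hF : Measurable F) :
    ∫⁻ ω, F ω ∂(PT lam) = ∫⁻ m, ∫⁻ a, ∫⁻ c, F (asm (m, a, c)) ∂(PT lam) ∂(PT lam) ∂lam := by
  conv_lhs => rw [← map_asm lam, lintegral_map hF measurable_asm]
  have h : Measurable fun x => F (asm x) := hF.comp measurable_asm
  rw [lintegral_prod (fun x => F (asm x)) h.aemeasurable]
  refine lintegral_congr fun m => ?_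
  rw [lintegral_prod (fun y => F (asm (m, y))) (h.comp measurable_prodMk_left).aemeasurable]

lemma ae_tree {p : (List Bool → M) → Prop} (h : ∀ᵐ ω ∂(PT lam), p ω) :
    ∀ᵐ x ∂(lam.prod ((PT lam).prod (PT lam))), p (asm x) := by
  rw [← map_asm lam] at h
  exact ae_of_ae_map measurable_asm.aemeasurable h

end Pool.Agent.Lib.P46005
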