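import Mathlib
import Pool.Agent.Lib.P46005.Tree

/-!
# Sums over the particles alive at a given time
-/

open MeasureTheory ProbabilityTheory
open scoped ComplexConjugate NNReal ENNReal

namespace Pool.Agent.Lib.P46005

variable {E : Type} [MeasurableSpace E]

lemma measurable_sub (i : Bool) : Measurable (sub (E := E) i) :=
  measurable_pi_iff.2 fun u => measurable_pi_apply (i :: u)

lemma measurable_birth (u : List Bool) : Measurable fun ω : Om E => birth u ω := by
  induction u with
  | nil => exact measurable_const
  | cons i u ih =>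
    exact (measurable_fst.comp (measurable_pi_apply [])).add (ih.comp (measurable_sub i))

lemma measurableSet_alive (u : List Bool) :
    MeasurableSet {p : ℝ × Om E | alive p.1 u p.2} := by
  refine MeasurableSet.inter ?_ ?_
  · exact measurableSet_le ((measurable_birth u).comp measurable_snd) measurable_fst
  · exact measurableSet_lt measurable_fst (((measurable_birth u).comp measurable_snd).add
      (measurable_fst.comp ((measurable_pi_apply u).comp measurable_snd)))

lemma measurable_conj : Measurable fun z : ℂ => conj z := Complex.continuous_conj.measurable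

lemma measurable_moveTo : Measurable fun p : ℂ × ℂ => moveTo p.1 p.2 := by
  unfold moveTo
  have h := measurable_conj
  have h1 : Measurable fun p : ℂ × ℂ => conj p.1 := h.comp measurable_fst
  fun_prop

variable {B : ℝ≥0 → E → ℂ}

lemma measurable_root : Measurable fun p : ℝ × Om E => p.2 [] :=
  (measurable_pi_apply []).comp measurable_snd

lemma measurable_pos (hB : Measurable fun p : ℝ≥0 × E => B p.1 p.2) (u : List Bool) :
    Measurable fun p : ℝ × Om E => pos B u p.1 p.2 := by
  induction u with
  | nil =>
    have h1 : Measurable fun p : ℝ × Om E => (p.1.toNNReal, (p.2 []).2) :=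
      (measurable_real_toNNReal.comp measurable_fst).prodMk (measurable_snd.comp measurable_root)
    have h2 : (fun p : ℝ × Om E => pos B [] p.1 p.2) =
        (fun q : ℝ≥0 × E => B q.1 q.2) ∘ fun p : ℝ × Om E => (p.1.toNNReal, (p.2 []).2) := rfl
    rw [h2]
    exact hB.comp h1
  | cons i u ih =>
    have h1 : Measurable fun p : ℝ × Om E => ((p.2 []).1.toNNReal, (p.2 []).2) :=
      (measurable_real_toNNReal.comp (measurable_fst.comp measurable_root)).prodMk
        (measurable_snd.comp measurable_root)
    have h2 : Measurable fun p : ℝ × Om E => (p.1 - (p.2 []).1, sub i p.2) :=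
      (measurable_fst.sub (measurable_fst.comp measurable_root)).prodMk
        ((measurable_sub i).comp measurable_snd)
    have h3 : (fun p : ℝ × Om E => pos B (i :: u) p.1 p.2) =
        (fun q : ℂ × ℂ => moveTo q.1 q.2) ∘ fun p : ℝ × Om E =>
          (((fun q : ℝ≥0 × E => B q.1 q.2) ∘ fun p : ℝ × Om E =>
            ((p.2 []).1.toNNReal, (p.2 []).2)) p,
          ((fun p : ℝ × Om E => pos B u p.1 p.2) ∘ fun p : ℝ × Om E =>
            (p.1 - (p.2 []).1, sub i p.2)) p) := rfl
    rw [h3]
    exact measurable_moveTo.comp ((hB.comp h1).prodMk (ih.comp h2))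

open Classical in
/-- The sum of `F` over the positions of the particles alive at time `t`. -/
noncomputable def S (B : ℝ≥0 → E → ℂ) (t : ℝ) (ω : Om E) (F : ℂ → ℝ≥0∞) : ℝ≥0∞ :=
  ∑' u : List Bool, if alive t u ω then F (pos B u t ω) else 0

omit [MeasurableSpace E] in
lemma lintegral_emp (t : ℝ) (ω : Om E) (F : ℂ → ℝ≥0∞) :
    ∫⁻ z, F z ∂(emp B t ω) = S B t ω F := by
  classical
  unfold emp S
  rw [lintegral_sum_measure]
  simp_rw [lintegral_dirac]
  refine (tsum_subtype {u : List Bool | alive t u ω} fun u => F (pos B u t ω)).trans ?_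
  refine tsum_congr fun u => ?_
  rw [Set.indicator_apply]
  rfl

omit [MeasurableSpace E] in
lemma emp_univ (t : ℝ) (ω : Om E) : emp B t ω Set.univ = S B t ω fun _ => 1 := by
  rw [← lintegral_emp, lintegral_one]

lemma measurable_S (hB : Measurable fun p : ℝ≥0 × E => B p.1 p.2) {F : ℂ → ℝ≥0∞}
    (hF : Measurable F) : Measurable fun p : ℝ × Om E => S B p.1 p.2 F := by
  classical
  unfold S
  refine Measurable.tsum fun u => ?_
  exact Measurable.ite (measurableSet_alive u) (hF.comp (measurable_pos hB u)) measurable_const

lemma tsum_list (g : List Bool → ℝ≥0∞) :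
    ∑' u, g u = g [] + (∑' u, g (false :: u) + ∑' u, g (true :: u)) := by
  classical
  have h : ∀ w, g w = (if w = [] then g [] else 0) +
      ((Set.range (List.cons false)).indicator g w + (Set.range (List.cons true)).indicator g w) := by
    intro w
    match w with
    | [] => simp
    | false :: u => simp
    | true :: u => simp
  rw [tsum_congr h, ENNReal.tsum_add, ENNReal.tsum_add, tsum_ite_eq]
  congr 2
  · rw [← (List.cons_injective (a := false)).tsum_eq (f := (Set.range (List.cons false)).indicator g)
      (by exact Set.support_indicator_subset)]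
    simp
  · rw [← (List.cons_injective (a := true)).tsum_eq (f := (Set.range (List.cons true)).indicator g)
      (by exact Set.support_indicator_subset)]
    simp

omit [MeasurableSpace E] in
lemma alive_cons (t : ℝ) (i : Bool) (u : List Bool) (ω : Om E) :
    alive t (i :: u) ω ↔ alive (t - (ω []).1) u (sub i ω) := by
  unfold alive
  have h1 : birth (i :: u) ω = (ω []).1 + birth u (sub i ω) := rfl
  have h2 : (sub i ω) u = ω (i :: u) := rfl
  rw [h1, h2]
  constructor
  · rintro ⟨h3, h4⟩; constructor <;> linarith
  · rintro ⟨h3, h4⟩; constructor <;> linarith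

omit [MeasurableSpace E] in
open Classical in
/-- Decomposition at the first branching. -/
lemma S_rec (t : ℝ) (ω : Om E) (F : ℂ → ℝ≥0∞) :
    S B t ω F = (if 0 ≤ t ∧ t < (ω []).1 then F (B t.toNNReal (ω []).2) else 0) +
      (S B (t - (ω []).1) (sub false ω)
        (fun w => F (moveTo (B (ω []).1.toNNReal (ω []).2) w)) +
      S B (t - (ω []).1) (sub true ω)
        (fun w => F (moveTo (B (ω []).1.toNNReal (ω []).2) w))) := by
  unfold S
  rw [tsum_list]
  congr 1
  · have : alive t [] ω ↔ 0 ≤ t ∧ t < (ω []).1 := by
      unfold alive birth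
      rw [zero_add]
    simp only [this]
    rfl
  · congr 1
    · refine tsum_congr fun u => ?_
      simp only [alive_cons]
      rfl
    · refine tsum_congr fun u => ?_
      simp only [alive_cons]
      rfl

omit [MeasurableSpace E] in
open Classical in
lemma S_asm (t : ℝ) (m : ℝ × E) (a c : Om E) (F : ℂ → ℝ≥0∞) :
    S B t (asm (m, a, c)) F = (if 0 ≤ t ∧ t < m.1 then F (B t.toNNReal m.2) else 0) +
      (S B (t - m.1) a (fun w => F (moveTo (B m.1.toNNReal m.2) w)) +
      S B (t - m.1) c (fun w => F (moveTo (B m.1.toNNReal m.2) w))) := by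
  rw [S_rec]
  rfl

omit [MeasurableSpace E] in
lemma S_mono {t : ℝ} {ω : Om E} {F G : ℂ → ℝ≥0∞} (h : ∀ z, F z ≤ G z) :
    S B t ω F ≤ S B t ω G := by
  classical
  refine ENNReal.tsum_le_tsum fun u => ?_
  split_ifs
  · exact h _
  · exact le_rfl

omit [MeasurableSpace E] in
lemma S_const_mul {t : ℝ} {ω : Om E} {F : ℂ → ℝ≥0∞} (c : ℝ≥0∞) :
    S B t ω (fun z => c * F z) = c * S B t ω F := by
  classical
  unfold S
  rw [← ENNReal.tsum_mul_left]
  refine tsum_congr fun u => ?_
  split_ifs
  · rfl
  · rw [mul_zero]

omit [MeasurableSpace E] in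
lemma S_add {t : ℝ} {ω : Om E} {F G : ℂ → ℝ≥0∞} :
    S B t ω (fun z => F z + G z) = S B t ω F + S B t ω G := by
  classical
  unfold S
  rw [← ENNReal.tsum_add]
  refine tsum_congr fun u => ?_
  split_ifs
  · rfl
  · rw [add_zero]

end Pool.Agent.Lib.P46005
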