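import Mathlib

/-!
# Integrals against the exponential law
-/

open MeasureTheory ProbabilityTheory Set
open scoped NNReal ENNReal

namespace Pool.Agent.Lib.P46005

variable {β : ℝ}

lemma expMeasure_eq (β : ℝ) : expMeasure β = volume.withDensity (exponentialPDF β) := rfl

lemma measurable_exponentialPDF' (β : ℝ) : Measurable (exponentialPDF β) :=
  (measurable_exponentialPDFReal β).ennreal_ofReal

lemma lintegral_expMeasure (β : ℝ) (g : ℝ → ℝ≥0∞) (hg : Measurable g) :
    ∫⁻ x, g x ∂(expMeasure β) = ∫⁻ x, exponentialPDF β x * g x := by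
  rw [expMeasure_eq, lintegral_withDensity_eq_lintegral_mul _ (measurable_exponentialPDF' β) hg]
  rfl

lemma setLIntegral_exp_Ioc (hβ : 0 < β) {s t : ℝ} (hs : 0 ≤ s) (hst : s ≤ t) {h : ℝ → ℝ}
    (hc : Continuous h) (h0 : ∀ x ∈ Icc s t, 0 ≤ h x) :
    ∫⁻ x in Ioc s t, ENNReal.ofReal (h x) ∂(expMeasure β) =
      ENNReal.ofReal (∫ x in s..t, β * Real.exp (-(β * x)) * h x) := by
  rw [← lintegral_indicator measurableSet_Ioc, lintegral_expMeasure _ _
    ((hc.measurable.ennreal_ofReal).indicator measurableSet_Ioc)]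
  have h1 : ∀ x, exponentialPDF β x * (Ioc s t).indicator (fun x => ENNReal.ofReal (h x)) x =
      (Ioc s t).indicator (fun x => ENNReal.ofReal (β * Real.exp (-(β * x)) * h x)) x := by
    intro x
    by_cases hx : x ∈ Ioc s t
    · rw [indicator_of_mem hx, indicator_of_mem hx, exponentialPDF_of_nonneg (hs.trans hx.1.le),
        ← ENNReal.ofReal_mul (by positivity)]
    · rw [indicator_of_notMem hx, indicator_of_notMem hx, mul_zero]
  rw [lintegral_congr h1, lintegral_indicator measurableSet_Ioc,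
    intervalIntegral.integral_of_le hst]
  rw [ofReal_integral_eq_lintegral_ofReal]
  · have : Continuous fun x => β * Real.exp (-(β * x)) * h x := by fun_prop
    exact (this.integrableOn_Icc).mono_set Ioc_subset_Icc_self
  · refine (ae_restrict_iff' measurableSet_Ioc).2 (Filter.Eventually.of_forall fun x hx => ?_)
    exact mul_nonneg (by positivity) (h0 x (Ioc_subset_Icc_self hx))

lemma expMeasure_Iic_zero (β : ℝ) (hβ : 0 < β) : expMeasure β (Iic 0) = 0 := by
  rw [expMeasure_eq, withDensity_apply _ measurableSet_Iic,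
    lintegral_exponentialPDF_eq_antiDeriv hβ 0]
  simp

lemma exp_ae_pos (hβ : 0 < β) : ∀ᵐ x ∂(expMeasure β), 0 < x := by
  rw [ae_iff]
  have : {a : ℝ | ¬ 0 < a} = Iic 0 := by ext; simp
  rw [this]
  exact expMeasure_Iic_zero β hβ

/-- Integral over `{x ≤ t}`. -/
lemma lintegral_exp_le (hβ : 0 < β) {t : ℝ} (ht : 0 ≤ t) {h : ℝ → ℝ}
    (hc : Continuous h) (h0 : ∀ x ∈ Icc 0 t, 0 ≤ h x) :
    ∫⁻ x, (if x ≤ t then ENNReal.ofReal (h x) else 0) ∂(expMeasure β) =
      ENNReal.ofReal (∫ x in 0..t, β * Real.exp (-(β * x)) * h x) := by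
  rw [← setLIntegral_exp_Ioc hβ le_rfl ht hc h0, ← lintegral_indicator measurableSet_Ioc]
  refine lintegral_congr_ae ?_
  filter_upwards [exp_ae_pos hβ] with x hx
  simp only [indicator_apply, mem_Ioc]
  by_cases hxt : x ≤ t
  · simp [hx, hxt]
  · simp [hxt]

lemma lintegral_exp_Ioc' (hβ : 0 < β) {s t : ℝ} (hs : 0 ≤ s) (hst : s ≤ t) {h : ℝ → ℝ}
    (hc : Continuous h) (h0 : ∀ x ∈ Icc s t, 0 ≤ h x) :
    ∫⁻ x, (if s < x ∧ x ≤ t then ENNReal.ofReal (h x) else 0) ∂(expMeasure β) =
      ENNReal.ofReal (∫ x in s..t, β * Real.exp (-(β * x)) * h x) := by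
  rw [← setLIntegral_exp_Ioc hβ hs hst hc h0, ← lintegral_indicator measurableSet_Ioc]
  refine lintegral_congr fun x => ?_
  simp only [indicator_apply, mem_Ioc]

/-- The tail of the exponential law. -/
lemma expMeasure_Ioi (hβ : 0 < β) {t : ℝ} (ht : 0 ≤ t) :
    expMeasure β (Ioi t) = ENNReal.ofReal (Real.exp (-(β * t))) := by
  haveI := isProbabilityMeasure_expMeasure hβ
  have h1 : expMeasure β (Iic t) = ENNReal.ofReal (1 - Real.exp (-(β * t))) := by
    rw [expMeasure_eq, withDensity_apply _ measurableSet_Iic,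
      lintegral_exponentialPDF_eq_antiDeriv hβ t, if_pos ht]
  rw [← compl_Iic, prob_compl_eq_one_sub measurableSet_Iic, h1, ← ENNReal.ofReal_one,
    ← ENNReal.ofReal_sub _ (by
      rw [sub_nonneg, Real.exp_le_one_iff]; nlinarith)]
  congr 1
  ring

lemma lintegral_exp_gt (hβ : 0 < β) {t : ℝ} (ht : 0 ≤ t) (c : ℝ≥0∞) :
    ∫⁻ x, (if 0 ≤ t ∧ t < x then c else 0) ∂(expMeasure β) =
      ENNReal.ofReal (Real.exp (-(β * t))) * c := by
  have h1 : ∀ x : ℝ, (if 0 ≤ t ∧ t < x then c else 0) = (Ioi t).indicator (fun _ => c) x := by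
    intro x
    simp only [indicator_apply, mem_Ioi, ht, true_and]
  rw [lintegral_congr h1, lintegral_indicator_const measurableSet_Ioi, expMeasure_Ioi hβ ht,
    mul_comm]

end Pool.Agent.Lib.P46005
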