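import Mathlib
import Pool.Agent.Lib.P46005.BBM
import Pool.Agent.Lib.P46005.Expo

/-!
# First moments
-/

open MeasureTheory ProbabilityTheory
open scoped ComplexConjugate NNReal ENNReal

namespace Pool.Agent.Lib.P46005

variable {E : Type} [MeasurableSpace E]

/-- A class of test functions, closed under the isometries `moveTo z`, on which the motion acts by
multiplication by `exp (c t)`. -/
structure Cls (B : ℝ≥0 → E → ℂ) (Q : Measure E) (c : ℝ) (H : Set (ℂ → ℝ≥0∞)) : Prop where
  meas : ∀ F ∈ H, Measurable F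
  closed : ∀ F ∈ H, ∀ z : ℂ, ‖z‖ < 1 → (fun w => F (moveTo z w)) ∈ H
  mean : ∀ F ∈ H, ∀ t : ℝ≥0, ∫⁻ e, F (B t e) ∂Q = ENNReal.ofReal (Real.exp (c * t)) * F 0

lemma moveTo_zero (z : ℂ) : moveTo z 0 = z := by simp [moveTo]

variable {B : ℝ≥0 → E → ℂ} {Q : Measure E} {β : ℝ}

open Classical in
/-- The sum over the particles of generation `k`. -/
noncomputable def Sg (B : ℝ≥0 → E → ℂ) (k : ℕ) (t : ℝ) (ω : Om E) (F : ℂ → ℝ≥0∞) : ℝ≥0∞ :=
  ∑' u : List Bool, if u.length = k ∧ alive t u ω then F (pos B u t ω) else 0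

omit [MeasurableSpace E] in
lemma S_eq_tsum_Sg (t : ℝ) (ω : Om E) (F : ℂ → ℝ≥0∞) : S B t ω F = ∑' k, Sg B k t ω F := by
  classical
  unfold S Sg
  rw [ENNReal.tsum_comm]
  refine tsum_congr fun u => ?_
  rw [tsum_eq_single u.length]
  · simp
  · intro k hk
    rw [if_neg]
    rintro ⟨h, _⟩
    exact hk h.symm

lemma measurable_Sg (hB : Measurable fun p : ℝ≥0 × E => B p.1 p.2) {F : ℂ → ℝ≥0∞}
    (hF : Measurable F) (k : ℕ) : Measurable fun p : ℝ × Om E => Sg B k p.1 p.2 F := by
  classical
  unfold Sg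
  refine Measurable.tsum fun u => ?_
  refine Measurable.ite ?_ (hF.comp (measurable_pos hB u)) measurable_const
  by_cases h : u.length = k
  · have : {a : ℝ × Om E | u.length = k ∧ alive a.1 u a.2} = {p | alive p.1 u p.2} := by
      ext p; simp [h]
    rw [this]
    exact measurableSet_alive u
  · have : {a : ℝ × Om E | u.length = k ∧ alive a.1 u a.2} = ∅ := by
      ext p; simp [h]
    rw [this]
    exact MeasurableSet.empty

omit [MeasurableSpace E] in
open Classical in
lemma Sg_zero (t : ℝ) (m : ℝ × E) (a c : Om E) (F : ℂ → ℝ≥0∞) :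
    Sg B 0 t (asm (m, a, c)) F = (if 0 ≤ t ∧ t < m.1 then F (B t.toNNReal m.2) else 0) := by
  unfold Sg
  rw [tsum_eq_single []]
  · have : alive t [] (asm (m, a, c)) ↔ 0 ≤ t ∧ t < m.1 := by
      unfold alive birth
      rw [zero_add]
      rfl
    simp only [List.length_nil, true_and, this]
    rfl
  · intro u hu
    rw [if_neg]
    rintro ⟨h, _⟩
    exact hu (List.length_eq_zero_iff.1 h)

omit [MeasurableSpace E] in
lemma Sg_succ (k : ℕ) (t : ℝ) (m : ℝ × E) (a c : Om E) (F : ℂ → ℝ≥0∞) :
    Sg B (k + 1) t (asm (m, a, c)) F =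
      Sg B k (t - m.1) a (fun w => F (moveTo (B m.1.toNNReal m.2) w)) +
      Sg B k (t - m.1) c (fun w => F (moveTo (B m.1.toNNReal m.2) w)) := by
  classical
  unfold Sg
  rw [tsum_list]
  simp only [List.length_nil, List.length_cons, alive_cons, add_left_inj]
  rw [if_neg (by simp), zero_add]
  rfl

/-- The mean of the generation sums. -/
noncomputable def Ik (β c : ℝ) (k : ℕ) (t : ℝ) : ℝ≥0∞ :=
  if t < 0 then 0 else
    ENNReal.ofReal (Real.exp (-(β * t)) * (2 * β * t) ^ k / k.factorial * Real.exp (c * t))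

lemma integral_step (β c : ℝ) (k : ℕ) (t : ℝ) :
    ∫ x in (0 : ℝ)..t, β * Real.exp (-(β * x)) *
      (2 * (Real.exp (-(β * (t - x))) * (2 * β * (t - x)) ^ k / k.factorial *
        Real.exp (c * (t - x))) * Real.exp (c * x)) =
      Real.exp (-(β * t)) * (2 * β * t) ^ (k + 1) / (k + 1).factorial * Real.exp (c * t) := by
  have h1 : ∀ x : ℝ, β * Real.exp (-(β * x)) *
      (2 * (Real.exp (-(β * (t - x))) * (2 * β * (t - x)) ^ k / k.factorial *
        Real.exp (c * (t - x))) * Real.exp (c * x)) =
      Real.exp (-(β * t)) * Real.exp (c * t) * ((2 * β) * (2 * β * (t - x)) ^ k / k.factorial) := by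
    intro x
    have e1 : Real.exp (-(β * t)) = Real.exp (-(β * x)) * Real.exp (-(β * (t - x))) := by
      rw [← Real.exp_add]; congr 1; ring
    have e2 : Real.exp (c * t) = Real.exp (c * (t - x)) * Real.exp (c * x) := by
      rw [← Real.exp_add]; congr 1; ring
    rw [e1, e2]
    ring
  simp_rw [h1]
  rw [intervalIntegral.integral_const_mul]
  have h2 : ∫ x in (0 : ℝ)..t, (2 * β) * (2 * β * (t - x)) ^ k / k.factorial =
      (2 * β * t) ^ (k + 1) / (k + 1).factorial := by
    have hder : ∀ x ∈ Set.uIcc 0 t, HasDerivAt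
        (fun x : ℝ => -((2 * β * (t - x)) ^ (k + 1) / (k + 1).factorial))
        ((2 * β) * (2 * β * (t - x)) ^ k / k.factorial) x := by
      intro x _
      have e1 : HasDerivAt (fun x : ℝ => 2 * β * (t - x)) (2 * β * (-1)) x :=
        ((hasDerivAt_id x).const_sub t).const_mul (2 * β)
      have e2 := ((e1.pow (k + 1)).div_const ((k + 1).factorial : ℝ)).neg
      refine e2.congr_deriv ?_
      have e3 : ((k + 1).factorial : ℝ) = (k + 1) * k.factorial := by
        rw [Nat.factorial_succ]; push_cast; ring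
      have e4 : (k.factorial : ℝ) ≠ 0 := by positivity
      have e5 : (k : ℝ) + 1 ≠ 0 := by positivity
      rw [e3, Nat.add_sub_cancel]
      push_cast
      field_simp
    rw [intervalIntegral.integral_eq_sub_of_hasDerivAt hder
      (Continuous.intervalIntegrable (by fun_prop) _ _)]
    simp
  rw [h2]
  ring

variable {c : ℝ} {H : Set (ℂ → ℝ≥0∞)}

theorem lintegral_Sg [IsProbabilityMeasure Q] (hβ : 0 < β)
    (hB : Measurable fun p : ℝ≥0 × E => B p.1 p.2) (hmem : ∀ t e, ‖B t e‖ < 1)
    (hH : Cls B Q c H) (k : ℕ) : ∀ F ∈ H, ∀ t : ℝ,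
      ∫⁻ ω, Sg B k t ω F ∂(bbmLaw β Q) = Ik β c k t * F 0 := by
  classical
  have := isProbabilityMeasure_expMeasure hβ
  have hlaw : bbmLaw β Q = PT ((expMeasure β).prod Q) := rfl
  induction k with
  | zero =>
    intro F hF t
    have hmS : Measurable fun ω : Om E => Sg B 0 t ω F :=
      (measurable_Sg hB (hH.meas F hF) 0).comp measurable_prodMk_left
    rw [hlaw, lintegral_tree _ hmS]
    simp_rw [Sg_zero]
    simp only [lintegral_const, measure_univ, mul_one]
    have hmeas : Measurable fun m : ℝ × E =>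
        if 0 ≤ t ∧ t < m.1 then F (B t.toNNReal m.2) else 0 := by
      refine Measurable.ite ?_ ?_ measurable_const
      · exact (MeasurableSet.const _).inter (measurableSet_lt measurable_const measurable_fst)
      · exact (hH.meas F hF).comp (hB.comp (measurable_const.prodMk measurable_snd))
    rw [lintegral_prod _ hmeas.aemeasurable]
    by_cases ht : 0 ≤ t
    · have h1 : ∀ x : ℝ, ∫⁻ e, (if 0 ≤ t ∧ t < x then F (B t.toNNReal e) else 0) ∂Q =
          if 0 ≤ t ∧ t < x then ENNReal.ofReal (Real.exp (c * t)) * F 0 else 0 := by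
        intro x
        split_ifs with h
        · rw [hH.mean F hF]
          simp [ht]
        · simp
      simp_rw [h1]
      rw [lintegral_exp_gt hβ ht, Ik, if_neg (not_lt.2 ht), ← mul_assoc,
        ← ENNReal.ofReal_mul (Real.exp_pos _).le]
      simp
    · rw [Ik, if_pos (not_le.1 ht)]
      simp [ht]
  | succ k ih =>
    intro F hF t
    have hmS : Measurable fun ω : Om E => Sg B (k + 1) t ω F :=
      (measurable_Sg hB (hH.meas F hF) (k + 1)).comp measurable_prodMk_left
    rw [hlaw, lintegral_tree _ hmS]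
    simp_rw [Sg_succ]
    have h1 : ∀ m : ℝ × E, ∫⁻ a, ∫⁻ c', (Sg B k (t - m.1) a
        (fun w => F (moveTo (B m.1.toNNReal m.2) w)) +
        Sg B k (t - m.1) c' (fun w => F (moveTo (B m.1.toNNReal m.2) w)))
        ∂(PT ((expMeasure β).prod Q)) ∂(PT ((expMeasure β).prod Q)) =
        2 * (Ik β c k (t - m.1) * F (B m.1.toNNReal m.2)) := by
      intro m
      have hFm : (fun w => F (moveTo (B m.1.toNNReal m.2) w)) ∈ H := hH.closed F hF _ (hmem _ _)
      have hm1 : Measurable fun ω : Om E => Sg B k (t - m.1) ω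
          (fun w => F (moveTo (B m.1.toNNReal m.2) w)) :=
        (measurable_Sg hB (hH.meas _ hFm) k).comp measurable_prodMk_left
      have h2 := ih _ hFm (t - m.1)
      rw [hlaw] at h2
      have h3 : ∀ a : Om E, ∫⁻ c', (Sg B k (t - m.1) a
          (fun w => F (moveTo (B m.1.toNNReal m.2) w)) +
          Sg B k (t - m.1) c' (fun w => F (moveTo (B m.1.toNNReal m.2) w)))
          ∂(PT ((expMeasure β).prod Q)) = Sg B k (t - m.1) a
          (fun w => F (moveTo (B m.1.toNNReal m.2) w)) +
          Ik β c k (t - m.1) * F (moveTo (B m.1.toNNReal m.2) 0) := by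
        intro a
        rw [lintegral_add_left measurable_const, lintegral_const, measure_univ, mul_one, h2]
      simp_rw [h3]
      rw [lintegral_add_right _ measurable_const, lintegral_const, measure_univ, mul_one, h2,
        moveTo_zero, two_mul]
    simp_rw [h1]
    have hmeasF : Measurable fun m : ℝ × E => F (B m.1.toNNReal m.2) :=
      (hH.meas F hF).comp (hB.comp ((measurable_real_toNNReal.comp measurable_fst).prodMk
        measurable_snd))
    have hmeasI : Measurable fun x : ℝ => Ik β c k (t - x) := by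
      unfold Ik
      refine Measurable.ite (measurableSet_lt (by fun_prop) measurable_const) measurable_const ?_
      fun_prop
    have hmeas : Measurable fun m : ℝ × E => 2 * (Ik β c k (t - m.1) * F (B m.1.toNNReal m.2)) :=
      ((hmeasI.comp measurable_fst).mul hmeasF).const_mul 2
    rw [lintegral_prod _ hmeas.aemeasurable]
    have h4 : ∀ x : ℝ, ∫⁻ e, 2 * (Ik β c k (t - x) * F (B x.toNNReal e)) ∂Q =
        2 * (Ik β c k (t - x) * (ENNReal.ofReal (Real.exp (c * x.toNNReal)) * F 0)) := by
      intro x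
      rw [lintegral_const_mul, lintegral_const_mul, hH.mean F hF]
      · exact (hH.meas F hF).comp (hB.comp (measurable_const.prodMk measurable_id))
      · exact ((hH.meas F hF).comp (hB.comp (measurable_const.prodMk measurable_id))).const_mul _
    simp_rw [h4]
    by_cases ht : 0 ≤ t
    · have h5 : ∀ᵐ x ∂(expMeasure β), 2 * (Ik β c k (t - x) *
          (ENNReal.ofReal (Real.exp (c * x.toNNReal)) * F 0)) =
          (if x ≤ t then ENNReal.ofReal (2 * (Real.exp (-(β * (t - x))) *
            (2 * β * (t - x)) ^ k / k.factorial * Real.exp (c * (t - x))) * Real.exp (c * x))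
            else 0) * F 0 := by
        filter_upwards [exp_ae_pos hβ] with x hx
        rw [Real.coe_toNNReal x hx.le, Ik]
        by_cases hxt : x ≤ t
        · rw [if_pos hxt, if_neg (by linarith), ← mul_assoc, ← mul_assoc, mul_assoc 2]
          rw [← ENNReal.ofReal_mul, ← ENNReal.ofReal_ofNat, ← ENNReal.ofReal_mul (by norm_num)]
          · congr 2
            ring
          · have : 0 ≤ t - x := by linarith
            positivity
        · rw [if_neg hxt, if_pos (by linarith)]
          simp
      rw [lintegral_congr_ae h5, lintegral_mul_const, lintegral_exp_le hβ ht, integral_step, Ik,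
        if_neg (not_lt.2 ht)]
      · fun_prop
      · intro x hx
        have : 0 ≤ t - x := by linarith [hx.2]
        positivity
      · refine Measurable.ite (measurableSet_le measurable_id measurable_const) ?_
          measurable_const
        fun_prop
    · have h5 : ∀ᵐ x ∂(expMeasure β), 2 * (Ik β c k (t - x) *
          (ENNReal.ofReal (Real.exp (c * x.toNNReal)) * F 0)) = 0 := by
        filter_upwards [exp_ae_pos hβ] with x hx
        rw [Ik, if_pos (by linarith)]
        simp
      rw [lintegral_congr_ae h5, Ik, if_pos (not_le.1 ht)]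
      simp

/-- The first moment of sums over all particles. -/
theorem lintegral_S [IsProbabilityMeasure Q] (hβ : 0 < β)
    (hB : Measurable fun p : ℝ≥0 × E => B p.1 p.2) (hmem : ∀ t e, ‖B t e‖ < 1)
    (hH : Cls B Q c H) {F : ℂ → ℝ≥0∞} (hF : F ∈ H) {t : ℝ} (ht : 0 ≤ t) :
    ∫⁻ ω, S B t ω F ∂(bbmLaw β Q) = ENNReal.ofReal (Real.exp ((β + c) * t)) * F 0 := by
  have h1 : ∀ k, AEMeasurable (fun ω : Om E => Sg B k t ω F) (bbmLaw β Q) := fun k =>
    ((measurable_Sg hB (hH.meas F hF) k).comp measurable_prodMk_left).aemeasurable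
  simp_rw [S_eq_tsum_Sg]
  rw [lintegral_tsum h1]
  simp_rw [lintegral_Sg hβ hB hmem hH _ F hF t]
  rw [ENNReal.tsum_mul_right]
  congr 1
  have h2 : ∀ k, Ik β c k t = ENNReal.ofReal (Real.exp (-(β * t)) * Real.exp (c * t) *
      ((2 * β * t) ^ k / k.factorial)) := by
    intro k
    rw [Ik, if_neg (not_lt.2 ht)]
    congr 1
    ring
  simp_rw [h2]
  have h3 : HasSum (fun k : ℕ => Real.exp (-(β * t)) * Real.exp (c * t) *
      ((2 * β * t) ^ k / k.factorial)) (Real.exp (-(β * t)) * Real.exp (c * t) *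
      Real.exp (2 * β * t)) := by
    refine HasSum.mul_left _ ?_
    rw [Real.exp_eq_exp_ℝ]
    exact NormedSpace.expSeries_div_hasSum_exp (2 * β * t)
  rw [← ENNReal.ofReal_tsum_of_nonneg (fun k => by positivity) h3.summable, h3.tsum_eq,
    ← Real.exp_add, ← Real.exp_add]
  congr 2
  ring

/-- No particle is alive at a negative time. -/
theorem lintegral_S_neg [IsProbabilityMeasure Q] (hβ : 0 < β)
    (hB : Measurable fun p : ℝ≥0 × E => B p.1 p.2) (hmem : ∀ t e, ‖B t e‖ < 1)
    (hH : Cls B Q c H) {F : ℂ → ℝ≥0∞} (hF : F ∈ H) {t : ℝ} (ht : t < 0) :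
    ∫⁻ ω, S B t ω F ∂(bbmLaw β Q) = 0 := by
  have h1 : ∀ k, AEMeasurable (fun ω : Om E => Sg B k t ω F) (bbmLaw β Q) := fun k =>
    ((measurable_Sg hB (hH.meas F hF) k).comp measurable_prodMk_left).aemeasurable
  simp_rw [S_eq_tsum_Sg]
  rw [lintegral_tsum h1]
  simp_rw [lintegral_Sg hβ hB hmem hH _ F hF t, Ik, if_pos ht]
  simp

/-- The class of constant functions. -/
lemma cls_one [IsProbabilityMeasure Q] : Cls B Q 0 {F | F = fun _ => 1} where
  meas := by rintro F rfl; exact measurable_const
  closed := by rintro F rfl z _; rfl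
  mean := by rintro F rfl t; simp

end Pool.Agent.Lib.P46005
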