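import Mathlib
import Pool.Agent.Lib.P46005.First

/-!
# Second moments of the number of particles
-/

open MeasureTheory ProbabilityTheory
open scoped ComplexConjugate NNReal ENNReal

namespace Pool.Agent.Lib.P46005

variable {E : Type} [MeasurableSpace E] {B : ℝ≥0 → E → ℂ} {Q : Measure E} {β : ℝ}

lemma sq_two {Ω : Type*} [MeasurableSpace Ω] (P : Measure Ω) [IsProbabilityMeasure P]
    {A : Ω → ℝ≥0∞} (hA : Measurable A) :
    ∫⁻ a, ∫⁻ c, (A a + A c) ^ 2 ∂P ∂P = 2 * ∫⁻ a, A a ^ 2 ∂P + 2 * (∫⁻ a, A a ∂P) ^ 2 := by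
  have h1 : ∀ a, ∫⁻ c, (A a + A c) ^ 2 ∂P =
      A a ^ 2 + 2 * A a * (∫⁻ c, A c ∂P) + ∫⁻ c, A c ^ 2 ∂P := by
    intro a
    have h2 : ∀ c, (A a + A c) ^ 2 = A a ^ 2 + 2 * A a * A c + A c ^ 2 := fun c => by ring
    simp_rw [h2]
    rw [lintegral_add_right _ (hA.pow_const 2), lintegral_add_left measurable_const,
      lintegral_const_mul _ hA, lintegral_const, measure_univ, mul_one]
  simp_rw [h1]
  have hm1 : Measurable fun a => A a ^ 2 := hA.pow_const 2
  have hm2 : Measurable fun a => 2 * A a * ∫⁻ c, A c ∂P := (hA.const_mul 2).mul_const _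
  rw [lintegral_add_right _ measurable_const, lintegral_add_left hm1, lintegral_const,
    measure_univ, mul_one, lintegral_mul_const _ (hA.const_mul 2), lintegral_const_mul _ hA]
  ring

lemma lintegral_time [IsProbabilityMeasure Q] (μ : Measure ℝ) [SFinite μ] {G : ℝ → ℝ≥0∞}
    (hG : Measurable G) : ∫⁻ m, G m.1 ∂(μ.prod Q) = ∫⁻ x, G x ∂μ := by
  rw [lintegral_prod (fun m : ℝ × E => G m.1) (hG.comp measurable_fst).aemeasurable]
  refine lintegral_congr fun x => ?_
  change ∫⁻ _y : E, G x ∂Q = G x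
  rw [lintegral_const, measure_univ, mul_one]

/-- The truncated sums. -/
noncomputable def Sle (B : ℝ≥0 → E → ℂ) (k : ℕ) (t : ℝ) (ω : Om E) (F : ℂ → ℝ≥0∞) : ℝ≥0∞ :=
  ∑ j ∈ Finset.range (k + 1), Sg B j t ω F

omit [MeasurableSpace E] in
lemma Sle_le_S (k : ℕ) (t : ℝ) (ω : Om E) (F : ℂ → ℝ≥0∞) : Sle B k t ω F ≤ S B t ω F := by
  rw [S_eq_tsum_Sg]
  exact ENNReal.sum_le_tsum _

lemma measurable_Sle (hB : Measurable fun p : ℝ≥0 × E => B p.1 p.2) {F : ℂ → ℝ≥0∞}
    (hF : Measurable F) (k : ℕ) : Measurable fun p : ℝ × Om E => Sle B k p.1 p.2 F := by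
  unfold Sle
  exact Finset.measurable_fun_sum _ fun j _ => measurable_Sg hB hF j

omit [MeasurableSpace E] in
open Classical in
lemma Sle_succ (k : ℕ) (t : ℝ) (m : ℝ × E) (a c : Om E) (F : ℂ → ℝ≥0∞) :
    Sle B (k + 1) t (asm (m, a, c)) F =
      (if 0 ≤ t ∧ t < m.1 then F (B t.toNNReal m.2) else 0) +
      (Sle B k (t - m.1) a (fun w => F (moveTo (B m.1.toNNReal m.2) w)) +
      Sle B k (t - m.1) c (fun w => F (moveTo (B m.1.toNNReal m.2) w))) := by
  unfold Sle
  rw [Finset.sum_range_succ', Sg_zero, add_comm]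
  congr 1
  rw [← Finset.sum_add_distrib]
  exact Finset.sum_congr rfl fun j _ => Sg_succ j t m a c F

lemma int_A' (β s t : ℝ) : ∫ x in s..t, β * Real.exp (-(β * x)) *
    (6 * Real.exp (2 * β * (t - x))) =
      2 * Real.exp (2 * β * t - 3 * β * s) - 2 * Real.exp (-(β * t)) := by
  have h1 : ∀ x ∈ Set.uIcc s t, HasDerivAt (fun x : ℝ => -2 * Real.exp (2 * β * t - 3 * β * x))
      (β * Real.exp (-(β * x)) * (6 * Real.exp (2 * β * (t - x)))) x := by
    intro x _
    have e1 : HasDerivAt (fun x : ℝ => 2 * β * t - 3 * β * x) (-(3 * β)) x := by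
      simpa using ((hasDerivAt_id x).const_mul (3 * β)).const_sub (2 * β * t)
    refine (e1.exp.const_mul (-2)).congr_deriv ?_
    have : Real.exp (2 * β * t - 3 * β * x) = Real.exp (-(β * x)) * Real.exp (2 * β * (t - x)) := by
      rw [← Real.exp_add]; congr 1; ring
    rw [this]; ring
  rw [intervalIntegral.integral_eq_sub_of_hasDerivAt h1
    (Continuous.intervalIntegrable (by fun_prop) _ _)]
  have e1 : 2 * β * t - 3 * β * t = -(β * t) := by ring
  rw [e1]
  ring

section

variable [IsProbabilityMeasure Q] (hβ : 0 < β) (hB : Measurable fun p : ℝ≥0 × E => B p.1 p.2)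
  (hmem : ∀ t e, ‖B t e‖ < 1)

include hβ hB hmem

lemma mean_one {t : ℝ} (ht : 0 ≤ t) :
    ∫⁻ ω, S B t ω (fun _ => 1) ∂(bbmLaw β Q) = ENNReal.ofReal (Real.exp (β * t)) := by
  have := lintegral_S hβ hB hmem (cls_one (B := B) (Q := Q)) (F := fun _ => 1) rfl ht
  simpa using this

lemma mean_one_neg {t : ℝ} (ht : t < 0) :
    ∫⁻ ω, S B t ω (fun _ => 1) ∂(bbmLaw β Q) = 0 :=
  lintegral_S_neg hβ hB hmem (cls_one (B := B) (Q := Q)) (F := fun _ => 1) rfl ht

lemma ae_S_neg {t : ℝ} (ht : t < 0) :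
    ∀ᵐ ω ∂(bbmLaw β Q), S B t ω (fun _ => 1) = 0 := by
  have hm : Measurable fun ω : Om E => S B t ω fun _ => 1 :=
    (measurable_S hB measurable_const).comp measurable_prodMk_left
  have := (lintegral_eq_zero_iff hm).1 (mean_one_neg (Q := Q) hβ hB hmem ht)
  exact this

lemma ae_S_lt_top (t : ℝ) :
    ∀ᵐ ω ∂(bbmLaw β Q), S B t ω (fun _ => 1) < ⊤ := by
  by_cases ht : t < 0
  · filter_upwards [ae_S_neg (Q := Q) hβ hB hmem ht] with ω hω
    rw [hω]; exact ENNReal.zero_lt_top
  · have hm : Measurable fun ω : Om E => S B t ω fun _ => 1 :=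
      (measurable_S hB measurable_const).comp measurable_prodMk_left
    refine ae_lt_top hm ?_
    rw [mean_one hβ hB hmem (not_lt.1 ht)]
    exact ENNReal.ofReal_ne_top


lemma N2 (k : ℕ) : ∀ t : ℝ, ∫⁻ ω, (Sle B k t ω fun _ => 1) ^ 2 ∂(bbmLaw β Q) ≤
    if t < 0 then 0 else ENNReal.ofReal (2 * Real.exp (2 * β * t)) := by
  classical
  have := isProbabilityMeasure_expMeasure hβ
  have hlaw : bbmLaw β Q = PT ((expMeasure β).prod Q) := rfl
  have hmS : ∀ k t, Measurable fun ω : Om E => Sle B k t ω fun _ => 1 := fun k t =>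
    (measurable_Sle hB measurable_const k).comp measurable_prodMk_left
  have hneg : ∀ k : ℕ, ∀ t : ℝ, t < 0 → ∀ᵐ ω ∂(bbmLaw β Q), (Sle B k t ω fun _ => 1) = 0 := by
    intro k t ht
    filter_upwards [ae_S_neg (Q := Q) hβ hB hmem ht] with ω hω
    exact le_antisymm ((Sle_le_S _ _ _ _).trans hω.le) zero_le
  have hneg2 : ∀ k : ℕ, ∀ t : ℝ, t < 0 →
      ∫⁻ ω, (Sle B k t ω fun _ => 1) ^ 2 ∂(bbmLaw β Q) = 0 := by
    intro k t ht
    rw [lintegral_eq_zero_iff ((hmS k t).pow_const 2)]
    filter_upwards [hneg k t ht] with ω hω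
    simp [hω]
  have hmean : ∀ k : ℕ, ∀ t : ℝ, 0 ≤ t →
      ∫⁻ ω, (Sle B k t ω fun _ => 1) ∂(bbmLaw β Q) ≤ ENNReal.ofReal (Real.exp (β * t)) := by
    intro k t ht
    rw [← mean_one (Q := Q) hβ hB hmem ht]
    exact lintegral_mono fun ω => Sle_le_S _ _ _ _
  induction k with
  | zero =>
    intro t
    split_ifs with ht
    · exact (hneg2 0 t ht).le
    · push Not at ht
      rw [hlaw, lintegral_tree _ ((hmS 0 t).pow_const 2)]
      have h1 : ∀ (m : ℝ × E) (a c : Om E), (Sle B 0 t (asm (m, a, c)) fun _ => 1) ^ 2 ≤ 1 := by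
        intro m a c
        have : Sle B 0 t (asm (m, a, c)) (fun _ => 1) ≤ 1 := by
          unfold Sle
          rw [Finset.sum_range_one, Sg_zero]
          split_ifs
          · exact le_rfl
          · exact zero_le
        exact pow_le_one' this 2
      calc ∫⁻ m, ∫⁻ a, ∫⁻ c, (Sle B 0 t (asm (m, a, c)) fun _ => 1) ^ 2
            ∂(PT ((expMeasure β).prod Q)) ∂(PT ((expMeasure β).prod Q)) ∂((expMeasure β).prod Q)
          ≤ ∫⁻ _m, ∫⁻ _a : Om E, ∫⁻ _c : Om E, 1
            ∂(PT ((expMeasure β).prod Q)) ∂(PT ((expMeasure β).prod Q))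
              ∂((expMeasure β).prod Q) :=
            lintegral_mono fun m => lintegral_mono fun a => lintegral_mono fun c => h1 m a c
        _ = 1 := by simp
        _ ≤ ENNReal.ofReal (2 * Real.exp (2 * β * t)) := by
            rw [← ENNReal.ofReal_one]
            refine ENNReal.ofReal_le_ofReal ?_
            have : 1 ≤ Real.exp (2 * β * t) := Real.one_le_exp (by positivity)
            linarith
  | succ k ih =>
    intro t
    split_ifs with ht
    · exact (hneg2 (k + 1) t ht).le
    push Not at ht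
    rw [hlaw, lintegral_tree _ ((hmS (k + 1) t).pow_const 2)]
    have hin : ∀ x : ℝ, ∀ e : E, 0 < x → ∫⁻ a, ∫⁻ c, (Sle B (k + 1) t (asm ((x, e), a, c))
        fun _ => 1) ^ 2 ∂(PT ((expMeasure β).prod Q)) ∂(PT ((expMeasure β).prod Q)) ≤
        (if 0 ≤ t ∧ t < x then 1 else 0) +
          (if x ≤ t then ENNReal.ofReal (6 * Real.exp (2 * β * (t - x))) else 0) := by
      intro x e hx
      by_cases hxt : x ≤ t
      · rw [if_neg (by intro h; linarith [h.2]), if_pos hxt, zero_add]
        have h1 : ∀ a c : Om E, (Sle B (k + 1) t (asm ((x, e), a, c)) fun _ => 1) ^ 2 =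
            ((Sle B k (t - x) a fun _ => 1) + (Sle B k (t - x) c fun _ => 1)) ^ 2 := by
          intro a c
          rw [Sle_succ, if_neg (by intro h; linarith [h.2]), zero_add]
        simp_rw [h1]
        rw [sq_two _ (hmS k (t - x))]
        have h2 := ih (t - x)
        rw [if_neg (by linarith), hlaw] at h2
        have h3 := hmean k (t - x) (by linarith)
        rw [hlaw] at h3
        calc _ ≤ 2 * ENNReal.ofReal (2 * Real.exp (2 * β * (t - x))) +
              2 * (ENNReal.ofReal (Real.exp (β * (t - x)))) ^ 2 := by gcongr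
          _ = ENNReal.ofReal (6 * Real.exp (2 * β * (t - x))) := by
              rw [← ENNReal.ofReal_pow (Real.exp_pos _).le, ← Real.exp_nat_mul,
                ← ENNReal.ofReal_ofNat, ← ENNReal.ofReal_mul (by norm_num),
                ← ENNReal.ofReal_mul (by norm_num), ← ENNReal.ofReal_add (by positivity)
                (by positivity)]
              congr 1
              have : ((2 : ℕ) : ℝ) * (β * (t - x)) = 2 * β * (t - x) := by push_cast; ring
              rw [this]
              ring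
      · push Not at hxt
        rw [if_pos ⟨ht, hxt⟩, if_neg (not_le.2 hxt), add_zero]
        have h2 := hneg k (t - x) (by linarith)
        rw [hlaw] at h2
        have h3 : ∀ᵐ a ∂(PT ((expMeasure β).prod Q)), ∫⁻ c, (Sle B (k + 1) t
            (asm ((x, e), a, c)) fun _ => 1) ^ 2 ∂(PT ((expMeasure β).prod Q)) = 1 := by
          filter_upwards [h2] with a ha
          have h4 : ∀ᵐ c ∂(PT ((expMeasure β).prod Q)), (Sle B (k + 1) t
              (asm ((x, e), a, c)) fun _ => 1) ^ 2 = 1 := by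
            filter_upwards [h2] with c hc
            rw [Sle_succ, if_pos ⟨ht, hxt⟩]
            simp only [ha, hc, add_zero, one_pow]
          rw [lintegral_congr_ae h4]
          simp
        rw [lintegral_congr_ae h3]
        simp
    have hmeas1 : Measurable fun x : ℝ => (if 0 ≤ t ∧ t < x then (1 : ℝ≥0∞) else 0) :=
      Measurable.ite ((MeasurableSet.const _).inter
          (measurableSet_lt measurable_const measurable_id)) measurable_const measurable_const
    have hmeas : Measurable fun x : ℝ => (if 0 ≤ t ∧ t < x then (1 : ℝ≥0∞) else 0) +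
          (if x ≤ t then ENNReal.ofReal (6 * Real.exp (2 * β * (t - x))) else 0) := by
      refine Measurable.add hmeas1 ?_
      exact Measurable.ite (measurableSet_le measurable_id measurable_const)
          (by fun_prop) measurable_const
    have hpos : ∀ᵐ m ∂((expMeasure β).prod Q), 0 < m.1 :=
      (Measure.quasiMeasurePreserving_fst (μ := expMeasure β) (ν := Q)).ae (exp_ae_pos hβ)
    calc _ ≤ ∫⁻ m, ((if 0 ≤ t ∧ t < m.1 then (1 : ℝ≥0∞) else 0) +
          (if m.1 ≤ t then ENNReal.ofReal (6 * Real.exp (2 * β * (t - m.1))) else 0))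
          ∂((expMeasure β).prod Q) := by
          refine lintegral_mono_ae ?_
          filter_upwards [hpos] with m hm
          exact hin m.1 m.2 hm
      _ = ENNReal.ofReal (Real.exp (-(β * t))) +
          ENNReal.ofReal (2 * Real.exp (2 * β * t) - 2 * Real.exp (-(β * t))) := by
          rw [lintegral_time (expMeasure β) hmeas, lintegral_add_left hmeas1,
            lintegral_exp_gt hβ ht, mul_one,
            lintegral_exp_le hβ ht (by fun_prop) (fun x _ => by positivity), int_A']
          simp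
      _ ≤ ENNReal.ofReal (2 * Real.exp (2 * β * t)) := by
          have h1 : Real.exp (-(β * t)) ≤ 1 := by
            rw [Real.exp_le_one_iff]
            have : 0 ≤ β * t := by positivity
            linarith
          have h2 : 1 ≤ Real.exp (2 * β * t) := Real.one_le_exp (by positivity)
          rw [← ENNReal.ofReal_add (Real.exp_pos _).le (by linarith)]
          refine ENNReal.ofReal_le_ofReal ?_
          linarith [Real.exp_pos (-(β * t))]

/-- Second moment of the number of particles. -/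
theorem second_moment {t : ℝ} (ht : 0 ≤ t) :
    ∫⁻ ω, (S B t ω fun _ => 1) ^ 2 ∂(bbmLaw β Q) ≤
      ENNReal.ofReal (2 * Real.exp (2 * β * t)) := by
  have hmS : ∀ k t, Measurable fun ω : Om E => Sle B k t ω fun _ => 1 := fun k t =>
    (measurable_Sle hB measurable_const k).comp measurable_prodMk_left
  have h1 : ∀ ω : Om E, (S B t ω fun _ => 1) ^ 2 =
      Filter.liminf (fun k => (Sle B k t ω fun _ => 1) ^ 2) Filter.atTop := by
    intro ω
    refine (Filter.Tendsto.liminf_eq ?_).symm
    refine ENNReal.Tendsto.pow ?_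
    rw [S_eq_tsum_Sg]
    exact (ENNReal.tendsto_nat_tsum _).comp (Filter.tendsto_add_atTop_nat 1)
  simp_rw [h1]
  refine (lintegral_liminf_le fun k => (hmS k t).pow_const 2).trans ?_
  refine Filter.liminf_le_of_le (by isBoundedDefault) ?_
  intro b hb
  obtain ⟨k, hk⟩ := hb.exists
  refine hk.trans ((N2 hβ hB hmem k t).trans ?_)
  rw [if_neg (not_lt.2 ht)]

end

end Pool.Agent.Lib.P46005
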