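import Mathlib
import Pool.Agent.Lib.P46005.Second
import Pool.Agent.Lib.P46005.Disk

/-!
# Second moments of the increments
-/

open MeasureTheory ProbabilityTheory
open scoped ComplexConjugate NNReal ENNReal

namespace Pool.Agent.Lib.P46005

variable {E : Type} [MeasurableSpace E] {B : ℝ≥0 → E → ℂ} {Q : Measure E} {β : ℝ}

/-- The normalised sums. -/
noncomputable def X (B : ℝ≥0 → E → ℂ) (β t : ℝ) (ω : Om E) (F : ℂ → ℝ≥0∞) : ℝ :=
  Real.exp (-(β * t)) * (S B t ω F).toReal

omit [MeasurableSpace E] in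
lemma X_nonneg (t : ℝ) (ω : Om E) (F : ℂ → ℝ≥0∞) : 0 ≤ X B β t ω F :=
  mul_nonneg (Real.exp_pos _).le ENNReal.toReal_nonneg

lemma measurable_X (hB : Measurable fun p : ℝ≥0 × E => B p.1 p.2) {F : ℂ → ℝ≥0∞}
    (hF : Measurable F) : Measurable fun p : ℝ × Om E => X B β p.1 p.2 F := by
  unfold X
  exact (by fun_prop : Measurable fun p : ℝ × Om E => Real.exp (-(β * p.1))).mul
    (measurable_S hB hF).ennreal_toReal

omit [MeasurableSpace E] in
lemma S_le_one (hmem : ∀ t e, ‖B t e‖ < 1) {F : ℂ → ℝ≥0∞} (hF : ∀ w, ‖w‖ < 1 → F w ≤ 1)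
    (t : ℝ) (ω : Om E) : S B t ω F ≤ S B t ω fun _ => 1 := by
  classical
  refine ENNReal.tsum_le_tsum fun u => ?_
  split_ifs
  · exact hF _ (norm_pos_lt hmem u t ω)
  · exact le_rfl

/-- Two independent copies of a centred square integrable variable. -/
lemma sq_zero {Ω : Type*} [MeasurableSpace Ω] (P : Measure Ω) [IsProbabilityMeasure P]
    {D : Ω → ℝ} (hD : Measurable D) (h2 : ∫⁻ a, ENNReal.ofReal (D a ^ 2) ∂P ≠ ⊤)
    (h0 : ∫ a, D a ∂P = 0) :
    ∫⁻ a, ∫⁻ c, ENNReal.ofReal ((D a + D c) ^ 2) ∂P ∂P = 2 * ∫⁻ a, ENNReal.ofReal (D a ^ 2) ∂P := by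
  have i2 : Integrable (fun a => D a ^ 2) P := by
    refine ⟨(hD.pow_const 2).aestronglyMeasurable, ?_⟩
    rw [hasFiniteIntegral_iff_ofReal (Filter.Eventually.of_forall fun a => sq_nonneg _)]
    exact lt_top_iff_ne_top.2 h2
  have i1 : Integrable D P := by
    have hmem : MemLp D 2 P := (memLp_two_iff_integrable_sq hD.aestronglyMeasurable).2 i2
    exact hmem.integrable (by norm_num)
  have h3 : ∀ a, ∫⁻ c, ENNReal.ofReal ((D a + D c) ^ 2) ∂P =
      ENNReal.ofReal (D a ^ 2 + ∫ c, D c ^ 2 ∂P) := by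
    intro a
    have e1 : Integrable (fun c => (D a + D c) ^ 2) P := by
      have : (fun c => (D a + D c) ^ 2) = fun c => D a ^ 2 + 2 * D a * D c + D c ^ 2 := by
        funext c; ring
      rw [this]
      exact ((integrable_const _).add (i1.const_mul _)).add i2
    rw [← ofReal_integral_eq_lintegral_ofReal e1 (Filter.Eventually.of_forall fun c => sq_nonneg _)]
    congr 1
    have : (fun c => (D a + D c) ^ 2) = fun c => D a ^ 2 + 2 * D a * D c + D c ^ 2 := by
      funext c; ring
    have j1 : Integrable (fun c => D a ^ 2 + 2 * D a * D c) P :=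
      (integrable_const _).add (i1.const_mul _)
    rw [this, integral_add j1 i2,
      integral_add (integrable_const _) (i1.const_mul (2 * D a)), integral_const_mul, h0]
    simp
  simp_rw [h3]
  have hnn : 0 ≤ ∫ c, D c ^ 2 ∂P := integral_nonneg fun c => sq_nonneg _
  have j2 : Integrable (fun a => D a ^ 2 + ∫ c, D c ^ 2 ∂P) P := i2.add (integrable_const _)
  rw [← ofReal_integral_eq_lintegral_ofReal j2
    (Filter.Eventually.of_forall fun a => add_nonneg (sq_nonneg _) hnn),
    ← ofReal_integral_eq_lintegral_ofReal i2 (Filter.Eventually.of_forall fun a => sq_nonneg _),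
    integral_add i2 (integrable_const _), ← ENNReal.ofReal_ofNat, ← ENNReal.ofReal_mul (by norm_num)]
  congr 1
  simp
  ring

section

variable [IsProbabilityMeasure Q] (hβ : 0 < β) (hB : Measurable fun p : ℝ≥0 × E => B p.1 p.2)
  (hmem : ∀ t e, ‖B t e‖ < 1)

include hβ hB hmem

/-- Second moment on the event that the first branching occurs after time `s`. -/
lemma tail_sq {s t : ℝ} (hs : 0 ≤ s) (hst : s ≤ t) :
    ∫⁻ m, (if s < m.1 then ∫⁻ a, ∫⁻ c, (S B t (asm (m, a, c)) fun _ => 1) ^ 2
      ∂(PT ((expMeasure β).prod Q)) ∂(PT ((expMeasure β).prod Q)) else 0)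
      ∂((expMeasure β).prod Q) ≤ ENNReal.ofReal (2 * Real.exp (2 * β * t - 3 * β * s)) := by
  classical
  have := isProbabilityMeasure_expMeasure hβ
  have hlaw : bbmLaw β Q = PT ((expMeasure β).prod Q) := rfl
  have ht : 0 ≤ t := hs.trans hst
  have hmS : ∀ t, Measurable fun ω : Om E => S B t ω fun _ => 1 := fun t =>
    (measurable_S hB measurable_const).comp measurable_prodMk_left
  have hin : ∀ x : ℝ, ∀ e : E, 0 < x → (if s < x then ∫⁻ a, ∫⁻ c, (S B t (asm ((x, e), a, c))
        fun _ => 1) ^ 2 ∂(PT ((expMeasure β).prod Q)) ∂(PT ((expMeasure β).prod Q)) else 0) ≤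
        (if 0 ≤ t ∧ t < x then 1 else 0) +
          (if s < x ∧ x ≤ t then ENNReal.ofReal (6 * Real.exp (2 * β * (t - x))) else 0) := by
    intro x e hx
    by_cases hsx : s < x
    swap
    · rw [if_neg hsx]; exact zero_le
    rw [if_pos hsx]
    by_cases hxt : x ≤ t
    · rw [if_neg (by intro h; linarith [h.2]), if_pos ⟨hsx, hxt⟩, zero_add]
      have h1 : ∀ a c : Om E, (S B t (asm ((x, e), a, c)) fun _ => 1) ^ 2 =
          ((S B (t - x) a fun _ => 1) + (S B (t - x) c fun _ => 1)) ^ 2 := by
        intro a c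
        rw [S_asm, if_neg (by intro h; linarith [h.2]), zero_add]
      simp_rw [h1]
      rw [sq_two _ (hmS (t - x))]
      have h2 := second_moment (Q := Q) hβ hB hmem (t := t - x) (by linarith)
      have h3 := mean_one (Q := Q) hβ hB hmem (t := t - x) (by linarith)
      rw [hlaw] at h2 h3
      rw [h3]
      calc _ ≤ 2 * ENNReal.ofReal (2 * Real.exp (2 * β * (t - x))) +
            2 * (ENNReal.ofReal (Real.exp (β * (t - x)))) ^ 2 := by gcongr
        _ = ENNReal.ofReal (6 * Real.exp (2 * β * (t - x))) := by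
            rw [← ENNReal.ofReal_pow (Real.exp_pos _).le, ← Real.exp_nat_mul,
              ← ENNReal.ofReal_ofNat, ← ENNReal.ofReal_mul (by norm_num),
              ← ENNReal.ofReal_mul (by norm_num), ← ENNReal.ofReal_add (by positivity)
              (by positivity)]
            congr 1
            have : ((2 : ℕ) : ℝ) * (β * (t - x)) = 2 * β * (t - x) := by push_cast; ring
            rw [this]
            ring
    · push Not at hxt
      rw [if_pos ⟨ht, hxt⟩, if_neg (by intro h; linarith [h.2]), add_zero]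
      have h2 := ae_S_neg (Q := Q) hβ hB hmem (t := t - x) (by linarith)
      rw [hlaw] at h2
      have h3 : ∀ᵐ a ∂(PT ((expMeasure β).prod Q)), ∫⁻ c, (S B t
          (asm ((x, e), a, c)) fun _ => 1) ^ 2 ∂(PT ((expMeasure β).prod Q)) = 1 := by
        filter_upwards [h2] with a ha
        have h4 : ∀ᵐ c ∂(PT ((expMeasure β).prod Q)), (S B t
            (asm ((x, e), a, c)) fun _ => 1) ^ 2 = 1 := by
          filter_upwards [h2] with c hc
          rw [S_asm, if_pos ⟨ht, hxt⟩]
          simp only [ha, hc, add_zero, one_pow]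
        rw [lintegral_congr_ae h4]
        simp
      rw [lintegral_congr_ae h3]
      simp
  have hmeas1 : Measurable fun x : ℝ => (if 0 ≤ t ∧ t < x then (1 : ℝ≥0∞) else 0) :=
    Measurable.ite ((MeasurableSet.const _).inter
        (measurableSet_lt measurable_const measurable_id)) measurable_const measurable_const
  have hmeas : Measurable fun x : ℝ => (if 0 ≤ t ∧ t < x then (1 : ℝ≥0∞) else 0) +
        (if s < x ∧ x ≤ t then ENNReal.ofReal (6 * Real.exp (2 * β * (t - x))) else 0) := by
    refine Measurable.add hmeas1 ?_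
    exact Measurable.ite ((measurableSet_lt measurable_const measurable_id).inter
      (measurableSet_le measurable_id measurable_const)) (by fun_prop) measurable_const
  have hpos : ∀ᵐ m ∂((expMeasure β).prod Q), 0 < m.1 :=
    (Measure.quasiMeasurePreserving_fst (μ := expMeasure β) (ν := Q)).ae (exp_ae_pos hβ)
  calc _ ≤ ∫⁻ m, ((if 0 ≤ t ∧ t < m.1 then (1 : ℝ≥0∞) else 0) +
        (if s < m.1 ∧ m.1 ≤ t then ENNReal.ofReal (6 * Real.exp (2 * β * (t - m.1))) else 0))
        ∂((expMeasure β).prod Q) := by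
        refine lintegral_mono_ae ?_
        filter_upwards [hpos] with m hm
        exact hin m.1 m.2 hm
    _ = ENNReal.ofReal (Real.exp (-(β * t))) +
        ENNReal.ofReal (2 * Real.exp (2 * β * t - 3 * β * s) - 2 * Real.exp (-(β * t))) := by
        rw [lintegral_time (expMeasure β) hmeas, lintegral_add_left hmeas1,
          lintegral_exp_gt hβ ht, mul_one,
          lintegral_exp_Ioc' hβ hs hst (by fun_prop) (fun x _ => by positivity), int_A']
    _ ≤ ENNReal.ofReal (2 * Real.exp (2 * β * t - 3 * β * s)) := by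
        have h1 : Real.exp (-(β * t)) ≤ Real.exp (2 * β * t - 3 * β * s) := by
          refine Real.exp_le_exp.2 ?_
          have : β * s ≤ β * t := mul_le_mul_of_nonneg_left hst hβ.le
          linarith
        rw [← ENNReal.ofReal_add (Real.exp_pos _).le (by linarith)]
        refine ENNReal.ofReal_le_ofReal ?_
        linarith [Real.exp_pos (-(β * t))]

end

end Pool.Agent.Lib.P46005
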