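import Mathlib
import Pool.Agent.Lib.P46005.Diff

/-!
# Exponential bound on the increments
-/

open MeasureTheory ProbabilityTheory
open scoped ComplexConjugate NNReal ENNReal

namespace Pool.Agent.Lib.P46005

variable {E : Type} [MeasurableSpace E] {B : ℝ≥0 → E → ℂ} {Q : Measure E} {β : ℝ}

lemma int_B (β s : ℝ) (hβ : 0 < β) (hs : 0 ≤ s) (n : ℕ) :
    ∫ x in (0 : ℝ)..s, β * Real.exp (-(β * x)) * (2 * Real.exp (-(2 * β * x)) *
      (6 * Real.exp (-(β * (s - x))) + 8 * (2 * β * (s - x)) ^ n / n.factorial)) ≤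
    6 * Real.exp (-(β * s)) - 6 * Real.exp (-(3 * β * s)) +
      8 * (2 * β * s) ^ (n + 1) / (n + 1).factorial := by
  have h1 : ∀ x ∈ Set.uIcc 0 s, HasDerivAt (fun x : ℝ =>
      -6 * (Real.exp (-(β * s)) * Real.exp (-(2 * β * x))) -
        8 * (2 * β * (s - x)) ^ (n + 1) / (n + 1).factorial)
      (12 * β * (Real.exp (-(β * s)) * Real.exp (-(2 * β * x))) +
        16 * β * (2 * β * (s - x)) ^ n / n.factorial) x := by
    intro x _
    have e1 : HasDerivAt (fun x : ℝ => -(2 * β * x)) (-(2 * β)) x := by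
      have := ((hasDerivAt_id x).const_mul (2 * β)).neg
      rw [mul_one] at this
      exact this
    have e2 := (e1.exp.const_mul (Real.exp (-(β * s)))).const_mul (-6)
    have e3 : HasDerivAt (fun x : ℝ => 2 * β * (s - x)) (2 * β * (-1)) x :=
      ((hasDerivAt_id x).const_sub s).const_mul (2 * β)
    have e4 := ((e3.pow (n + 1)).const_mul 8).div_const ((n + 1).factorial : ℝ)
    refine (e2.sub e4).congr_deriv ?_
    have e5 : ((n + 1).factorial : ℝ) = (n + 1) * n.factorial := by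
      rw [Nat.factorial_succ]; push_cast; ring
    have e6 : (n.factorial : ℝ) ≠ 0 := by positivity
    have e7 : (n : ℝ) + 1 ≠ 0 := by positivity
    rw [e5, Nat.add_sub_cancel]
    push_cast
    field_simp
    ring
  have h2 := intervalIntegral.integral_eq_sub_of_hasDerivAt h1
    (Continuous.intervalIntegrable (by fun_prop) _ _)
  have h3 : 6 * Real.exp (-(β * s)) - 6 * Real.exp (-(3 * β * s)) +
      8 * (2 * β * s) ^ (n + 1) / (n + 1).factorial =
      ∫ x in (0 : ℝ)..s, (12 * β * (Real.exp (-(β * s)) * Real.exp (-(2 * β * x))) +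
        16 * β * (2 * β * (s - x)) ^ n / n.factorial) := by
    rw [h2]
    have : Real.exp (-(3 * β * s)) = Real.exp (-(β * s)) * Real.exp (-(2 * β * s)) := by
      rw [← Real.exp_add]; congr 1; ring
    rw [this]
    simp
    ring
  rw [h3]
  refine intervalIntegral.integral_mono_on hs (Continuous.intervalIntegrable (by fun_prop) _ _)
    (Continuous.intervalIntegrable (by fun_prop) _ _) ?_
  intro x hx
  have hx0 : 0 ≤ x := hx.1
  have hsx : 0 ≤ s - x := by linarith [hx.2]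
  have e1 : Real.exp (-(β * x)) * Real.exp (-(2 * β * x)) * Real.exp (-(β * (s - x))) =
      Real.exp (-(β * s)) * Real.exp (-(2 * β * x)) := by
    rw [← Real.exp_add, ← Real.exp_add, ← Real.exp_add]; congr 1; ring
  have e2 : Real.exp (-(β * x)) * Real.exp (-(2 * β * x)) ≤ 1 := by
    rw [← Real.exp_add, Real.exp_le_one_iff]
    have : 0 ≤ β * x := by positivity
    linarith
  have e3 : 0 ≤ 16 * β * ((2 * β * (s - x)) ^ n / n.factorial) := by positivity
  calc β * Real.exp (-(β * x)) * (2 * Real.exp (-(2 * β * x)) *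
      (6 * Real.exp (-(β * (s - x))) + 8 * (2 * β * (s - x)) ^ n / n.factorial))
      = 12 * β * (Real.exp (-(β * x)) * Real.exp (-(2 * β * x)) * Real.exp (-(β * (s - x)))) +
        (Real.exp (-(β * x)) * Real.exp (-(2 * β * x))) *
          (16 * β * ((2 * β * (s - x)) ^ n / n.factorial)) := by ring
    _ ≤ 12 * β * (Real.exp (-(β * s)) * Real.exp (-(2 * β * x))) +
        1 * (16 * β * ((2 * β * (s - x)) ^ n / n.factorial)) := by
        rw [e1]
        exact add_le_add le_rfl (mul_le_mul_of_nonneg_right e2 e3)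
    _ = _ := by ring

lemma early_aux {Ω : Type*} [MeasurableSpace Ω] (P : Measure Ω) [IsProbabilityMeasure P]
    {D : Ω → ℝ} (hD : Measurable D) {Y : Ω → Ω → ℝ} {k v : ℝ} (hv : 0 ≤ v)
    (hY : ∀ᵐ a ∂P, ∀ᵐ c ∂P, Y a c = k * (D a + D c)) (h0 : ∫ a, D a ∂P = 0)
    (hV : ∫⁻ a, ENNReal.ofReal (D a ^ 2) ∂P ≤ ENNReal.ofReal v) :
    ∫⁻ a, ∫⁻ c, ENNReal.ofReal (Y a c ^ 2) ∂P ∂P ≤ ENNReal.ofReal (2 * k ^ 2 * v) := by
  have heq : ∫⁻ a, ∫⁻ c, ENNReal.ofReal (Y a c ^ 2) ∂P ∂P =
      ∫⁻ a, ∫⁻ c, ENNReal.ofReal (k ^ 2) * ENNReal.ofReal ((D a + D c) ^ 2) ∂P ∂P := by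
    refine lintegral_congr_ae ?_
    filter_upwards [hY] with a ha
    refine lintegral_congr_ae ?_
    filter_upwards [ha] with c hc
    rw [hc, ← ENNReal.ofReal_mul (sq_nonneg _), mul_pow]
  have hm2 : Measurable fun p : Ω × Ω => ENNReal.ofReal ((D p.1 + D p.2) ^ 2) :=
    (((hD.comp measurable_fst).add (hD.comp measurable_snd)).pow_const 2).ennreal_ofReal
  have hm3 : Measurable fun a => ∫⁻ c, ENNReal.ofReal ((D a + D c) ^ 2) ∂P :=
    hm2.lintegral_prod_right'
  have h3 : ∀ a, ∫⁻ c, ENNReal.ofReal (k ^ 2) * ENNReal.ofReal ((D a + D c) ^ 2) ∂P =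
      ENNReal.ofReal (k ^ 2) * ∫⁻ c, ENNReal.ofReal ((D a + D c) ^ 2) ∂P := fun a =>
    lintegral_const_mul _ (hm2.comp measurable_prodMk_left)
  rw [heq]
  simp_rw [h3]
  rw [lintegral_const_mul _ hm3, sq_zero _ hD (ne_top_of_le_ne_top ENNReal.ofReal_ne_top hV) h0]
  calc ENNReal.ofReal (k ^ 2) * (2 * ∫⁻ a, ENNReal.ofReal (D a ^ 2) ∂P)
      ≤ ENNReal.ofReal (k ^ 2) * (2 * ENNReal.ofReal v) := by gcongr
    _ = ENNReal.ofReal (2 * k ^ 2 * v) := by
        rw [← ENNReal.ofReal_ofNat, ← ENNReal.ofReal_mul (by norm_num),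
          ← ENNReal.ofReal_mul (sq_nonneg _)]
        congr 1
        ring

lemma late_aux {Ω : Type*} [MeasurableSpace Ω] (P : Measure Ω) [SFinite P]
    {Y U W : Ω × Ω → ℝ≥0∞} {k l : ℝ≥0∞} (hU : Measurable U) (hW : Measurable W)
    (h : ∀ p, Y p ≤ k * U p + l * W p) :
    ∫⁻ a, ∫⁻ c, Y (a, c) ∂P ∂P ≤ k * ∫⁻ a, ∫⁻ c, U (a, c) ∂P ∂P + l * ∫⁻ a, ∫⁻ c, W (a, c) ∂P ∂P := by
  have h4 : ∀ (V : Ω × Ω → ℝ≥0∞) (_ : Measurable V) (r : ℝ≥0∞),
      r * ∫⁻ a, ∫⁻ c, V (a, c) ∂P ∂P = ∫⁻ a, ∫⁻ c, r * V (a, c) ∂P ∂P := by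
    intro V hV r
    have h5 : Measurable fun a => ∫⁻ c, V (a, c) ∂P := hV.lintegral_prod_right'
    rw [← lintegral_const_mul _ h5]
    refine lintegral_congr fun a => ?_
    have h6 : Measurable fun c => V (a, c) := hV.comp measurable_prodMk_left
    rw [lintegral_const_mul _ h6]
  have hm : Measurable fun a => ∫⁻ c, k * U (a, c) ∂P :=
    (hU.const_mul k).lintegral_prod_right'
  rw [h4 U hU k, h4 W hW l, ← lintegral_add_left hm]
  refine lintegral_mono fun a => ?_
  have hm' : Measurable fun c => k * U (a, c) := (hU.comp measurable_prodMk_left).const_mul k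
  rw [← lintegral_add_left hm']
  exact lintegral_mono fun c => h (a, c)

/-- A class of test functions bounded by one on the disk. -/
structure Cls1 (B : ℝ≥0 → E → ℂ) (Q : Measure E) (H : Set (ℂ → ℝ≥0∞)) : Prop
    extends Cls B Q 0 H where
  le_one : ∀ F ∈ H, ∀ w : ℂ, ‖w‖ < 1 → F w ≤ 1

section

variable [IsProbabilityMeasure Q] (hβ : 0 < β) (hB : Measurable fun p : ℝ≥0 × E => B p.1 p.2)
  (hmem : ∀ t e, ‖B t e‖ < 1) {H : Set (ℂ → ℝ≥0∞)} (hH : Cls1 B Q H)

include hβ hB hmem hH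

lemma ae_S_lt_top' {F : ℂ → ℝ≥0∞} (hF : F ∈ H) (t : ℝ) :
    ∀ᵐ ω ∂(bbmLaw β Q), S B t ω F < ⊤ := by
  filter_upwards [ae_S_lt_top (Q := Q) hβ hB hmem t] with ω hω
  exact (S_le_one hmem (hH.le_one F hF) t ω).trans_lt hω

lemma integrable_X {F : ℂ → ℝ≥0∞} (hF : F ∈ H) {t : ℝ} (ht : 0 ≤ t) :
    Integrable (fun ω => X B β t ω F) (bbmLaw β Q) := by
  refine Integrable.const_mul ?_ _
  refine integrable_toReal_of_lintegral_ne_top
    ((measurable_S hB (hH.meas F hF)).comp measurable_prodMk_left).aemeasurable ?_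
  rw [lintegral_S hβ hB hmem hH.toCls hF ht]
  refine ENNReal.mul_ne_top ENNReal.ofReal_ne_top ?_
  exact ((hH.le_one F hF 0 (by simp)).trans_lt ENNReal.one_lt_top).ne

lemma integral_X {F : ℂ → ℝ≥0∞} (hF : F ∈ H) {t : ℝ} (ht : 0 ≤ t) :
    ∫ ω, X B β t ω F ∂(bbmLaw β Q) = (F 0).toReal := by
  unfold X
  have hm : Measurable fun ω : Om E => S B t ω F :=
    (measurable_S hB (hH.meas F hF)).comp measurable_prodMk_left
  rw [integral_const_mul, integral_toReal hm.aemeasurable (ae_S_lt_top' hβ hB hmem hH hF t), lintegral_S hβ hB hmem hH.toCls hF ht, ENNReal.toReal_mul,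
    ENNReal.toReal_ofReal (Real.exp_pos _).le, add_zero, ← mul_assoc, ← Real.exp_add]
  simp

lemma X_sq_le {F : ℂ → ℝ≥0∞} (hF : F ∈ H) (t : ℝ) (ω : Om E) :
    ENNReal.ofReal (X B β t ω F ^ 2) ≤
      ENNReal.ofReal (Real.exp (-(2 * β * t))) * (S B t ω fun _ => 1) ^ 2 := by
  have h1 : X B β t ω F ^ 2 = Real.exp (-(2 * β * t)) * (S B t ω F).toReal ^ 2 := by
    unfold X
    rw [mul_pow, ← Real.exp_nat_mul]
    congr 2
    push_cast
    ring
  rw [h1, ENNReal.ofReal_mul (Real.exp_pos _).le, ENNReal.ofReal_pow ENNReal.toReal_nonneg]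
  gcongr
  exact ENNReal.ofReal_toReal_le.trans (S_le_one hmem (hH.le_one F hF) t ω)

lemma sq_diff_le {F : ℂ → ℝ≥0∞} (hF : F ∈ H) (s t : ℝ) (ω : Om E) :
    ENNReal.ofReal ((X B β t ω F - X B β s ω F) ^ 2) ≤
      ENNReal.ofReal (Real.exp (-(2 * β * t))) * (S B t ω fun _ => 1) ^ 2 +
      ENNReal.ofReal (Real.exp (-(2 * β * s))) * (S B s ω fun _ => 1) ^ 2 := by
  refine le_trans ?_ (add_le_add (X_sq_le hβ hB hmem hH hF t ω) (X_sq_le hβ hB hmem hH hF s ω))
  rw [← ENNReal.ofReal_add (sq_nonneg _) (sq_nonneg _)]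
  refine ENNReal.ofReal_le_ofReal ?_
  have h1 := X_nonneg (B := B) (β := β) t ω F
  have h2 := X_nonneg (B := B) (β := β) s ω F
  nlinarith [mul_nonneg h1 h2]

/-- The increments. -/
lemma V_base {F : ℂ → ℝ≥0∞} (hF : F ∈ H) {s t : ℝ} (hs : 0 ≤ s) (ht : 0 ≤ t) :
    ∫⁻ ω, ENNReal.ofReal ((X B β t ω F - X B β s ω F) ^ 2) ∂(bbmLaw β Q) ≤ 4 := by
  have hmS : ∀ t, Measurable fun ω : Om E => (S B t ω fun _ => 1) ^ 2 := fun t =>
    ((measurable_S hB measurable_const).comp measurable_prodMk_left).pow_const 2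
  have h1 : ∀ t : ℝ, 0 ≤ t → ENNReal.ofReal (Real.exp (-(2 * β * t))) *
      ∫⁻ ω, (S B t ω fun _ => 1) ^ 2 ∂(bbmLaw β Q) ≤ 2 := by
    intro t ht
    calc _ ≤ ENNReal.ofReal (Real.exp (-(2 * β * t))) *
          ENNReal.ofReal (2 * Real.exp (2 * β * t)) := by
          gcongr
          exact second_moment hβ hB hmem ht
      _ = 2 := by
          rw [← ENNReal.ofReal_mul (Real.exp_pos _).le, mul_left_comm, ← Real.exp_add]
          simp
  calc _ ≤ ∫⁻ ω, (ENNReal.ofReal (Real.exp (-(2 * β * t))) * (S B t ω fun _ => 1) ^ 2 +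
      ENNReal.ofReal (Real.exp (-(2 * β * s))) * (S B s ω fun _ => 1) ^ 2) ∂(bbmLaw β Q) :=
        lintegral_mono fun ω => sq_diff_le hβ hB hmem hH hF s t ω
    _ ≤ 2 + 2 := by
        rw [lintegral_add_left ((hmS t).const_mul _), lintegral_const_mul _ (hmS t),
          lintegral_const_mul _ (hmS s)]
        exact add_le_add (h1 t ht) (h1 s hs)
    _ = 4 := by norm_num

/-- The case of an early branching. -/
lemma early {F : ℂ → ℝ≥0∞} (hF : F ∈ H) {s t x v : ℝ} (e : E) (hxs : x ≤ s)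
    (hst : s ≤ t) (hv : 0 ≤ v) (hV : ∀ G ∈ H, ∫⁻ ω, ENNReal.ofReal
      ((X B β (t - x) ω G - X B β (s - x) ω G) ^ 2) ∂(bbmLaw β Q) ≤ ENNReal.ofReal v) :
    ∫⁻ a, ∫⁻ c, ENNReal.ofReal
        ((X B β t (asm ((x, e), a, c)) F - X B β s (asm ((x, e), a, c)) F) ^ 2)
        ∂(PT ((expMeasure β).prod Q)) ∂(PT ((expMeasure β).prod Q)) ≤
      ENNReal.ofReal (2 * Real.exp (-(2 * β * x)) * v) := by
  have := isProbabilityMeasure_expMeasure hβ
  have hlaw : bbmLaw β Q = PT ((expMeasure β).prod Q) := rfl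
  have hmX : ∀ (G : ℂ → ℝ≥0∞), Measurable G → ∀ r, Measurable fun ω : Om E => X B β r ω G :=
    fun G hG r => (measurable_X hB hG).comp measurable_prodMk_left
  obtain ⟨G, hG⟩ : ∃ G : ℂ → ℝ≥0∞, G = fun w => F (moveTo (B x.toNNReal e) w) := ⟨_, rfl⟩
  have hGH : G ∈ H := by rw [hG]; exact hH.closed F hF _ (hmem _ _)
  have hGm := hH.meas G hGH
  have hV' := hV G hGH
  rw [hlaw] at hV'
  have hDm : Measurable fun a : Om E => X B β (t - x) a G - X B β (s - x) a G :=
    (hmX G hGm _).sub (hmX G hGm _)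
  have h0 : ∫ a, (X B β (t - x) a G - X B β (s - x) a G) ∂(PT ((expMeasure β).prod Q)) = 0 := by
    rw [← hlaw, integral_sub (integrable_X hβ hB hmem hH hGH (by linarith))
      (integrable_X hβ hB hmem hH hGH (by linarith)),
      integral_X hβ hB hmem hH hGH (by linarith), integral_X hβ hB hmem hH hGH (by linarith),
      sub_self]
  have hX : ∀ r : ℝ, s ≤ r → ∀ a c : Om E, S B (r - x) a G < ⊤ → S B (r - x) c G < ⊤ →
      X B β r (asm ((x, e), a, c)) F =
        Real.exp (-(β * x)) * (X B β (r - x) a G + X B β (r - x) c G) := by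
    intro r hr a c ha hc
    unfold X
    rw [S_asm, if_neg (by intro h; linarith [h.2]), zero_add, ← hG,
      ENNReal.toReal_add ha.ne hc.ne]
    have : Real.exp (-(β * r)) = Real.exp (-(β * x)) * Real.exp (-(β * (r - x))) := by
      rw [← Real.exp_add]; congr 1; ring
    rw [this]
    ring
  have hfin : ∀ r : ℝ, ∀ᵐ a ∂(PT ((expMeasure β).prod Q)), S B r a G < ⊤ := fun r => by
    rw [← hlaw]; exact ae_S_lt_top' hβ hB hmem hH hGH r
  have hk : Real.exp (-(2 * β * x)) = Real.exp (-(β * x)) ^ 2 := by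
    rw [← Real.exp_nat_mul]; congr 1; push_cast; ring
  rw [hk]
  refine early_aux (PT ((expMeasure β).prod Q)) hDm (Y := fun a c =>
    X B β t (asm ((x, e), a, c)) F - X B β s (asm ((x, e), a, c)) F) hv ?_ h0 hV'
  filter_upwards [hfin (t - x), hfin (s - x)] with a ha1 ha2
  filter_upwards [hfin (t - x), hfin (s - x)] with c hc1 hc2
  rw [hX t hst a c ha1 hc1, hX s le_rfl a c ha2 hc2]
  ring

/-- The case of a late branching. -/
lemma late {F : ℂ → ℝ≥0∞} (hF : F ∈ H) (s t : ℝ) (m : ℝ × E) :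
    ∫⁻ a, ∫⁻ c, ENNReal.ofReal
        ((X B β t (asm (m, a, c)) F - X B β s (asm (m, a, c)) F) ^ 2)
        ∂(PT ((expMeasure β).prod Q)) ∂(PT ((expMeasure β).prod Q)) ≤
      ENNReal.ofReal (Real.exp (-(2 * β * t))) *
          (∫⁻ a, ∫⁻ c, (S B t (asm (m, a, c)) fun _ => 1) ^ 2
            ∂(PT ((expMeasure β).prod Q)) ∂(PT ((expMeasure β).prod Q))) +
        ENNReal.ofReal (Real.exp (-(2 * β * s))) *
          (∫⁻ a, ∫⁻ c, (S B s (asm (m, a, c)) fun _ => 1) ^ 2
            ∂(PT ((expMeasure β).prod Q)) ∂(PT ((expMeasure β).prod Q))) := by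
  have := isProbabilityMeasure_expMeasure hβ
  have hmSq : ∀ r, Measurable fun p : Om E × Om E =>
      (S B r (asm (m, p.1, p.2)) fun _ => 1) ^ 2 := by
    intro r
    have h1 : Measurable fun p : Om E × Om E => (r, asm (m, p.1, p.2)) :=
      measurable_const.prodMk (measurable_asm.comp (measurable_const.prodMk measurable_id))
    have h2 : Measurable fun q : ℝ × Om E => S B q.1 q.2 fun _ => 1 :=
      measurable_S hB measurable_const
    exact (h2.comp h1).pow_const 2
  exact late_aux (PT ((expMeasure β).prod Q)) (Y := fun p => ENNReal.ofReal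
        ((X B β t (asm (m, p.1, p.2)) F - X B β s (asm (m, p.1, p.2)) F) ^ 2))
        (hmSq t) (hmSq s) fun p => sq_diff_le hβ hB hmem hH hF s t _

lemma measurable_inner (r : ℝ) : Measurable fun m : ℝ × E =>
    ∫⁻ a, ∫⁻ c, (S B r (asm (m, a, c)) fun _ => 1) ^ 2
            ∂(PT ((expMeasure β).prod Q)) ∂(PT ((expMeasure β).prod Q)) := by
  have := isProbabilityMeasure_expMeasure hβ
  have h0 : Measurable fun p : ((ℝ × E) × Om E) × Om E => (r, asm (p.1.1, p.1.2, p.2)) :=
    measurable_const.prodMk (measurable_asm.comp ((measurable_fst.comp measurable_fst).prodMk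
        ((measurable_snd.comp measurable_fst).prodMk measurable_snd)))
  have h2 : Measurable fun q : ℝ × Om E => S B q.1 q.2 fun _ => 1 :=
    measurable_S hB measurable_const
  have h5 : Measurable fun p : ((ℝ × E) × Om E) × Om E =>
      (S B r (asm (p.1.1, p.1.2, p.2)) fun _ => 1) ^ 2 := (h2.comp h0).pow_const 2
  have h6 : Measurable fun p : (ℝ × E) × Om E => ∫⁻ c, (S B r (asm (p.1, p.2, c)) fun _ => 1) ^ 2
      ∂(PT ((expMeasure β).prod Q)) := h5.lintegral_prod_right'
  exact h6.lintegral_prod_right'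

theorem V_le (n : ℕ) : ∀ F ∈ H, ∀ s t : ℝ, 0 ≤ s → s ≤ t →
    ∫⁻ ω, ENNReal.ofReal ((X B β t ω F - X B β s ω F) ^ 2) ∂(bbmLaw β Q) ≤
      ENNReal.ofReal (6 * Real.exp (-(β * s)) + 8 * (2 * β * s) ^ n / n.factorial) := by
  have := isProbabilityMeasure_expMeasure hβ
  have hlaw : bbmLaw β Q = PT ((expMeasure β).prod Q) := rfl
  induction n with
  | zero =>
    intro F hF s t hs hst
    refine (V_base hβ hB hmem hH hF hs (hs.trans hst)).trans ?_
    rw [← ENNReal.ofReal_ofNat]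
    refine ENNReal.ofReal_le_ofReal ?_
    have := Real.exp_pos (-(β * s))
    simp
    linarith
  | succ n ih =>
    intro F hF s t hs hst
    have ht : 0 ≤ t := hs.trans hst
    have hmX : ∀ (G : ℂ → ℝ≥0∞), Measurable G → ∀ r, Measurable fun ω : Om E => X B β r ω G :=
      fun G hG r => (measurable_X hB hG).comp measurable_prodMk_left
    have hFm := hH.meas F hF
    have hmeas : Measurable fun ω : Om E => ENNReal.ofReal ((X B β t ω F - X B β s ω F) ^ 2) :=
      (((hmX F hFm t).sub (hmX F hFm s)).pow_const 2).ennreal_ofReal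
    rw [hlaw, lintegral_tree _ hmeas]
    -- bound of the inner integral
    have hin : ∀ m : ℝ × E, 0 < m.1 → ∫⁻ a, ∫⁻ c, ENNReal.ofReal
        ((X B β t (asm (m, a, c)) F - X B β s (asm (m, a, c)) F) ^ 2)
        ∂(PT ((expMeasure β).prod Q)) ∂(PT ((expMeasure β).prod Q)) ≤
        (if m.1 ≤ s then ENNReal.ofReal (2 * Real.exp (-(2 * β * m.1)) *
          (6 * Real.exp (-(β * (s - m.1))) + 8 * (2 * β * (s - m.1)) ^ n / n.factorial)) else 0) +
        (ENNReal.ofReal (Real.exp (-(2 * β * t))) *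
          (if s < m.1 then ∫⁻ a, ∫⁻ c, (S B t (asm (m, a, c)) fun _ => 1) ^ 2
            ∂(PT ((expMeasure β).prod Q)) ∂(PT ((expMeasure β).prod Q)) else 0) +
        ENNReal.ofReal (Real.exp (-(2 * β * s))) *
          (if s < m.1 then ∫⁻ a, ∫⁻ c, (S B s (asm (m, a, c)) fun _ => 1) ^ 2
            ∂(PT ((expMeasure β).prod Q)) ∂(PT ((expMeasure β).prod Q)) else 0)) := by
      rintro ⟨x, e⟩ hx
      simp only at hx ⊢
      by_cases hxs : x ≤ s
      · rw [if_pos hxs]
        have hsx : 0 ≤ s - x := by linarith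
        refine le_trans ?_ le_self_add
        exact early hβ hB hmem hH hF e hxs hst (by positivity)
          fun G hG => ih G hG (s - x) (t - x) (by linarith) (by linarith)
      · push Not at hxs
        rw [if_neg (not_le.2 hxs), if_pos hxs, if_pos hxs, zero_add]
        exact late hβ hB hmem hH hF s t (x, e)
    have hpos : ∀ᵐ m ∂((expMeasure β).prod Q), 0 < m.1 :=
      (Measure.quasiMeasurePreserving_fst (μ := expMeasure β) (ν := Q)).ae (exp_ae_pos hβ)
    have hmb : Measurable fun x : ℝ => (if x ≤ s then ENNReal.ofReal (2 * Real.exp (-(2 * β * x)) *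
          (6 * Real.exp (-(β * (s - x))) + 8 * (2 * β * (s - x)) ^ n / n.factorial)) else 0) :=
      Measurable.ite (measurableSet_le measurable_id measurable_const) (by fun_prop)
        measurable_const
    have hmt : ∀ r, Measurable fun m : ℝ × E => (if s < m.1 then
        ∫⁻ a, ∫⁻ c, (S B r (asm (m, a, c)) fun _ => 1) ^ 2
            ∂(PT ((expMeasure β).prod Q)) ∂(PT ((expMeasure β).prod Q)) else 0) := fun r =>
      Measurable.ite (measurableSet_lt measurable_const measurable_fst)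
        (measurable_inner hβ hB hmem hH r) measurable_const
    have hmb' : Measurable fun m : ℝ × E => (if m.1 ≤ s then
        ENNReal.ofReal (2 * Real.exp (-(2 * β * m.1)) *
          (6 * Real.exp (-(β * (s - m.1))) + 8 * (2 * β * (s - m.1)) ^ n / n.factorial)) else 0) :=
      hmb.comp measurable_fst
    refine (lintegral_mono_ae (hpos.mono hin)).trans ?_
    rw [lintegral_add_left hmb',
      lintegral_add_left ((hmt t).const_mul _), lintegral_const_mul _ (hmt t),
      lintegral_const_mul _ (hmt s), lintegral_time (expMeasure β) hmb,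
      lintegral_exp_le hβ hs (by fun_prop)
        (fun x hx => by have : 0 ≤ s - x := by linarith [hx.2]
                        positivity)]
    have k1 : Real.exp (-(2 * β * t)) * (2 * Real.exp (2 * β * t - 3 * β * s)) =
        2 * Real.exp (-(3 * β * s)) := by
      rw [mul_left_comm, ← Real.exp_add]; congr 2; ring
    have k2 : Real.exp (-(2 * β * s)) * (2 * Real.exp (2 * β * s - 3 * β * s)) =
        2 * Real.exp (-(3 * β * s)) := by
      rw [mul_left_comm, ← Real.exp_add]; congr 2; ring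
    have k3 : Real.exp (-(3 * β * s)) ≤ Real.exp (-(β * s)) := by
      refine Real.exp_le_exp.2 ?_
      have : 0 ≤ β * s := by positivity
      linarith
    have k4 : 0 ≤ 8 * (2 * β * s) ^ (n + 1) / (n + 1).factorial := by positivity
    calc _ ≤ ENNReal.ofReal (6 * Real.exp (-(β * s)) - 6 * Real.exp (-(3 * β * s)) +
            8 * (2 * β * s) ^ (n + 1) / (n + 1).factorial) +
          (ENNReal.ofReal (Real.exp (-(2 * β * t))) *
            ENNReal.ofReal (2 * Real.exp (2 * β * t - 3 * β * s)) +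
          ENNReal.ofReal (Real.exp (-(2 * β * s))) *
            ENNReal.ofReal (2 * Real.exp (2 * β * s - 3 * β * s))) := by
          refine add_le_add (ENNReal.ofReal_le_ofReal (int_B β s hβ hs n)) (add_le_add ?_ ?_)
          · exact mul_le_mul_right (tail_sq hβ hB hmem hs hst) _
          · exact mul_le_mul_right (tail_sq hβ hB hmem hs le_rfl) _
      _ ≤ _ := by
          rw [← ENNReal.ofReal_mul (Real.exp_pos _).le, ← ENNReal.ofReal_mul (Real.exp_pos _).le,
            k1, k2, ← ENNReal.ofReal_add (by positivity) (by positivity),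
            ← ENNReal.ofReal_add (by linarith) (by positivity)]
          refine ENNReal.ofReal_le_ofReal ?_
          linarith [Real.exp_pos (-(3 * β * s))]

/-- Exponential bound on the increments. -/
theorem V_exp {F : ℂ → ℝ≥0∞} (hF : F ∈ H) {s t : ℝ} (hs : 0 ≤ s) (hst : s ≤ t) :
    ∫⁻ ω, ENNReal.ofReal ((X B β t ω F - X B β s ω F) ^ 2) ∂(bbmLaw β Q) ≤
      ENNReal.ofReal (6 * Real.exp (-(β * s))) := by
  have h1 : Filter.Tendsto (fun n : ℕ => ENNReal.ofReal (6 * Real.exp (-(β * s)) +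
      8 * (2 * β * s) ^ n / n.factorial)) Filter.atTop
      (nhds (ENNReal.ofReal (6 * Real.exp (-(β * s)) + 8 * 0))) := by
    refine ENNReal.tendsto_ofReal (Filter.Tendsto.const_add _ ?_)
    have h2 := (FloorSemiring.tendsto_pow_div_factorial_atTop (2 * β * s)).const_mul 8
    refine h2.congr fun n => ?_
    ring
  rw [mul_zero, add_zero] at h1
  exact ge_of_tendsto' h1 fun n => V_le hβ hB hmem hH n F hF s t hs hst

end

end Pool.Agent.Lib.P46005
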