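import Mathlib
import Pool.Agent.Lib.P46005.Incr

/-!
# Almost sure convergence
-/

open MeasureTheory ProbabilityTheory Filter
open scoped ComplexConjugate NNReal ENNReal Topology

namespace Pool.Agent.Lib.P46005

/-- Summability of a sequence of variables with exponentially small second moments. -/
lemma ae_summable {Ω : Type*} [MeasurableSpace Ω] (P : Measure Ω) [IsProbabilityMeasure P]
    {Y : ℕ → Ω → ℝ} (hY : ∀ n, Measurable (Y n)) {β C : ℝ} (hβ : 0 < β) (hC : 0 ≤ C)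
    (h : ∀ n, ∫⁻ ω, ENNReal.ofReal (Y n ω ^ 2) ∂P ≤ ENNReal.ofReal (C * Real.exp (-(β * n)))) :
    ∀ᵐ ω ∂P, Summable fun n => |Y n ω| := by
  have h1 : ∀ n, ∫⁻ ω, ENNReal.ofReal |Y n ω| ∂P ≤
      ENNReal.ofReal ((1 + C) * Real.exp (-(β / 2)) ^ n) := by
    intro n
    set δ := Real.exp (-(β / 2 * n)) with hδ
    have hδ0 : 0 < δ := Real.exp_pos _
    have hpt : ∀ ω, ENNReal.ofReal |Y n ω| ≤ ENNReal.ofReal δ +
        ENNReal.ofReal (1 / δ) * ENNReal.ofReal (Y n ω ^ 2) := by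
      intro ω
      rw [← ENNReal.ofReal_mul (by positivity), ← ENNReal.ofReal_add hδ0.le (by positivity)]
      refine ENNReal.ofReal_le_ofReal ?_
      rw [← sq_abs, one_div, ← div_eq_inv_mul, ← sub_nonneg]
      have : δ + |Y n ω| ^ 2 / δ - |Y n ω| =
          ((δ - |Y n ω|) ^ 2 + δ * |Y n ω|) / δ := by
        field_simp; ring
      rw [this]
      positivity
    calc ∫⁻ ω, ENNReal.ofReal |Y n ω| ∂P
        ≤ ∫⁻ ω, (ENNReal.ofReal δ + ENNReal.ofReal (1 / δ) * ENNReal.ofReal (Y n ω ^ 2)) ∂P :=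
          lintegral_mono hpt
      _ = ENNReal.ofReal δ + ENNReal.ofReal (1 / δ) * ∫⁻ ω, ENNReal.ofReal (Y n ω ^ 2) ∂P := by
          rw [lintegral_add_left measurable_const, lintegral_const, measure_univ, mul_one,
            lintegral_const_mul _ ((hY n).pow_const 2).ennreal_ofReal]
      _ ≤ ENNReal.ofReal δ + ENNReal.ofReal (1 / δ) *
          ENNReal.ofReal (C * Real.exp (-(β * n))) := by
          gcongr
          exact h n
      _ = ENNReal.ofReal ((1 + C) * Real.exp (-(β / 2)) ^ n) := by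
          rw [← ENNReal.ofReal_mul (by positivity), ← ENNReal.ofReal_add hδ0.le (by positivity)]
          congr 1
          have e1 : Real.exp (-(β * n)) = δ * δ := by
            rw [hδ, ← Real.exp_add]; congr 1; ring
          have e2 : Real.exp (-(β / 2)) ^ n = δ := by
            rw [hδ, ← Real.exp_nat_mul]; congr 1; ring
          rw [e1, e2]
          field_simp
  have h2 : ∫⁻ ω, ∑' n, ENNReal.ofReal |Y n ω| ∂P ≠ ⊤ := by
    rw [lintegral_tsum fun n => ((hY n).abs.ennreal_ofReal).aemeasurable]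
    refine ne_top_of_le_ne_top ?_ (ENNReal.tsum_le_tsum h1)
    have hs : Summable fun n : ℕ => (1 + C) * Real.exp (-(β / 2)) ^ n :=
      (summable_geometric_of_lt_one (Real.exp_pos _).le (by
        rw [Real.exp_lt_one_iff]; linarith)).mul_left _
    rw [← ENNReal.ofReal_tsum_of_nonneg (fun n => by positivity) hs]
    exact ENNReal.ofReal_ne_top
  have h3 : Measurable fun ω => ∑' n, ENNReal.ofReal |Y n ω| :=
    Measurable.tsum fun n => (hY n).abs.ennreal_ofReal
  filter_upwards [ae_lt_top h3 h2] with ω hω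
  have h4 : Summable fun n => (ENNReal.ofReal |Y n ω|).toReal :=
    ENNReal.summable_toReal hω.ne
  refine h4.congr fun n => ?_
  rw [ENNReal.toReal_ofReal (abs_nonneg _)]

variable {E : Type} [MeasurableSpace E] {B : ℝ≥0 → E → ℂ} {Q : Measure E} {β : ℝ}
  [IsProbabilityMeasure Q]

section

variable (hβ : 0 < β) (hB : Measurable fun p : ℝ≥0 × E => B p.1 p.2)
  (hmem : ∀ t e, ‖B t e‖ < 1)

include hβ hB hmem

/-- Convergence along the integers. -/
lemma ae_tendsto_X {H : Set (ℂ → ℝ≥0∞)} (hH : Cls1 B Q H) {F : ℂ → ℝ≥0∞} (hF : F ∈ H) :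
    ∀ᵐ ω ∂(bbmLaw β Q), ∃ l, Tendsto (fun n : ℕ => X B β n ω F) atTop (𝓝 l) := by
  have := isProbabilityMeasure_expMeasure hβ
  have : IsProbabilityMeasure (bbmLaw β Q) := by unfold bbmLaw; infer_instance
  have hmX : ∀ r, Measurable fun ω : Om E => X B β r ω F :=
    fun r => (measurable_X hB (hH.meas F hF)).comp measurable_prodMk_left
  have h1 := ae_summable (bbmLaw β Q) (Y := fun n ω => X B β (n + 1 : ℕ) ω F - X B β (n : ℕ) ω F)
    (fun n => (hmX _).sub (hmX _)) hβ (C := 6) (by norm_num)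
    (fun n => V_exp hβ hB hmem hH hF (Nat.cast_nonneg n) (by push_cast; linarith))
  filter_upwards [h1] with ω hω
  have h2 : CauchySeq fun n : ℕ => X B β n ω F := by
    refine cauchySeq_of_summable_dist ?_
    refine hω.congr fun n => ?_
    rw [dist_comm, Real.dist_eq]
  exact cauchySeq_tendsto_of_complete h2

/-- Comparison with a shifted sequence of times. -/
lemma ae_tendsto_shift {H : Set (ℂ → ℝ≥0∞)} (hH : Cls1 B Q H) {F : ℂ → ℝ≥0∞} (hF : F ∈ H)
    {r : ℝ} (hr : 0 ≤ r) :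
    ∀ᵐ ω ∂(bbmLaw β Q), Tendsto (fun n : ℕ => X B β n ω F - X B β (n - r) ω F) atTop (𝓝 0) := by
  have := isProbabilityMeasure_expMeasure hβ
  have : IsProbabilityMeasure (bbmLaw β Q) := by unfold bbmLaw; infer_instance
  have hmX : ∀ r, Measurable fun ω : Om E => X B β r ω F :=
    fun r => (measurable_X hB (hH.meas F hF)).comp measurable_prodMk_left
  set R := ⌈r⌉₊ with hR
  have hRr : r ≤ R := Nat.le_ceil r
  have h1 := ae_summable (bbmLaw β Q)
    (Y := fun n ω => X B β ((n + R : ℕ) : ℝ) ω F - X B β (((n + R : ℕ) : ℝ) - r) ω F)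
    (fun n => (hmX _).sub (hmX _)) hβ (C := 6) (by norm_num)
    (fun n => by
      refine (V_exp hβ hB hmem hH hF (by push_cast; linarith [(Nat.cast_nonneg n : (0 : ℝ) ≤ n)])
        (by linarith)).trans ?_
      refine ENNReal.ofReal_le_ofReal ?_
      refine mul_le_mul_of_nonneg_left (Real.exp_le_exp.2 ?_) (by norm_num)
      have : β * n ≤ β * (((n + R : ℕ) : ℝ) - r) :=
        mul_le_mul_of_nonneg_left (by push_cast; linarith) hβ.le
      linarith)
  filter_upwards [h1] with ω hω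
  have h2 := hω.tendsto_atTop_zero
  have h3 : Tendsto (fun n : ℕ => X B β ((n + R : ℕ) : ℝ) ω F -
      X B β (((n + R : ℕ) : ℝ) - r) ω F) atTop (𝓝 0) :=
    (tendsto_zero_iff_abs_tendsto_zero _).2 h2
  exact (tendsto_add_atTop_iff_nat (f := fun n : ℕ => X B β n ω F - X B β (n - r) ω F) R).1 h3

/-- Decaying sums. -/
lemma ae_tendsto_decay {c : ℝ} (hc : c < 0) {H : Set (ℂ → ℝ≥0∞)} (hH : Cls B Q c H)
    {F : ℂ → ℝ≥0∞} (hF : F ∈ H) (hF0 : F 0 ≠ ⊤) {r : ℝ} (hr : 0 ≤ r) :
    ∀ᵐ ω ∂(bbmLaw β Q), Tendsto (fun n : ℕ => ENNReal.ofReal (Real.exp (-(β * (n - r)))) *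
      S B (n - r) ω F) atTop (𝓝 0) := by
  have := isProbabilityMeasure_expMeasure hβ
  have : IsProbabilityMeasure (bbmLaw β Q) := by unfold bbmLaw; infer_instance
  have hmS : ∀ r, Measurable fun ω : Om E => S B r ω F :=
    fun r => (measurable_S hB (hH.meas F hF)).comp measurable_prodMk_left
  set R := ⌈r⌉₊ with hR
  have hRr : r ≤ R := Nat.le_ceil r
  have h1 : ∀ n : ℕ, ∫⁻ ω, ENNReal.ofReal (Real.exp (-(β * (((n + R : ℕ) : ℝ) - r)))) *
      S B (((n + R : ℕ) : ℝ) - r) ω F ∂(bbmLaw β Q) ≤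
      ENNReal.ofReal (Real.exp c ^ n) * F 0 := by
    intro n
    have hn : 0 ≤ ((n + R : ℕ) : ℝ) - r := by
      push_cast; linarith [(Nat.cast_nonneg n : (0 : ℝ) ≤ n)]
    rw [lintegral_const_mul _ (hmS _), lintegral_S hβ hB hmem hH hF hn, ← mul_assoc,
      ← ENNReal.ofReal_mul (Real.exp_pos _).le, ← Real.exp_add, ← Real.exp_nat_mul]
    refine mul_le_mul_left (ENNReal.ofReal_le_ofReal (Real.exp_le_exp.2 ?_)) _
    have e1 : -(β * (((n + R : ℕ) : ℝ) - r)) + (β + c) * (((n + R : ℕ) : ℝ) - r) =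
        c * (((n + R : ℕ) : ℝ) - r) := by ring
    rw [e1, mul_comm (n : ℝ) c]
    exact mul_le_mul_of_nonpos_left (by push_cast; linarith) hc.le
  have h2 : ∫⁻ ω, ∑' n : ℕ, ENNReal.ofReal (Real.exp (-(β * (((n + R : ℕ) : ℝ) - r)))) *
      S B (((n + R : ℕ) : ℝ) - r) ω F ∂(bbmLaw β Q) ≠ ⊤ := by
    rw [lintegral_tsum fun n => ((hmS _).const_mul _).aemeasurable]
    refine ne_top_of_le_ne_top ?_ (ENNReal.tsum_le_tsum h1)
    rw [ENNReal.tsum_mul_right]
    refine ENNReal.mul_ne_top ?_ hF0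
    have hs : Summable fun n : ℕ => Real.exp c ^ n :=
      summable_geometric_of_lt_one (Real.exp_pos _).le (by rw [Real.exp_lt_one_iff]; exact hc)
    rw [← ENNReal.ofReal_tsum_of_nonneg (fun n => by positivity) hs]
    exact ENNReal.ofReal_ne_top
  have h3 : Measurable fun ω : Om E => ∑' n : ℕ,
      ENNReal.ofReal (Real.exp (-(β * (((n + R : ℕ) : ℝ) - r)))) *
      S B (((n + R : ℕ) : ℝ) - r) ω F :=
    Measurable.tsum fun n => (hmS _).const_mul _
  filter_upwards [ae_lt_top h3 h2] with ω hω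
  have h4 := ENNReal.tendsto_atTop_zero_of_tsum_ne_top hω.ne
  exact (tendsto_add_atTop_iff_nat (f := fun n : ℕ =>
    ENNReal.ofReal (Real.exp (-(β * (n - r)))) * S B (n - r) ω F) R).1 h4

end

end Pool.Agent.Lib.P46005
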