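import Mathlib
import Pool.Agent.Lib.P46005.Defs

/-!
# Second order jets of functions of one real variable
-/

open Filter
open scoped ComplexConjugate NNReal ENNReal Topology

namespace Pool.Agent.Lib.P46005

/-- `h` is twice differentiable at `0`, with value `a`, first derivative `b` and second
derivative `c`. -/
def Jet (h : ℝ → ℝ) (a b c : ℝ) : Prop :=
  h 0 = a ∧ ∃ h' : ℝ → ℝ, (∀ᶠ s in 𝓝 (0 : ℝ), HasDerivAt h (h' s) s) ∧ h' 0 = b ∧
    HasDerivAt h' c 0

namespace Jet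

variable {h k : ℝ → ℝ} {a b c a' b' c' : ℝ}

lemma deriv_eq (H : Jet h a b c) : deriv h 0 = b := by
  obtain ⟨_, h', h1, h2, _⟩ := H
  rw [h1.self_of_nhds.deriv, h2]

lemma iter_eq (H : Jet h a b c) : iteratedDeriv 2 h 0 = c := by
  obtain ⟨_, h', h1, h2, h3⟩ := H
  rw [iteratedDeriv_succ, iteratedDeriv_one]
  have : deriv h =ᶠ[𝓝 0] h' := h1.mono fun s hs => hs.deriv
  rw [this.deriv_eq, h3.deriv]

lemma mul (H : Jet h a b c) (K : Jet k a' b' c') :
    Jet (fun s => h s * k s) (a * a') (b * a' + a * b') (c * a' + 2 * (b * b') + a * c') := by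
  obtain ⟨h0, h', h1, h2, h3⟩ := H
  obtain ⟨k0, k', k1, k2, k3⟩ := K
  refine ⟨by simp only [h0, k0], fun s => h' s * k s + h s * k' s, ?_, ?_, ?_⟩
  · filter_upwards [h1, k1] with s hs ks
    exact hs.mul ks
  · simp only [h0, h2, k0, k2]
  · have e1 := (h3.mul k1.self_of_nhds).add (h1.self_of_nhds.mul k3)
    refine e1.congr_deriv ?_
    rw [h0, k0, h2, k2]
    ring

lemma comp_at {φ φ1 : ℝ → ℝ} {φ2 : ℝ} (H : Jet h a b c)
    (hφ : ∀ᶠ x in 𝓝 a, HasDerivAt φ (φ1 x) x) (hφ1 : HasDerivAt φ1 φ2 a) :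
    Jet (fun s => φ (h s)) (φ a) (φ1 a * b) (φ2 * b ^ 2 + φ1 a * c) := by
  obtain ⟨h0, h', h1, h2, h3⟩ := H
  have hc : ContinuousAt h 0 := h1.self_of_nhds.continuousAt
  refine ⟨by simp only [h0], fun s => φ1 (h s) * h' s, ?_, ?_, ?_⟩
  · have hev : ∀ᶠ s in 𝓝 (0 : ℝ), HasDerivAt φ (φ1 (h s)) (h s) := by
      rw [← h0] at hφ
      exact Tendsto.eventually hc hφ
    filter_upwards [h1, hev] with s hs hs2
    exact hs2.comp s hs
  · simp only [h0, h2]
  · rw [← h0] at hφ1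
    have e1 := (hφ1.comp 0 h1.self_of_nhds).mul h3
    refine e1.congr_deriv ?_
    simp only [Function.comp_apply, h0, h2]
    ring

lemma comp {φ φ1 φ2 : ℝ → ℝ} (H : Jet h a b c)
    (hφ : ∀ x, HasDerivAt φ (φ1 x) x) (hφ1 : ∀ x, HasDerivAt φ1 (φ2 x) x) :
    Jet (fun s => φ (h s)) (φ a) (φ1 a * b) (φ2 a * b ^ 2 + φ1 a * c) :=
  H.comp_at (Eventually.of_forall hφ) (hφ1 a)

lemma congr (H : Jet h a b c) (e : k =ᶠ[𝓝 0] h) : Jet k a b c := by
  obtain ⟨h0, h', h1, h2, h3⟩ := H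
  refine ⟨by rw [e.self_of_nhds, h0], h', ?_, h2, h3⟩
  filter_upwards [h1, e.eventuallyEq_nhds] with s hs es
  exact hs.congr_of_eventuallyEq es

lemma sub (H : Jet h a b c) (K : Jet k a' b' c') :
    Jet (fun s => h s - k s) (a - a') (b - b') (c - c') := by
  obtain ⟨h0, h', h1, h2, h3⟩ := H
  obtain ⟨k0, k', k1, k2, k3⟩ := K
  refine ⟨by simp only [h0, k0], fun s => h' s - k' s, ?_, by simp only [h2, k2], h3.sub k3⟩
  filter_upwards [h1, k1] with s hs ks
  exact hs.sub ks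

lemma cast (H : Jet h a b c) (h1 : a = a') (h2 : b = b') (h3 : c = c') : Jet h a' b' c' := by
  subst h1 h2 h3; exact H

/-- Jets of polynomials of degree two. -/
lemma poly (A C D : ℝ) : Jet (fun s => A + C * s + D * s ^ 2) A C (2 * D) := by
  refine ⟨by simp, fun s => C + 2 * D * s, Eventually.of_forall fun s => ?_, by simp, ?_⟩
  · have e1 := (((hasDerivAt_id s).const_mul C).const_add A).add
      (((hasDerivAt_id s).pow 2).const_mul D)
    refine e1.congr_deriv ?_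
    simp only [id_eq]
    push_cast
    ring
  · have e1 := ((hasDerivAt_id (0 : ℝ)).const_mul (2 * D)).const_add C
    refine e1.congr_deriv ?_
    ring

lemma of_contDiffAt (hc : ContDiffAt ℝ 2 h 0) : Jet h (h 0) (deriv h 0) (iteratedDeriv 2 h 0) := by
  refine ⟨rfl, deriv h, ?_, rfl, ?_⟩
  · have h1 : ∀ᶠ s in 𝓝 (0 : ℝ), ContDiffAt ℝ 2 h s := hc.eventually (by simp)
    filter_upwards [h1] with s hs
    exact (hs.differentiableAt (by simp)).hasDerivAt
  · rw [iteratedDeriv_succ, iteratedDeriv_one]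
    refine DifferentiableAt.hasDerivAt ?_
    have h2 : ContDiffAt ℝ 1 (deriv h) 0 := ContDiffAt.derivWithin hc (by norm_num)
    exact h2.differentiableAt (by simp)

end Jet

end Pool.Agent.Lib.P46005
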