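import Mathlib
import Pool.Agent.Lib.P46005.Jet

/-!
# Cutoff functions in the disk
-/

open Filter
open scoped ComplexConjugate NNReal ENNReal Topology

namespace Pool.Agent.Lib.P46005

/-- The smooth step and its first two derivatives. -/
noncomputable def ps (x : ℝ) : ℝ := Real.smoothTransition x
noncomputable def ps1 : ℝ → ℝ := deriv ps
noncomputable def ps2 : ℝ → ℝ := deriv ps1

lemma contDiff_ps : ContDiff ℝ (⊤ : ℕ∞) ps := Real.smoothTransition.contDiff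

lemma contDiff_ps1 : ContDiff ℝ (⊤ : ℕ∞) ps1 := by
  have h : ContDiff ℝ ((⊤ : ℕ∞) + 1) ps := contDiff_ps
  exact h.deriv'

lemma contDiff_ps2 : ContDiff ℝ (⊤ : ℕ∞) ps2 := by
  have h : ContDiff ℝ ((⊤ : ℕ∞) + 1) ps1 := contDiff_ps1
  exact h.deriv'

lemma hasDerivAt_ps (x : ℝ) : HasDerivAt ps (ps1 x) x :=
  (contDiff_ps.differentiable (by simp) x).hasDerivAt

lemma hasDerivAt_ps1 (x : ℝ) : HasDerivAt ps1 (ps2 x) x :=
  (contDiff_ps1.differentiable (by simp) x).hasDerivAt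

lemma ps_nonneg (x : ℝ) : 0 ≤ ps x := Real.smoothTransition.nonneg x
lemma ps_le_one (x : ℝ) : ps x ≤ 1 := Real.smoothTransition.le_one x

lemma ps_eq_one {x : ℝ} (h : 1 ≤ x) : ps x = 1 := Real.smoothTransition.one_of_one_le h
lemma ps_eq_zero {x : ℝ} (h : x ≤ 0) : ps x = 0 := Real.smoothTransition.zero_of_nonpos h

lemma ps1_eq_zero_of_gt {x : ℝ} (h : 1 < x) : ps1 x = 0 := by
  have : ps =ᶠ[𝓝 x] fun _ => 1 := by
    filter_upwards [lt_mem_nhds h] with y hy using ps_eq_one hy.le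
  unfold ps1
  rw [this.deriv_eq]; simp

lemma ps1_eq_zero_of_lt {x : ℝ} (h : x < 0) : ps1 x = 0 := by
  have : ps =ᶠ[𝓝 x] fun _ => 0 := by
    filter_upwards [gt_mem_nhds h] with y hy using ps_eq_zero hy.le
  unfold ps1
  rw [this.deriv_eq]; simp

lemma ps2_eq_zero_of_gt {x : ℝ} (h : 1 < x) : ps2 x = 0 := by
  have : ps1 =ᶠ[𝓝 x] fun _ => 0 := by
    filter_upwards [lt_mem_nhds h] with y hy using ps1_eq_zero_of_gt hy
  unfold ps2
  rw [this.deriv_eq]; simp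

lemma ps2_eq_zero_of_lt {x : ℝ} (h : x < 0) : ps2 x = 0 := by
  have : ps1 =ᶠ[𝓝 x] fun _ => 0 := by
    filter_upwards [gt_mem_nhds h] with y hy using ps1_eq_zero_of_lt hy
  unfold ps2
  rw [this.deriv_eq]; simp

lemma exists_ps_bound : ∃ K : ℝ, 0 ≤ K ∧ ∀ x, |ps1 x| ≤ K ∧ |ps2 x| ≤ K := by
  obtain ⟨K1, h1⟩ := (isCompact_Icc (a := (0 : ℝ)) (b := 1)).exists_bound_of_continuousOn
    contDiff_ps1.continuous.continuousOn
  obtain ⟨K2, h2⟩ := (isCompact_Icc (a := (0 : ℝ)) (b := 1)).exists_bound_of_continuousOn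
    contDiff_ps2.continuous.continuousOn
  refine ⟨max 0 (max K1 K2), le_max_left _ _, fun x => ?_⟩
  by_cases hx : x ∈ Set.Icc (0 : ℝ) 1
  · exact ⟨(h1 x hx).trans ((le_max_left _ _).trans (le_max_right _ _)),
      (h2 x hx).trans ((le_max_right _ _).trans (le_max_right _ _))⟩
  · have h3 : x < 0 ∨ 1 < x := by
      by_contra hcon
      push Not at hcon
      exact hx ⟨hcon.1, hcon.2⟩
    have h4 : ps1 x = 0 ∧ ps2 x = 0 := by
      rcases h3 with h | h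
      · exact ⟨ps1_eq_zero_of_lt h, ps2_eq_zero_of_lt h⟩
      · exact ⟨ps1_eq_zero_of_gt h, ps2_eq_zero_of_gt h⟩
    rw [h4.1, h4.2, abs_zero]
    exact ⟨le_max_left _ _, le_max_left _ _⟩

/-- The cutoff function. -/
noncomputable def chi (n : ℕ) (z : ℂ) : ℝ := ps (n * (1 - ‖z‖ ^ 2) - 1)

lemma contDiff_chi (n : ℕ) : ContDiff ℝ (⊤ : ℕ∞) (chi n) := by
  unfold chi
  refine contDiff_ps.comp ?_
  have : ContDiff ℝ (⊤ : ℕ∞) fun z : ℂ => ‖z‖ ^ 2 := contDiff_norm_sq ℝ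
  fun_prop

lemma chi_nonneg (n : ℕ) (z : ℂ) : 0 ≤ chi n z := ps_nonneg _
lemma chi_le_one (n : ℕ) (z : ℂ) : chi n z ≤ 1 := ps_le_one _

lemma norm_sq_slice_one (z : ℂ) (s : ℝ) : ‖z + s‖ ^ 2 = ‖z‖ ^ 2 + 2 * z.re * s + s ^ 2 := by
  rw [← Complex.normSq_eq_norm_sq, ← Complex.normSq_eq_norm_sq, Complex.normSq_apply,
    Complex.normSq_apply]
  simp
  ring

lemma norm_sq_slice_I (z : ℂ) (s : ℝ) :
    ‖z + s * Complex.I‖ ^ 2 = ‖z‖ ^ 2 + 2 * z.im * s + s ^ 2 := by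
  rw [← Complex.normSq_eq_norm_sq, ← Complex.normSq_eq_norm_sq, Complex.normSq_apply,
    Complex.normSq_apply]
  simp
  ring

lemma jet_chi_one (n : ℕ) (z : ℂ) : Jet (fun s : ℝ => chi n (z + s))
    (ps (n * (1 - ‖z‖ ^ 2) - 1)) (ps1 (n * (1 - ‖z‖ ^ 2) - 1) * (-(2 * n * z.re)))
    (ps2 (n * (1 - ‖z‖ ^ 2) - 1) * (-(2 * n * z.re)) ^ 2 +
      ps1 (n * (1 - ‖z‖ ^ 2) - 1) * (2 * (-n))) := by
  have h := (Jet.poly (n * (1 - ‖z‖ ^ 2) - 1) (-(2 * n * z.re)) (-n)).comp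
    hasDerivAt_ps hasDerivAt_ps1
  refine h.congr (Eventually.of_forall fun s => ?_)
  change ps _ = ps _
  rw [norm_sq_slice_one]
  congr 1
  ring

lemma jet_chi_I (n : ℕ) (z : ℂ) : Jet (fun s : ℝ => chi n (z + s * Complex.I))
    (ps (n * (1 - ‖z‖ ^ 2) - 1)) (ps1 (n * (1 - ‖z‖ ^ 2) - 1) * (-(2 * n * z.im)))
    (ps2 (n * (1 - ‖z‖ ^ 2) - 1) * (-(2 * n * z.im)) ^ 2 +
      ps1 (n * (1 - ‖z‖ ^ 2) - 1) * (2 * (-n))) := by
  have h := (Jet.poly (n * (1 - ‖z‖ ^ 2) - 1) (-(2 * n * z.im)) (-n)).comp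
    hasDerivAt_ps hasDerivAt_ps1
  refine h.congr (Eventually.of_forall fun s => ?_)
  change ps _ = ps _
  rw [norm_sq_slice_I]
  congr 1
  ring

lemma hypLap_eq {f : ℂ → ℝ} {z : ℂ} {a b c a' b' c' : ℝ}
    (H1 : Jet (fun s : ℝ => f (z + s)) a b c)
    (H2 : Jet (fun s : ℝ => f (z + s * Complex.I)) a' b' c') :
    hypLap f z = (1 - ‖z‖ ^ 2) ^ 2 / 4 * (c + c') := by
  unfold hypLap
  rw [H1.iter_eq, H2.iter_eq]

/-- The error estimate in one direction. -/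
lemma cut_bound {K : ℝ} (hK0 : 0 ≤ K) (hK : ∀ x, |ps1 x| ≤ K ∧ |ps2 x| ≤ K) {n : ℕ} (hn : 1 ≤ n)
    {P x C a b : ℝ} (hP0 : 0 < P) (hP1 : P ≤ 1) (hx : |x| ≤ 1) (ha : |a| ≤ C) (hb : P * |b| ≤ C) :
    |P ^ 2 * ((ps2 (n * P - 1) * (-(2 * n * x)) ^ 2 + ps1 (n * P - 1) * (2 * (-n))) * a +
      2 * (ps1 (n * P - 1) * (-(2 * n * x)) * b))| ≤ 28 * K * C := by
  have hC : 0 ≤ C := (abs_nonneg _).trans ha
  by_cases h : 1 < n * P - 1
  · rw [ps1_eq_zero_of_gt h, ps2_eq_zero_of_gt h]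
    simp
    positivity
  · push Not at h
    have hn0 : (1 : ℝ) ≤ n := by exact_mod_cast hn
    have hnP : n * P ≤ 2 := by linarith
    have hnP0 : 0 ≤ n * P := by positivity
    set u := ps1 (n * P - 1) with hu
    set v := ps2 (n * P - 1) with hv
    have hu1 : |u| ≤ K := (hK _).1
    have hv1 : |v| ≤ K := (hK _).2
    have hx2 : x ^ 2 ≤ 1 := by
      rw [← sq_abs]; exact pow_le_one₀ (abs_nonneg _) hx
    have e1 : P ^ 2 * ((v * (-(2 * n * x)) ^ 2 + u * (2 * (-n))) * a +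
        2 * (u * (-(2 * n * x)) * b)) =
        v * (4 * (n * P) ^ 2 * x ^ 2) * a - u * (2 * (n * P) * P) * a -
        4 * u * ((n * P) * x) * (P * b) := by ring
    rw [e1]
    have f1 : |v * (4 * (n * P) ^ 2 * x ^ 2) * a| ≤ 16 * K * C := by
      rw [abs_mul, abs_mul]
      have g1 : |4 * (n * P) ^ 2 * x ^ 2| ≤ 16 := by
        rw [abs_of_nonneg (by positivity)]
        have : (n * P) ^ 2 ≤ 4 := by nlinarith
        nlinarith [sq_nonneg x, sq_nonneg (n * P)]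
      calc |v| * |4 * (n * P) ^ 2 * x ^ 2| * |a| ≤ K * 16 * C := by gcongr
        _ = _ := by ring
    have f2 : |u * (2 * (n * P) * P) * a| ≤ 4 * K * C := by
      rw [abs_mul, abs_mul]
      have g1 : |2 * (n * P) * P| ≤ 4 := by
        rw [abs_of_nonneg (by positivity)]
        nlinarith
      calc |u| * |2 * (n * P) * P| * |a| ≤ K * 4 * C := by gcongr
        _ = _ := by ring
    have f3 : |4 * u * ((n * P) * x) * (P * b)| ≤ 8 * K * C := by
      rw [abs_mul, abs_mul, abs_mul, abs_of_nonneg (by norm_num : (0 : ℝ) ≤ 4)]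
      have g1 : |n * P * x| ≤ 2 := by
        rw [abs_mul, abs_of_nonneg hnP0]
        nlinarith [abs_nonneg x]
      have g2 : |P * b| ≤ C := by rw [abs_mul, abs_of_pos hP0]; exact hb
      calc 4 * |u| * |n * P * x| * |P * b| ≤ 4 * K * 2 * C := by gcongr
        _ = _ := by ring
    calc _ ≤ |v * (4 * (n * P) ^ 2 * x ^ 2) * a - u * (2 * (n * P) * P) * a| +
          |4 * u * ((n * P) * x) * (P * b)| := abs_sub _ _
      _ ≤ |v * (4 * (n * P) ^ 2 * x ^ 2) * a| + |u * (2 * (n * P) * P) * a| +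
          |4 * u * ((n * P) * x) * (P * b)| := by gcongr; exact abs_sub _ _
      _ ≤ 28 * K * C := by linarith

section

variable {f : ℂ → ℝ} (hf : ContDiffOn ℝ (⊤ : ℕ∞) f (Metric.ball 0 1))

include hf

lemma contDiffAt_of_ball {z : ℂ} (hz : ‖z‖ < 1) : ContDiffAt ℝ (⊤ : ℕ∞) f z :=
  hf.contDiffAt (Metric.isOpen_ball.mem_nhds (by rwa [mem_ball_zero_iff]))

lemma jet_slice (v : ℂ) {z : ℂ} (hz : ‖z‖ < 1) : Jet (fun s : ℝ => f (z + s * v)) (f z)
    (deriv (fun s : ℝ => f (z + s * v)) 0) (iteratedDeriv 2 (fun s : ℝ => f (z + s * v)) 0) := by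
  have h1 : ContDiffAt ℝ 2 f (z + ((0 : ℝ) : ℂ) * v) := by
    have := (contDiffAt_of_ball hf hz).of_le (m := 2)
      (WithTop.coe_le_coe.2 (le_top : (2 : ℕ∞) ≤ ⊤))
    simpa using this
  have h2 : ContDiffAt ℝ 2 (fun s : ℝ => z + (s : ℂ) * v) 0 := by
    have : ContDiff ℝ 2 fun s : ℝ => (s : ℂ) := Complex.ofRealCLM.contDiff
    exact (contDiff_const.add (this.mul contDiff_const)).contDiffAt
  have h3 : ContDiffAt ℝ 2 (fun s : ℝ => f (z + s * v)) 0 := h1.comp (0 : ℝ) h2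
  have h4 := Jet.of_contDiffAt h3
  exact h4.cast (by simp) rfl rfl

lemma jet_slice_one {z : ℂ} (hz : ‖z‖ < 1) : Jet (fun s : ℝ => f (z + s)) (f z)
    (deriv (fun s : ℝ => f (z + s)) 0) (iteratedDeriv 2 (fun s : ℝ => f (z + s)) 0) := by
  have := jet_slice hf 1 hz
  simpa using this

lemma contDiff_cut {n : ℕ} : ContDiff ℝ (⊤ : ℕ∞) fun z => chi n z * f z := by
  rw [contDiff_iff_contDiffAt]
  intro z
  by_cases hz : ‖z‖ < 1
  · exact (contDiff_chi n).contDiffAt.mul (contDiffAt_of_ball hf hz)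
  · have h1 : {w : ℂ | n * (1 - ‖w‖ ^ 2) - 1 < 0} ∈ 𝓝 z := by
      refine IsOpen.mem_nhds (isOpen_lt (by fun_prop) continuous_const) ?_
      push Not at hz
      have h2 : 1 ≤ ‖z‖ ^ 2 := by nlinarith
      have h3 : (0 : ℝ) ≤ n := Nat.cast_nonneg n
      change (n : ℝ) * (1 - ‖z‖ ^ 2) - 1 < 0
      nlinarith
    have h2 : (fun z => chi n z * f z) =ᶠ[𝓝 z] fun _ => 0 := by
      filter_upwards [h1] with w hw
      have : chi n w = 0 := ps_eq_zero (le_of_lt hw)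
      rw [this, zero_mul]
    exact contDiffAt_const.congr_of_eventuallyEq h2

omit hf in
lemma tsupport_cut {n : ℕ} :
    tsupport (fun z => chi n z * f z) ⊆ Metric.ball (0 : ℂ) 1 := by
  have hn0 : (0 : ℝ) ≤ n := Nat.cast_nonneg n
  have h1 : IsClosed {w : ℂ | 0 ≤ n * (1 - ‖w‖ ^ 2) - 1} :=
    isClosed_le continuous_const (by fun_prop)
  have h2 : Function.support (fun z => chi n z * f z) ⊆ {w : ℂ | 0 ≤ n * (1 - ‖w‖ ^ 2) - 1} := by
    intro w hw
    by_contra h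
    rw [Set.mem_ofPred_eq] at h
    push Not at h
    have : chi n w = 0 := ps_eq_zero h.le
    exact hw (by simp [this])
  refine (closure_minimal h2 h1).trans ?_
  intro w hw
  rw [Set.mem_ofPred_eq] at hw
  rw [mem_ball_zero_iff]
  by_contra h
  push Not at h
  have h2 : 1 ≤ ‖w‖ ^ 2 := by nlinarith
  nlinarith

omit hf in
lemma hasCompactSupport_cut {n : ℕ} :
    HasCompactSupport fun z => chi n z * f z :=
  (isCompact_closedBall (0 : ℂ) 1).of_isClosed_subset (isClosed_tsupport _)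
    (tsupport_cut.trans Metric.ball_subset_closedBall)

/-- The Laplacian of the cutoff function is bounded, uniformly in `n`. -/
lemma hypLap_cut_bound {K : ℝ} (hK0 : 0 ≤ K) (hK : ∀ x, |ps1 x| ≤ K ∧ |ps2 x| ≤ K) {C : ℝ}
    {z : ℂ} (hz : ‖z‖ < 1) (h0 : |f z| ≤ C) (hL : |hypLap f z| ≤ C)
    (h1 : (1 - ‖z‖ ^ 2) * |deriv (fun s : ℝ => f (z + s)) 0| ≤ C)
    (h2 : (1 - ‖z‖ ^ 2) * |deriv (fun s : ℝ => f (z + s * Complex.I)) 0| ≤ C)
    {n : ℕ} (hn : 1 ≤ n) : |hypLap (fun z => chi n z * f z) z| ≤ (1 + 14 * K) * C := by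
  have j1 := (jet_chi_one n z).mul (jet_slice_one hf hz)
  have j2 := (jet_chi_I n z).mul (jet_slice hf Complex.I hz)
  have hP0 : 0 < 1 - ‖z‖ ^ 2 := by nlinarith [norm_nonneg z]
  have hP1 : 1 - ‖z‖ ^ 2 ≤ 1 := by nlinarith [norm_nonneg z]
  have hx : |z.re| ≤ 1 := (Complex.abs_re_le_norm z).trans hz.le
  have hy : |z.im| ≤ 1 := (Complex.abs_im_le_norm z).trans hz.le
  have b1 := cut_bound hK0 hK hn hP0 hP1 hx h0 h1
  have b2 := cut_bound hK0 hK hn hP0 hP1 hy h0 h2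
  rw [hypLap_eq j1 j2]
  have hf' := hypLap_eq (jet_slice_one hf hz) (jet_slice hf Complex.I hz)
  set P := 1 - ‖z‖ ^ 2 with hP
  set A := ps (n * P - 1) with hA
  have hA0 : 0 ≤ A := ps_nonneg _
  have hA1 : A ≤ 1 := ps_le_one _
  set c1 := iteratedDeriv 2 (fun s : ℝ => f (z + s)) 0
  set c2 := iteratedDeriv 2 (fun s : ℝ => f (z + s * Complex.I)) 0
  set d1 := deriv (fun s : ℝ => f (z + s)) 0
  set d2 := deriv (fun s : ℝ => f (z + s * Complex.I)) 0
  have e : P ^ 2 / 4 *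
      ((ps2 (n * P - 1) * (-(2 * n * z.re)) ^ 2 + ps1 (n * P - 1) * (2 * (-n))) * f z +
        2 * (ps1 (n * P - 1) * (-(2 * n * z.re)) * d1) + A * c1 +
      ((ps2 (n * P - 1) * (-(2 * n * z.im)) ^ 2 + ps1 (n * P - 1) * (2 * (-n))) * f z +
        2 * (ps1 (n * P - 1) * (-(2 * n * z.im)) * d2) + A * c2)) =
      A * hypLap f z + 1 / 4 * (P ^ 2 *
        ((ps2 (n * P - 1) * (-(2 * n * z.re)) ^ 2 + ps1 (n * P - 1) * (2 * (-n))) * f z +
        2 * (ps1 (n * P - 1) * (-(2 * n * z.re)) * d1))) + 1 / 4 * (P ^ 2 *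
        ((ps2 (n * P - 1) * (-(2 * n * z.im)) ^ 2 + ps1 (n * P - 1) * (2 * (-n))) * f z +
        2 * (ps1 (n * P - 1) * (-(2 * n * z.im)) * d2))) := by
    rw [hf']
    ring
  rw [e]
  refine (abs_add_le _ _).trans ?_
  refine (add_le_add_left (abs_add_le _ _) _).trans ?_
  have hq : ∀ x : ℝ, |1 / 4 * x| = 1 / 4 * |x| := fun x => by
    rw [abs_mul, abs_of_nonneg (by norm_num : (0 : ℝ) ≤ 1 / 4)]
  rw [hq, hq, abs_mul A, abs_of_nonneg hA0]
  have g1 : A * |hypLap f z| ≤ C := by nlinarith [abs_nonneg (hypLap f z)]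
  linarith

/-- For large `n` the cutoff is invisible. -/
lemma hypLap_cut_eq {z : ℂ} (hz : ‖z‖ < 1) {n : ℕ} (hn : 1 < n * (1 - ‖z‖ ^ 2) - 1) :
    hypLap (fun z => chi n z * f z) z = hypLap f z ∧ chi n z * f z = f z := by
  have j1 := (jet_chi_one n z).mul (jet_slice_one hf hz)
  have j2 := (jet_chi_I n z).mul (jet_slice hf Complex.I hz)
  refine ⟨?_, ?_⟩
  · rw [hypLap_eq j1 j2, hypLap_eq (jet_slice_one hf hz) (jet_slice hf Complex.I hz),
      ps1_eq_zero_of_gt hn, ps2_eq_zero_of_gt hn, ps_eq_one hn.le]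
    ring
  · have : chi n z = 1 := ps_eq_one hn.le
    rw [this, one_mul]

end

/-- The hyperbolic Laplacian of a smooth function is continuous. -/
lemma continuous_hypLap {F : ℂ → ℝ} (hF : ContDiff ℝ (⊤ : ℕ∞) F) : Continuous (hypLap F) := by
  have key : ∀ v : ℂ, Continuous fun z => iteratedDeriv 2 (fun s : ℝ => F (z + s * v)) 0 := by
    intro v
    have h1 : ContDiff ℝ (⊤ : ℕ∞) fun w => fderiv ℝ F w v :=
      (hF.fderiv_right (m := (⊤ : ℕ∞)) (by simp)).clm_apply contDiff_const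
    have h2 : Continuous fun z => fderiv ℝ (fun w => fderiv ℝ F w v) z v :=
      (h1.continuous_fderiv (by simp)).clm_apply continuous_const
    refine h2.congr fun z => ?_
    have hl : ∀ s : ℝ, HasDerivAt (fun s : ℝ => z + (s : ℂ) * v) v s := by
      intro s
      have := ((Complex.ofRealCLM.hasDerivAt (x := s)).mul_const v).const_add z
      simpa using this
    have hd : ∀ s : ℝ, HasDerivAt (fun s : ℝ => F (z + s * v)) (fderiv ℝ F (z + s * v) v) s := by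
      intro s
      exact (hF.differentiable (by simp) _).hasFDerivAt.comp_hasDerivAt s (hl s)
    have hd2 : HasDerivAt (fun s : ℝ => fderiv ℝ F (z + s * v) v)
        (fderiv ℝ (fun w => fderiv ℝ F w v) (z + ((0 : ℝ) : ℂ) * v) v) 0 :=
      (h1.differentiable (by simp) _).hasFDerivAt.comp_hasDerivAt (0 : ℝ) (hl 0)
    rw [iteratedDeriv_succ, iteratedDeriv_one]
    have h3 : deriv (fun s : ℝ => F (z + s * v)) = fun s : ℝ => fderiv ℝ F (z + s * v) v :=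
      funext fun s => (hd s).deriv
    rw [h3, hd2.deriv]
    simp
  unfold hypLap
  have k1 := key 1
  simp only [mul_one] at k1
  exact (by fun_prop : Continuous fun z : ℂ => (1 - ‖z‖ ^ 2) ^ 2 / 4).mul (k1.add (key Complex.I))

end Pool.Agent.Lib.P46005
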