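import Mathlib
import Pool.Agent.Lib.P46005.Cutoff

/-!
# Dynkin's formula from the martingale problem
-/

open MeasureTheory ProbabilityTheory Filter
open scoped ComplexConjugate NNReal ENNReal Topology

namespace Pool.Agent.Lib.P46005

variable {E : Type} [MeasurableSpace E] {B : ℝ≥0 → E → ℂ} {Q : Measure E}

lemma IsHypBM.joint (h : IsHypBM B Q) : Measurable fun p : ℝ≥0 × E => B p.1 p.2 :=
  measurable_uncurry_of_continuous_of_measurable (u := B) h.cont h.meas

variable [IsProbabilityMeasure Q]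

lemma integrable_of_bound {α : Type*} [MeasurableSpace α] (μ : Measure α) [IsFiniteMeasure μ]
    {g : α → ℝ} (hg : Measurable g) {C : ℝ} (hC : ∀ x, |g x| ≤ C) : Integrable g μ :=
  Integrable.of_bound hg.aestronglyMeasurable C (ae_of_all _ hC)

lemma dynkin_cs (h : IsHypBM B Q) {F : ℂ → ℝ} (hF : ContDiff ℝ (⊤ : ℕ∞) F)
    (hc : HasCompactSupport F) (hs : tsupport F ⊆ Metric.ball (0 : ℂ) 1) (t : ℝ≥0) :
    ∫ e, F (B t e) ∂Q = F 0 + ∫ s in (0 : ℝ)..t, ∫ e, 1 / 2 * hypLap F (B s.toNNReal e) ∂Q := by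
  have hB := h.joint
  have hm := h.mart F hF hc hs
  have h1 := hm.setIntegral_eq (zero_le : (0 : ℝ≥0) ≤ t) (s := Set.univ) MeasurableSet.univ
  rw [Measure.restrict_univ] at h1
  have h0 : ∀ e, F (B 0 e) - F (B 0 e) - ∫ s in (0 : ℝ)..((0 : ℝ≥0) : ℝ),
      1 / 2 * hypLap F (B s.toNNReal e) = 0 := by
    intro e; simp
  simp only [h0, integral_zero] at h1
  -- bounds
  obtain ⟨K, hK⟩ := (isCompact_closedBall (0 : ℂ) 1).exists_bound_of_continuousOn
    (continuous_hypLap hF).continuousOn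
  obtain ⟨K', hK'⟩ := (isCompact_closedBall (0 : ℂ) 1).exists_bound_of_continuousOn
    hF.continuous.continuousOn
  have hcb : ∀ s e, B s e ∈ Metric.closedBall (0 : ℂ) 1 := fun s e => by
    rw [mem_closedBall_zero_iff]; exact (h.mem s e).le
  have hgm : Measurable (Function.uncurry fun (s : ℝ) (e : E) =>
      1 / 2 * hypLap F (B s.toNNReal e)) := by
    have h2 : Measurable fun p : ℝ × E => B p.1.toNNReal p.2 :=
      hB.comp ((measurable_real_toNNReal.comp measurable_fst).prodMk measurable_snd)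
    exact ((continuous_hypLap hF).measurable.comp h2).const_mul _
  have hgb : ∀ p : ℝ × E, |Function.uncurry (fun (s : ℝ) (e : E) =>
      1 / 2 * hypLap F (B s.toNNReal e)) p| ≤ 1 / 2 * K := by
    intro p
    change |1 / 2 * hypLap F (B p.1.toNNReal p.2)| ≤ _
    rw [abs_mul, abs_of_nonneg (by norm_num : (0 : ℝ) ≤ 1 / 2)]
    have := hK _ (hcb p.1.toNNReal p.2)
    rw [Real.norm_eq_abs] at this
    linarith
  have hfin : IsFiniteMeasure (volume.restrict (Set.uIoc (0 : ℝ) t)) := by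
    refine ⟨?_⟩
    rw [Measure.restrict_apply_univ, Set.uIoc_of_le t.coe_nonneg]
    simp
  have hint := integrable_of_bound ((volume.restrict (Set.uIoc (0 : ℝ) t)).prod Q) hgm hgb
  have i1 : Integrable (fun e => F (B t e)) Q := by
    refine integrable_of_bound Q (hF.continuous.measurable.comp (h.meas t)) (C := K') fun e => ?_
    exact hK' _ (hcb _ _)
  have i2 : Integrable (fun e => F (B 0 e)) Q := by
    refine integrable_of_bound Q (hF.continuous.measurable.comp (h.meas 0)) (C := K') fun e => ?_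
    exact hK' _ (hcb _ _)
  have i3 : Integrable (fun e => ∫ s in (0 : ℝ)..t, 1 / 2 * hypLap F (B s.toNNReal e)) Q := by
    have := hint.integral_prod_right
    simp_rw [intervalIntegral.integral_of_le t.coe_nonneg]
    rw [Set.uIoc_of_le t.coe_nonneg] at this
    exact this
  have i12 : Integrable (fun e => F (B t e) - F (B 0 e)) Q := i1.sub i2
  rw [integral_sub i12 i3, integral_sub i1 i2,
    ← intervalIntegral_integral_swap hint] at h1
  have h3 : ∫ e, F (B 0 e) ∂Q = F 0 := by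
    have : ∀ᵐ e ∂Q, F (B 0 e) = F 0 := by
      filter_upwards [h.start] with e he; rw [he]
    rw [integral_congr_ae this]; simp
  rw [h3] at h1
  linarith

theorem dynkin (h : IsHypBM B Q) {f : ℂ → ℝ} (hf : ContDiffOn ℝ (⊤ : ℕ∞) f (Metric.ball 0 1))
    {L : ℂ → ℝ} {C : ℝ} (h0 : ∀ z, ‖z‖ < 1 → |f z| ≤ C)
    (hL : ∀ z, ‖z‖ < 1 → hypLap f z = L z ∧ |L z| ≤ C)
    (h1 : ∀ z : ℂ, ‖z‖ < 1 → (1 - ‖z‖ ^ 2) * |deriv (fun s : ℝ => f (z + s)) 0| ≤ C)
    (h2 : ∀ z : ℂ, ‖z‖ < 1 →
      (1 - ‖z‖ ^ 2) * |deriv (fun s : ℝ => f (z + s * Complex.I)) 0| ≤ C) (t : ℝ≥0) :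
    ∫ e, f (B t e) ∂Q = f 0 + ∫ s in (0 : ℝ)..t, ∫ e, 1 / 2 * L (B s.toNNReal e) ∂Q := by
  have hB := h.joint
  obtain ⟨K, hK0, hK⟩ := exists_ps_bound
  have hC : 0 ≤ C := (abs_nonneg _).trans (h0 0 (by simp))
  set F : ℕ → ℂ → ℝ := fun n z => chi (n + 1) z * f z with hFdef
  have hFn : ∀ n, ContDiff ℝ (⊤ : ℕ∞) (F n) := fun n => contDiff_cut hf
  have hb : ∀ n z, ‖z‖ < 1 → |hypLap (F n) z| ≤ (1 + 14 * K) * C := fun n z hz =>
    hypLap_cut_bound hf hK0 hK hz (h0 z hz) (by rw [(hL z hz).1]; exact (hL z hz).2) (h1 z hz)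
      (h2 z hz) (by omega)
  have hFb : ∀ n z, ‖z‖ < 1 → |F n z| ≤ C := fun n z hz => by
    rw [hFdef]
    simp only [abs_mul]
    rw [abs_of_nonneg (chi_nonneg _ _)]
    exact (mul_le_of_le_one_left (abs_nonneg _) (chi_le_one _ _)).trans (h0 z hz)
  have hev : ∀ z : ℂ, ‖z‖ < 1 → ∀ᶠ n : ℕ in atTop, hypLap (F n) z = L z ∧ F n z = f z := by
    intro z hz
    have hP0 : 0 < 1 - ‖z‖ ^ 2 := by nlinarith [norm_nonneg z]
    obtain ⟨N, hN⟩ := exists_nat_gt (2 / (1 - ‖z‖ ^ 2))
    filter_upwards [eventually_ge_atTop N] with n hn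
    have h3 : 1 < ((n + 1 : ℕ) : ℝ) * (1 - ‖z‖ ^ 2) - 1 := by
      have h4 : 2 < (N : ℝ) * (1 - ‖z‖ ^ 2) := by
        rwa [div_lt_iff₀ hP0] at hN
      have h5 : (N : ℝ) * (1 - ‖z‖ ^ 2) ≤ ((n + 1 : ℕ) : ℝ) * (1 - ‖z‖ ^ 2) := by
        refine mul_le_mul_of_nonneg_right ?_ hP0.le
        exact_mod_cast hn.trans (Nat.le_succ n)
      linarith
    have h4 := hypLap_cut_eq hf hz h3
    rw [(hL z hz).1] at h4
    exact h4
  have heq : ∀ n, ∫ e, F n (B t e) ∂Q =
      F n 0 + ∫ s in (0 : ℝ)..t, ∫ e, 1 / 2 * hypLap (F n) (B s.toNNReal e) ∂Q := fun n =>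
    dynkin_cs h (hFn n) hasCompactSupport_cut tsupport_cut t
  have t1 : Tendsto (fun n => ∫ e, F n (B t e) ∂Q) atTop (𝓝 (∫ e, f (B t e) ∂Q)) := by
    refine tendsto_integral_of_dominated_convergence (fun _ => C) (fun n => ?_)
      (integrable_const _) (fun n => ?_) ?_
    · exact ((hFn n).continuous.measurable.comp (h.meas t)).aestronglyMeasurable
    · exact ae_of_all _ fun e => hFb n _ (h.mem t e)
    · refine ae_of_all _ fun e => ?_
      exact tendsto_const_nhds.congr' ((hev _ (h.mem t e)).mono fun n hn => hn.2.symm)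
  have t2 : Tendsto (fun n => F n 0) atTop (𝓝 (f 0)) :=
    tendsto_const_nhds.congr' ((hev 0 (by simp)).mono fun n hn => hn.2.symm)
  have hmeas : ∀ n, Measurable (Function.uncurry fun (s : ℝ) (e : E) =>
      1 / 2 * hypLap (F n) (B s.toNNReal e)) := by
    intro n
    have h2 : Measurable fun p : ℝ × E => B p.1.toNNReal p.2 :=
      hB.comp ((measurable_real_toNNReal.comp measurable_fst).prodMk measurable_snd)
    exact ((continuous_hypLap (hFn n)).measurable.comp h2).const_mul _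
  have hbd : ∀ n (s : ℝ) (e : E), |1 / 2 * hypLap (F n) (B s.toNNReal e)| ≤
      (1 + 14 * K) * C := by
    intro n s e
    rw [abs_mul, abs_of_nonneg (by norm_num : (0 : ℝ) ≤ 1 / 2)]
    have := hb n _ (h.mem s.toNNReal e)
    have h3 : 0 ≤ (1 + 14 * K) * C := by positivity
    linarith
  have t3 : Tendsto (fun n => ∫ s in (0 : ℝ)..t, ∫ e, 1 / 2 * hypLap (F n) (B s.toNNReal e) ∂Q)
      atTop (𝓝 (∫ s in (0 : ℝ)..t, ∫ e, 1 / 2 * L (B s.toNNReal e) ∂Q)) := by
    refine intervalIntegral.tendsto_integral_filter_of_dominated_convergence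
      (fun _ => (1 + 14 * K) * C) (Eventually.of_forall fun n => ?_)
      (Eventually.of_forall fun n => ?_) intervalIntegrable_const (ae_of_all _ fun s _ => ?_)
    · exact (hmeas n).stronglyMeasurable.integral_prod_right.aestronglyMeasurable
    · refine ae_of_all _ fun s _ => ?_
      refine (norm_integral_le_of_norm_le_const (ae_of_all _ fun e => hbd n s e)).trans ?_
      simp
    · refine tendsto_integral_of_dominated_convergence (fun _ => (1 + 14 * K) * C) (fun n => ?_)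
        (integrable_const _) (fun n => ae_of_all _ fun e => hbd n s e) ?_
      · exact ((hmeas n).comp measurable_prodMk_left).aestronglyMeasurable
      · refine ae_of_all _ fun e => ?_
        exact tendsto_const_nhds.congr' ((hev _ (h.mem s.toNNReal e)).mono fun n hn =>
          (congrArg (1 / 2 * ·) hn.1).symm)
  refine tendsto_nhds_unique t1 ?_
  exact (t2.add t3).congr fun n => (heq n).symm

end Pool.Agent.Lib.P46005
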