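import Mathlib
import Pool.Agent.Lib.P46005.Disk

/-!
# Weak convergence of measures on the disk to measures on the circle
-/

open MeasureTheory Filter
open scoped ComplexConjugate NNReal ENNReal Topology BoundedContinuousFunction

namespace Pool.Agent.Lib.P46005

/-- The square root of the Poisson kernel. -/
noncomputable def sy (z : ℂ) : ℝ≥0∞ := ENNReal.ofReal (Real.sqrt (yP z))

lemma sy_ge {z : ℂ} (hz : ‖z‖ < 1) : ENNReal.ofReal (1 - ‖z‖) ≤ 2 * sy z := by
  unfold sy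
  rw [← ENNReal.ofReal_ofNat, ← ENNReal.ofReal_mul (by norm_num)]
  refine ENNReal.ofReal_le_ofReal ?_
  have h1 := yP_le hz
  have h2 : 0 ≤ 1 - ‖z‖ := by linarith
  have h3 : 1 - ‖z‖ ≤ 1 := by linarith [norm_nonneg z]
  have h4 := Real.sq_sqrt (yP_pos hz).le
  have h5 := Real.sqrt_nonneg (yP z)
  by_contra hcon
  push Not at hcon
  nlinarith

section

variable {m : ℕ → Measure ℂ} [∀ n, IsFiniteMeasure (m n)]
  (h0 : ∀ n, m n (Metric.ball (0 : ℂ) 1)ᶜ = 0)
  (hy : Tendsto (fun n => ∫⁻ z, sy z ∂(m n)) atTop (𝓝 0))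

include h0 hy

lemma tendsto_ball {ρ : ℝ} (hρ : ρ < 1) :
    Tendsto (fun n => m n (Metric.closedBall (0 : ℂ) ρ)) atTop (𝓝 0) := by
  have hc : ENNReal.ofReal (1 - ρ) ≠ 0 := by
    rw [ne_eq, ENNReal.ofReal_eq_zero]; linarith
  have h1 : ∀ n, m n (Metric.closedBall (0 : ℂ) ρ) ≤
      (ENNReal.ofReal (1 - ρ))⁻¹ * (2 * ∫⁻ z, sy z ∂(m n)) := by
    intro n
    have h2 : ENNReal.ofReal (1 - ρ) * m n (Metric.closedBall (0 : ℂ) ρ) ≤
        2 * ∫⁻ z, sy z ∂(m n) := by
      rw [← setLIntegral_const]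
      calc ∫⁻ _ in Metric.closedBall (0 : ℂ) ρ, ENNReal.ofReal (1 - ρ) ∂(m n)
          ≤ ∫⁻ z in Metric.closedBall (0 : ℂ) ρ, 2 * sy z ∂(m n) := by
            refine setLIntegral_mono_ae' measurableSet_closedBall ?_
            have h3 : ∀ᵐ z ∂(m n), z ∈ Metric.ball (0 : ℂ) 1 := by
              rw [ae_iff]; exact h0 n
            filter_upwards [h3] with z hz hz2
            rw [mem_ball_zero_iff] at hz
            rw [mem_closedBall_zero_iff] at hz2
            refine le_trans (ENNReal.ofReal_le_ofReal ?_) (sy_ge hz)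
            linarith
        _ ≤ ∫⁻ z, 2 * sy z ∂(m n) := setLIntegral_le_lintegral _ _
        _ = 2 * ∫⁻ z, sy z ∂(m n) := by
            rw [lintegral_const_mul']
            exact ENNReal.ofNat_ne_top
    rw [← ENNReal.div_eq_inv_mul, ENNReal.le_div_iff_mul_le (Or.inl hc)
      (Or.inl ENNReal.ofReal_ne_top), mul_comm]
    exact h2
  have h2 : Tendsto (fun n => (ENNReal.ofReal (1 - ρ))⁻¹ * (2 * ∫⁻ z, sy z ∂(m n))) atTop
      (𝓝 ((ENNReal.ofReal (1 - ρ))⁻¹ * (2 * 0))) := by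
    refine ENNReal.Tendsto.const_mul (ENNReal.Tendsto.const_mul hy (Or.inr ENNReal.ofNat_ne_top))
      (Or.inr ?_)
    exact ENNReal.inv_ne_top.2 hc
  rw [mul_zero, mul_zero] at h2
  exact tendsto_of_tendsto_of_tendsto_of_le_of_le tendsto_const_nhds h2
    (fun _ => zero_le) h1

omit hy in
lemma integrable_disk {D : ℂ → ℂ} (hD : ContinuousOn D (Metric.closedBall 0 1)) (n : ℕ) :
    Integrable D (m n) := by
  have h1 : ∀ᵐ z ∂(m n), z ∈ Metric.closedBall (0 : ℂ) 1 := by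
    have h3 : ∀ᵐ z ∂(m n), z ∈ Metric.ball (0 : ℂ) 1 := by rw [ae_iff]; exact h0 n
    exact h3.mono fun z hz => Metric.ball_subset_closedBall hz
  have h2 : IntegrableOn D (Metric.closedBall (0 : ℂ) 1) (m n) :=
    hD.integrableOn_compact (isCompact_closedBall _ _)
  rwa [IntegrableOn, Measure.restrict_eq_self_of_ae_mem h1] at h2

/-- A function which is small on the circle has a small integral in the limit. -/
lemma bound_D {D : ℂ → ℂ} (hD : ContinuousOn D (Metric.closedBall 0 1)) {ε C : ℝ} (hε : 0 < ε)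
    (hC : ∀ᶠ n in atTop, (m n).real Set.univ ≤ C)
    (hs : ∀ z : ℂ, ‖z‖ = 1 → ‖D z‖ ≤ ε) :
    ∀ᶠ n in atTop, ‖∫ z, D z ∂(m n)‖ ≤ 2 * ε * C + ε := by
  -- the level set
  obtain ⟨ρ, hρ, hρ2⟩ : ∃ ρ : ℝ, ρ < 1 ∧ ∀ z : ℂ, ‖z‖ ≤ 1 → 2 * ε ≤ ‖D z‖ → ‖z‖ ≤ ρ := by
    have hK : IsCompact (Metric.closedBall (0 : ℂ) 1 ∩ (fun z => ‖D z‖) ⁻¹' Set.Ici (2 * ε)) := by
      have hcl := hD.norm.preimage_isClosed_of_isClosed Metric.isClosed_closedBall
        (isClosed_Ici (a := 2 * ε))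
      exact (isCompact_closedBall (0 : ℂ) 1).of_isClosed_subset hcl Set.inter_subset_left
    rcases Set.eq_empty_or_nonempty
      (Metric.closedBall (0 : ℂ) 1 ∩ (fun z => ‖D z‖) ⁻¹' Set.Ici (2 * ε)) with he | hne
    · refine ⟨0, by norm_num, fun z hz hz2 => ?_⟩
      have : z ∈ (∅ : Set ℂ) := by
        rw [← he]; exact ⟨by rwa [mem_closedBall_zero_iff], hz2⟩
      exact absurd this (Set.notMem_empty z)
    · obtain ⟨z0, hz0, hmax⟩ := hK.exists_isMaxOn hne continuous_norm.continuousOn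
      refine ⟨‖z0‖, ?_, fun z hz hz2 => hmax ⟨by rwa [mem_closedBall_zero_iff], hz2⟩⟩
      have h1 : ‖z0‖ ≤ 1 := by
        have := hz0.1; rwa [mem_closedBall_zero_iff] at this
      rcases h1.lt_or_eq with h | h
      · exact h
      · have h2 := hs z0 h
        have h3 : 2 * ε ≤ ‖D z0‖ := hz0.2
        linarith
  obtain ⟨K, hK⟩ := (isCompact_closedBall (0 : ℂ) 1).exists_bound_of_continuousOn hD
  have hK0 : 0 ≤ K := (norm_nonneg _).trans (hK 0 (by simp))
  have hball := tendsto_ball h0 hy hρ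
  have hball' : Tendsto (fun n => K * (m n).real (Metric.closedBall (0 : ℂ) ρ)) atTop (𝓝 0) := by
    have := ((ENNReal.tendsto_toReal (ENNReal.zero_ne_top)).comp hball).const_mul K
    rw [ENNReal.toReal_zero, mul_zero] at this
    exact this
  filter_upwards [hC, hball'.eventually (gt_mem_nhds hε)] with n hn1 hn2
  have h1 : ∀ᵐ z ∂(m n), z ∈ Metric.ball (0 : ℂ) 1 := by rw [ae_iff]; exact h0 n
  have hint : Integrable (fun z => 2 * ε + (Metric.closedBall (0 : ℂ) ρ).indicator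
      (fun _ => K) z) (m n) :=
    (integrable_const _).add ((integrable_const K).indicator measurableSet_closedBall)
  calc ‖∫ z, D z ∂(m n)‖ ≤ ∫ z, ‖D z‖ ∂(m n) := norm_integral_le_integral_norm _
    _ ≤ ∫ z, (2 * ε + (Metric.closedBall (0 : ℂ) ρ).indicator (fun _ => K) z) ∂(m n) := by
        refine integral_mono_ae (integrable_disk h0 hD n).norm hint ?_
        filter_upwards [h1] with z hz
        rw [mem_ball_zero_iff] at hz
        by_cases h2 : 2 * ε ≤ ‖D z‖
        · have h3 : z ∈ Metric.closedBall (0 : ℂ) ρ := by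
            rw [mem_closedBall_zero_iff]; exact hρ2 z hz.le h2
          rw [Set.indicator_of_mem h3]
          have := hK z (by rw [mem_closedBall_zero_iff]; exact hz.le)
          linarith
        · push Not at h2
          have : 0 ≤ (Metric.closedBall (0 : ℂ) ρ).indicator (fun _ => K) z :=
            Set.indicator_nonneg (fun _ _ => hK0) z
          linarith
    _ = 2 * ε * (m n).real Set.univ + K * (m n).real (Metric.closedBall (0 : ℂ) ρ) := by
        rw [integral_add (integrable_const _)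
          ((integrable_const K).indicator measurableSet_closedBall), integral_const,
          integral_indicator measurableSet_closedBall, setIntegral_const, smul_eq_mul, smul_eq_mul]
        ring
    _ ≤ 2 * ε * C + ε := by
        have : 2 * ε * (m n).real Set.univ ≤ 2 * ε * C :=
          mul_le_mul_of_nonneg_left hn1 (by positivity)
        linarith

/-- The standard map from `ℝ/ℤ` to the complex numbers. -/
noncomputable def cc (θ : AddCircle (1 : ℝ)) : ℂ := ((AddCircle.toCircle θ : Circle) : ℂ)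

omit [∀ n, IsFiniteMeasure (m n)] h0 hy in
lemma continuous_cc : Continuous cc :=
  continuous_subtype_val.comp AddCircle.continuous_toCircle

omit [∀ n, IsFiniteMeasure (m n)] h0 hy in
lemma norm_cc (θ : AddCircle (1 : ℝ)) : ‖cc θ‖ = 1 := Circle.norm_coe _

omit [∀ n, IsFiniteMeasure (m n)] h0 hy in
lemma exists_angle {z : ℂ} (hz : ‖z‖ = 1) : ∃ θ : AddCircle (1 : ℝ), cc θ = z := by
  have hz' : z ∈ Metric.sphere (0 : ℂ) 1 := by rw [mem_sphere_zero_iff_norm]; exact hz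
  obtain ⟨θ, hθ⟩ := (AddCircle.homeomorphCircle (T := (1 : ℝ)) one_ne_zero).surjective
    (⟨z, by simpa [Submonoid.unitSphere] using hz⟩ : Circle)
  refine ⟨θ, ?_⟩
  rw [AddCircle.homeomorphCircle_apply] at hθ
  unfold cc
  rw [hθ]

omit h0 hy [∀ n, IsFiniteMeasure (m n)] in
lemma tendsto_mass {μ : Measure ℂ}
    (hk : ∀ k : ℕ, Tendsto (fun n => ∫ z, z ^ k ∂(m n)) atTop (𝓝 (∫ z, z ^ k ∂μ))) :
    Tendsto (fun n => (m n).real Set.univ) atTop (𝓝 (μ.real Set.univ)) := by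
  have h1 := hk 0
  simp only [pow_zero, integral_const, smul_eq_mul] at h1
  have h2 := (Complex.continuous_re.tendsto _).comp h1
  simpa [Function.comp_def] using h2

omit hy in
lemma fourier_approx {μ : Measure ℂ} [IsFiniteMeasure μ]
    (hμ : μ (Metric.sphere (0 : ℂ) 1)ᶜ = 0)
    (hk : ∀ k : ℕ, Tendsto (fun n => ∫ z, z ^ k ∂(m n)) atTop (𝓝 (∫ z, z ^ k ∂μ)))
    {h : C(AddCircle (1 : ℝ), ℂ)} (hh : h ∈ Submodule.span ℂ (Set.range (@fourier 1))) :
    ∃ p : ℂ → ℂ, Continuous p ∧ (∀ θ : AddCircle (1 : ℝ), p (cc θ) = h θ) ∧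
      Tendsto (fun n => ∫ z, p z ∂(m n)) atTop (𝓝 (∫ z, p z ∂μ)) := by
  have hμi : ∀ p : ℂ → ℂ, Continuous p → Integrable p μ := by
    intro p hp
    have h1 : ∀ᵐ z ∂μ, z ∈ Metric.sphere (0 : ℂ) 1 := by rw [ae_iff]; exact hμ
    have h2 : IntegrableOn p (Metric.sphere (0 : ℂ) 1) μ :=
      hp.continuousOn.integrableOn_compact (isCompact_sphere _ _)
    rwa [IntegrableOn, Measure.restrict_eq_self_of_ae_mem h1] at h2
  have hmi : ∀ p : ℂ → ℂ, Continuous p → ∀ n, Integrable p (m n) := fun p hp n =>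
    integrable_disk h0 hp.continuousOn n
  induction hh using Submodule.span_induction with
  | mem h hmem =>
    obtain ⟨k, rfl⟩ := hmem
    rcases Int.eq_nat_or_neg k with ⟨j, hj | hj⟩
    · refine ⟨fun z => z ^ j, by fun_prop, ?_, hk j⟩
      intro θ
      rw [hj, fourier_apply, AddCircle.toCircle_zsmul]
      simp [cc]
    · refine ⟨fun z => conj (z ^ j), by fun_prop, ?_, ?_⟩
      · intro θ
        rw [hj, fourier_neg, fourier_apply, AddCircle.toCircle_zsmul]
        simp [cc]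
      · have h1 := (Complex.continuous_conj.tendsto _).comp (hk j)
        have h2 : ∀ ν : Measure ℂ, ∫ z, conj (z ^ j) ∂ν = conj (∫ z, z ^ j ∂ν) := fun ν =>
          integral_conj
        rw [h2]
        refine h1.congr fun n => ?_
        rw [h2]
        rfl
  | zero => exact ⟨fun _ => 0, continuous_const, fun θ => rfl, by simp⟩
  | add g1 g2 _ _ ih1 ih2 =>
    obtain ⟨p1, hp1, hq1, hr1⟩ := ih1
    obtain ⟨p2, hp2, hq2, hr2⟩ := ih2
    refine ⟨fun z => p1 z + p2 z, hp1.add hp2, fun θ => congrArg₂ (· + ·) (hq1 θ) (hq2 θ), ?_⟩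
    rw [integral_add (hμi _ hp1) (hμi _ hp2)]
    refine (hr1.add hr2).congr fun n => ?_
    rw [integral_add (hmi _ hp1 n) (hmi _ hp2 n)]
  | smul a g _ ih =>
    obtain ⟨p, hp, hq, hr⟩ := ih
    refine ⟨fun z => a * p z, continuous_const.mul hp, fun θ => congrArg (a * ·) (hq θ), ?_⟩
    rw [integral_const_mul]
    refine (hr.const_mul a).congr fun n => ?_
    rw [integral_const_mul]

/-- Convergence of the moments implies weak convergence. -/
theorem weak_of_moments {μ : Measure ℂ} [IsFiniteMeasure μ]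
    (hμ : μ (Metric.sphere (0 : ℂ) 1)ᶜ = 0)
    (hk : ∀ k : ℕ, Tendsto (fun n => ∫ z, z ^ k ∂(m n)) atTop (𝓝 (∫ z, z ^ k ∂μ)))
    {G : ℂ → ℂ} (hG : ContinuousOn G (Metric.closedBall 0 1)) :
    Tendsto (fun n => ∫ z, G z ∂(m n)) atTop (𝓝 (∫ z, G z ∂μ)) := by
  have hsph : ∀ᵐ z ∂μ, z ∈ Metric.sphere (0 : ℂ) 1 := by rw [ae_iff]; exact hμ
  have hμi : ∀ p : ℂ → ℂ, ContinuousOn p (Metric.closedBall 0 1) → Integrable p μ := by
    intro p hp
    have h2 : IntegrableOn p (Metric.sphere (0 : ℂ) 1) μ :=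
      (hp.mono Metric.sphere_subset_closedBall).integrableOn_compact (isCompact_sphere _ _)
    rwa [IntegrableOn, Measure.restrict_eq_self_of_ae_mem hsph] at h2
  set C : ℝ := μ.real Set.univ + 1 with hCdef
  have hC : ∀ᶠ n in atTop, (m n).real Set.univ ≤ C :=
    ((tendsto_mass hk).eventually (gt_mem_nhds (lt_add_one _))).mono fun n hn => le_of_lt hn
  have hC0 : 0 ≤ C := by positivity
  let g : C(AddCircle (1 : ℝ), ℂ) := ⟨fun θ => G (cc θ),
    hG.comp_continuous continuous_cc fun θ => by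
      rw [mem_closedBall_zero_iff, norm_cc]⟩
  rw [Metric.tendsto_atTop']
  intro ε hε
  set η : ℝ := ε / (4 * (C + 1)) with hη
  have hη0 : 0 < η := by positivity
  obtain ⟨h, hh, hgh⟩ : ∃ h ∈ (Submodule.span ℂ (Set.range (@fourier (1 : ℝ))) :
      Submodule ℂ C(AddCircle (1 : ℝ), ℂ)), dist g h < η := by
    have h1 : g ∈ (Submodule.span ℂ (Set.range (@fourier (1 : ℝ)))).topologicalClosure := by
      rw [span_fourier_closure_eq_top]; trivial
    have h2 : g ∈ closure ((Submodule.span ℂ (Set.range (@fourier (1 : ℝ))) :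
      Submodule ℂ C(AddCircle (1 : ℝ), ℂ)) : Set C(AddCircle (1 : ℝ), ℂ)) := h1
    obtain ⟨h, hh, hd⟩ := Metric.mem_closure_iff.1 h2 η hη0
    exact ⟨h, hh, hd⟩
  obtain ⟨p, hp, hph, hpt⟩ := fourier_approx h0 hμ hk hh
  have hDc : ContinuousOn (fun z => G z - p z) (Metric.closedBall 0 1) := hG.sub hp.continuousOn
  have hDs : ∀ z : ℂ, ‖z‖ = 1 → ‖G z - p z‖ ≤ η := by
    intro z hz
    obtain ⟨θ, rfl⟩ := exists_angle hz
    rw [hph]
    have := (ContinuousMap.dist_apply_le_dist (f := g) (g := h) θ).trans hgh.le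
    rwa [dist_eq_norm] at this
  have h1 := bound_D h0 hy hDc hη0 hC hDs
  have h2 : ‖∫ z, (G z - p z) ∂μ‖ ≤ η * C := by
    have h3 : ∀ᵐ z ∂μ, ‖G z - p z‖ ≤ η := by
      filter_upwards [hsph] with z hz
      exact hDs z (by rwa [mem_sphere_zero_iff_norm] at hz)
    refine (norm_integral_le_of_norm_le_const h3).trans ?_
    exact mul_le_mul_of_nonneg_left (by linarith) hη0.le
  have h3 := (Metric.tendsto_atTop.1 hpt η hη0)
  obtain ⟨N, hN⟩ := h3
  obtain ⟨N', hN'⟩ := eventually_atTop.1 h1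
  refine ⟨max N N', fun n hn => ?_⟩
  have e1 := hN n ((le_max_left _ _).trans hn.le)
  have e2 := hN' n ((le_max_right _ _).trans hn.le)
  have e3 : ∫ z, G z ∂(m n) = ∫ z, (G z - p z) ∂(m n) + ∫ z, p z ∂(m n) := by
    rw [← integral_add (integrable_disk h0 hDc n) (integrable_disk h0 hp.continuousOn n)]
    simp
  have e4 : ∫ z, G z ∂μ = ∫ z, (G z - p z) ∂μ + ∫ z, p z ∂μ := by
    rw [← integral_add (hμi _ hDc) (hμi _ hp.continuousOn)]
    simp
  rw [dist_eq_norm] at e1 ⊢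
  rw [e3, e4]
  have e5 : ∫ z, (G z - p z) ∂(m n) + ∫ z, p z ∂(m n) -
      (∫ z, (G z - p z) ∂μ + ∫ z, p z ∂μ) = ∫ z, (G z - p z) ∂(m n) -
      ∫ z, (G z - p z) ∂μ + (∫ z, p z ∂(m n) - ∫ z, p z ∂μ) := by ring
  rw [e5]
  have e6 : η * (4 * (C + 1)) = ε := by rw [hη]; field_simp
  calc _ ≤ ‖∫ z, (G z - p z) ∂(m n)‖ + ‖∫ z, (G z - p z) ∂μ‖ +
        ‖∫ z, p z ∂(m n) - ∫ z, p z ∂μ‖ :=
        (norm_add_le _ _).trans (add_le_add (norm_sub_le _ _) le_rfl)
    _ < (2 * η * C + η) + η * C + η := by linarith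
    _ ≤ ε := by nlinarith

end

end Pool.Agent.Lib.P46005
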