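import Mathlib
import Pool.Agent.Lib.P46005.Weak

/-!
# Existence of the limit measure on the circle
-/

open MeasureTheory Filter
open scoped ComplexConjugate NNReal ENNReal Topology BoundedContinuousFunction

namespace Pool.Agent.Lib.P46005

/-- Projection of the plane to the closed unit disk. -/
noncomputable def prj (z : ℂ) : ℂ := ((max 1 ‖z‖ : ℝ) : ℂ)⁻¹ * z

lemma continuous_prj : Continuous prj := by
  unfold prj
  refine Continuous.mul (Continuous.inv₀ (by fun_prop) ?_) continuous_id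
  intro z
  have : (0 : ℝ) < max 1 ‖z‖ := lt_of_lt_of_le one_pos (le_max_left _ _)
  exact_mod_cast this.ne'

lemma norm_prj_le (z : ℂ) : ‖prj z‖ ≤ 1 := by
  unfold prj
  have : (0 : ℝ) < max 1 ‖z‖ := lt_of_lt_of_le one_pos (le_max_left _ _)
  rw [norm_mul, norm_inv, Complex.norm_real, Real.norm_of_nonneg this.le, ← div_eq_inv_mul,
    div_le_one this]
  exact le_max_right _ _

lemma prj_of_le {z : ℂ} (hz : ‖z‖ ≤ 1) : prj z = z := by
  unfold prj
  rw [max_eq_left hz]
  simp

/-- The test function `Re (a * z^k)`. -/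
noncomputable def tf (a : ℂ) (k : ℕ) : ℂ →ᵇ ℝ :=
  BoundedContinuousFunction.ofNormedAddCommGroup (fun z => (a * prj z ^ k).re)
    (Complex.continuous_re.comp (continuous_const.mul (continuous_prj.pow k))) ‖a‖ fun z => by
      rw [Real.norm_eq_abs]
      refine (Complex.abs_re_le_norm _).trans ?_
      rw [norm_mul, norm_pow]
      exact mul_le_of_le_one_right (norm_nonneg _) (pow_le_one₀ (norm_nonneg _) (norm_prj_le z))

lemma tf_apply (a : ℂ) (k : ℕ) (z : ℂ) : tf a k z = (a * prj z ^ k).re := rfl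

/-- The distance to the circle, inside the disk. -/
noncomputable def df : ℂ →ᵇ ℝ :=
  BoundedContinuousFunction.ofNormedAddCommGroup (fun z => max 0 (1 - ‖z‖))
    (by fun_prop) 1 fun z => by
      rw [Real.norm_of_nonneg (le_max_left _ _)]
      exact max_le (by norm_num) (by linarith [norm_nonneg z])

lemma df_apply (z : ℂ) : df z = max 0 (1 - ‖z‖) := rfl

lemma df_nonneg (z : ℂ) : 0 ≤ df z := le_max_left _ _

lemma integrable_pow_of_ball {ν : Measure ℂ} [IsFiniteMeasure ν]
    (hν : ν (Metric.closedBall (0 : ℂ) 1)ᶜ = 0) (k : ℕ) : Integrable (fun z => z ^ k) ν := by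
  have h1 : ∀ᵐ z ∂ν, z ∈ Metric.closedBall (0 : ℂ) 1 := by rw [ae_iff]; exact hν
  have h2 : IntegrableOn (fun z : ℂ => z ^ k) (Metric.closedBall (0 : ℂ) 1) ν :=
    (continuous_pow k).continuousOn.integrableOn_compact (isCompact_closedBall _ _)
  rwa [IntegrableOn, Measure.restrict_eq_self_of_ae_mem h1] at h2

lemma integral_tf {ν : Measure ℂ} [IsFiniteMeasure ν]
    (hν : ν (Metric.closedBall (0 : ℂ) 1)ᶜ = 0) (a : ℂ) (k : ℕ) :
    ∫ z, tf a k z ∂ν = (a * ∫ z, z ^ k ∂ν).re := by
  have h1 : ∀ᵐ z ∂ν, z ∈ Metric.closedBall (0 : ℂ) 1 := by rw [ae_iff]; exact hν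
  have h2 : ∫ z, tf a k z ∂ν = ∫ z, (a * z ^ k).re ∂ν := by
    refine integral_congr_ae ?_
    filter_upwards [h1] with z hz
    rw [mem_closedBall_zero_iff] at hz
    rw [tf_apply, prj_of_le hz]
  rw [h2]
  have h3 := integral_re (μ := ν) (f := fun z : ℂ => a * z ^ k) (𝕜 := ℂ)
    ((integrable_pow_of_ball hν k).const_mul a)
  have h4 : ∫ z, (a * z ^ k).re ∂ν = (∫ z, a * z ^ k ∂ν).re := h3
  rw [h4, integral_const_mul]

theorem exists_limit {m : ℕ → Measure ℂ} [∀ n, IsFiniteMeasure (m n)]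
    (h0 : ∀ n, m n (Metric.ball (0 : ℂ) 1)ᶜ = 0)
    (hy : Tendsto (fun n => ∫⁻ z, sy z ∂(m n)) atTop (𝓝 0))
    {c : ℕ → ℂ} (hc : ∀ k, Tendsto (fun n => ∫ z, z ^ k ∂(m n)) atTop (𝓝 (c k))) :
    ∃ μ : Measure ℂ, IsFiniteMeasure μ ∧ μ (Metric.sphere (0 : ℂ) 1)ᶜ = 0 ∧
      ∀ k, ∫ z, z ^ k ∂μ = c k := by
  have h0' : ∀ n, m n (Metric.closedBall (0 : ℂ) 1)ᶜ = 0 := fun n =>
    measure_mono_null (Set.compl_subset_compl.2 Metric.ball_subset_closedBall) (h0 n)
  -- mass bound
  have hmass : Tendsto (fun n => (m n).real Set.univ) atTop (𝓝 (c 0).re) := by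
    have h1 := hc 0
    simp only [pow_zero, integral_const] at h1
    have h2 := (Complex.continuous_re.tendsto _).comp h1
    simpa [Function.comp_def] using h2
  set C : ℝ≥0 := Real.toNNReal ((c 0).re + 1) with hCdef
  let M : ℕ → FiniteMeasure ℂ := fun n => ⟨m n, inferInstance⟩
  have hM : ∀ᶠ n in atTop, M n ∈ {μ : FiniteMeasure ℂ | μ.mass ≤ C ∧
      μ (Metric.closedBall (0 : ℂ) 1)ᶜ = 0} := by
    filter_upwards [hmass.eventually (gt_mem_nhds (lt_add_one _))] with n hn
    refine ⟨?_, ?_⟩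
    · have h1 : ((M n).mass : ℝ) = (m n).real Set.univ := rfl
      rw [← NNReal.coe_le_coe, h1, hCdef]
      exact hn.le.trans (Real.le_coe_toNNReal _)
    · rw [FiniteMeasure.null_iff_toMeasure_null]
      exact h0' n
  have hcomp := isCompact_setOfPred_finiteMeasure_le_of_isCompact C
    (isCompact_closedBall (0 : ℂ) 1)
  obtain ⟨μ, hμ, hcl⟩ := hcomp (f := map M atTop) (by
    rw [le_principal_iff, mem_map]; exact hM)
  have key : ∀ (g : ℂ →ᵇ ℝ) (l : ℝ), Tendsto (fun n => ∫ z, g z ∂(m n)) atTop (𝓝 l) →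
      ∫ z, g z ∂(μ : Measure ℂ) = l := by
    intro g l hl
    have h1 : MapClusterPt μ atTop M := hcl
    have h2 := h1.continuousAt_comp
      (FiniteMeasure.continuous_integral_boundedContinuousFunction g).continuousAt
    have h3 : ClusterPt (∫ z, g z ∂(μ : Measure ℂ)) (map (fun n => ∫ z, g z ∂(m n)) atTop) := h2
    have h4 : ClusterPt (∫ z, g z ∂(μ : Measure ℂ)) (𝓝 l) := h3.mono hl
    have : NeBot (𝓝 (∫ z, g z ∂(μ : Measure ℂ)) ⊓ 𝓝 l) := h4
    exact eq_of_nhds_neBot this
  have hμ0 : (μ : Measure ℂ) (Metric.closedBall (0 : ℂ) 1)ᶜ = 0 := by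
    have := hμ.2
    rwa [FiniteMeasure.null_iff_toMeasure_null] at this
  refine ⟨μ, inferInstance, ?_, ?_⟩
  · -- carried by the sphere
    have h1 : ∫ z, df z ∂(μ : Measure ℂ) = 0 := by
      refine key df 0 ?_
      have hy' : Tendsto (fun n => (2 * ∫⁻ z, sy z ∂(m n)).toReal) atTop (𝓝 0) := by
        have h1 := ENNReal.Tendsto.const_mul (a := 2) hy (Or.inr ENNReal.ofNat_ne_top)
        rw [mul_zero] at h1
        have := (ENNReal.tendsto_toReal (ENNReal.zero_ne_top)).comp h1
        rwa [ENNReal.toReal_zero] at this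
      refine squeeze_zero' (Eventually.of_forall fun n => ?_) ?_ hy'
      · exact integral_nonneg fun z => df_nonneg z
      · have hfin : ∀ᶠ n in atTop, ∫⁻ z, sy z ∂(m n) < 1 :=
          hy.eventually (gt_mem_nhds one_pos)
        filter_upwards [hfin] with n hn
        have h2 : ∀ᵐ z ∂(m n), z ∈ Metric.ball (0 : ℂ) 1 := by rw [ae_iff]; exact h0 n
        rw [integral_eq_lintegral_of_nonneg_ae (ae_of_all _ fun z => df_nonneg z)
          df.continuous.aestronglyMeasurable]
        refine ENNReal.toReal_mono ?_ ?_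
        · exact ENNReal.mul_ne_top ENNReal.ofNat_ne_top (hn.trans ENNReal.one_lt_top).ne
        · rw [← lintegral_const_mul' _ _ ENNReal.ofNat_ne_top]
          refine lintegral_mono_ae ?_
          filter_upwards [h2] with z hz
          rw [mem_ball_zero_iff] at hz
          rw [df_apply, max_eq_right (by linarith)]
          exact sy_ge hz
    rw [integral_eq_zero_iff_of_nonneg (fun z => df_nonneg z)
      (df.integrable _)] at h1
    have h2 : ∀ᵐ z ∂(μ : Measure ℂ), z ∈ Metric.closedBall (0 : ℂ) 1 := by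
      rw [ae_iff]; exact hμ0
    have h3 : ∀ᵐ z ∂(μ : Measure ℂ), z ∈ Metric.sphere (0 : ℂ) 1 := by
      filter_upwards [h1, h2] with z hz1 hz2
      rw [mem_closedBall_zero_iff] at hz2
      rw [mem_sphere_zero_iff_norm]
      have hz3 : max 0 (1 - ‖z‖) = 0 := hz1
      have hz4 : 1 - ‖z‖ ≤ 0 := by rw [← hz3]; exact le_max_right _ _
      linarith
    rw [ae_iff] at h3
    exact h3
  · intro k
    have hfun : ∀ a : ℂ, (a * ∫ z, z ^ k ∂(μ : Measure ℂ)).re = (a * c k).re := by
      intro a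
      rw [← integral_tf hμ0 a k]
      refine key _ _ ?_
      have h1 : ∀ n, ∫ z, tf a k z ∂(m n) = (a * ∫ z, z ^ k ∂(m n)).re := fun n =>
        integral_tf (h0' n) a k
      simp_rw [h1]
      exact (Complex.continuous_re.tendsto _).comp ((hc k).const_mul a)
    apply Complex.ext
    · have := hfun 1; simpa using this
    · have := hfun (-Complex.I); simpa using this

end Pool.Agent.Lib.P46005
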