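import Mathlib
import Pool.Agent.Lib.P46005.AConv
import Pool.Agent.Lib.P46005.Exist

/-!
# The limit of the normalised point measures
-/

open MeasureTheory ProbabilityTheory Filter
open scoped ComplexConjugate NNReal ENNReal Topology BoundedContinuousFunction

namespace Pool.Agent.Lib.P46005

variable {E : Type} [MeasurableSpace E] {B : ℝ≥0 → E → ℂ} {Q : Measure E} {β : ℝ}

/-- The empirical measure, divided by its expected mass. -/
noncomputable def me (β : ℝ) (B : ℝ≥0 → E → ℂ) (t : ℝ) (ω : Om E) : Measure ℂ :=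
  ENNReal.ofReal (Real.exp (-(β * t))) • emp B t ω

omit [MeasurableSpace E] in
lemma lintegral_me (t : ℝ) (ω : Om E) (F : ℂ → ℝ≥0∞) :
    ∫⁻ z, F z ∂(me β B t ω) = ENNReal.ofReal (Real.exp (-(β * t))) * S B t ω F := by
  unfold me
  rw [lintegral_smul_measure, lintegral_emp, smul_eq_mul]

omit [MeasurableSpace E] in
lemma me_ball (hmem : ∀ t e, ‖B t e‖ < 1) (t : ℝ) (ω : Om E) :
    me β B t ω (Metric.ball (0 : ℂ) 1)ᶜ = 0 := by
  unfold me
  rw [Measure.smul_apply, smul_eq_mul]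
  have : emp B t ω (Metric.ball (0 : ℂ) 1)ᶜ = 0 := by
    unfold emp
    rw [Measure.sum_apply _ Metric.isOpen_ball.measurableSet.compl]
    rw [ENNReal.tsum_eq_zero]
    intro u
    rw [Measure.dirac_apply' _ Metric.isOpen_ball.measurableSet.compl]
    rw [Set.indicator_of_notMem]
    rw [Set.notMem_compl_iff, mem_ball_zero_iff]
    exact norm_pos_lt hmem _ _ _
  rw [this, mul_zero]

omit [MeasurableSpace E] in
lemma X_eq (t : ℝ) (ω : Om E) (F : ℂ → ℝ≥0∞) :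
    X B β t ω F = (∫⁻ z, F z ∂(me β B t ω)).toReal := by
  rw [lintegral_me, ENNReal.toReal_mul, ENNReal.toReal_ofReal (Real.exp_pos _).le]
  rfl

omit [MeasurableSpace E] in
lemma finite_me {t : ℝ} {ω : Om E} (h : (S B t ω fun _ => 1) < ⊤) :
    IsFiniteMeasure (me β B t ω) := by
  refine ⟨?_⟩
  rw [← lintegral_one, lintegral_me]
  exact ENNReal.mul_lt_top ENNReal.ofReal_lt_top h

/-- The harmonic test functions. -/
def Hh : Set (ℂ → ℝ≥0∞) :=
  {F | Measurable F ∧ ∃ g : ℂ → ℂ, DifferentiableOn ℂ g (Metric.ball 0 1) ∧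
    (∃ C : ℝ, ∀ z, ‖z‖ < 1 → ‖g z‖ ≤ C) ∧
    ∀ z, ‖z‖ < 1 → 0 ≤ (g z).re ∧ (g z).re ≤ 1 ∧ F z = ENNReal.ofReal (g z).re}

/-- The multiples of the square root of the Poisson kernel. -/
def Hy : Set (ℂ → ℝ≥0∞) :=
  {F | Measurable F ∧ ∃ a : ℝ≥0, ∀ z, ‖z‖ < 1 → F z = a * sy z}

lemma measurable_yP : Measurable yP := by
  unfold yP
  have h1 : Measurable fun z : ℂ => Complex.normSq z := Complex.continuous_normSq.measurable
  have h2 : Measurable fun z : ℂ => Complex.normSq (1 - z) :=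
    h1.comp (measurable_const.sub measurable_id)
  exact (measurable_const.sub h1).div h2

lemma measurable_sy : Measurable sy :=
  (measurable_yP.sqrt).ennreal_ofReal

lemma sy_mem : sy ∈ Hy := ⟨measurable_sy, 1, fun z _ => by simp⟩

/-- The test function `(Re (a * z^k) + 1) / 2`. -/
noncomputable def fk (a : ℂ) (k : ℕ) (z : ℂ) : ℝ≥0∞ := ENNReal.ofReal (((a * z ^ k).re + 1) / 2)

lemma measurable_fk (a : ℂ) (k : ℕ) : Measurable (fk a k) := by
  unfold fk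
  refine Measurable.ennreal_ofReal ?_
  exact (by fun_prop : Continuous fun z : ℂ => ((a * z ^ k).re + 1) / 2).measurable

lemma abs_re_pow_le {a : ℂ} (ha : ‖a‖ ≤ 1) (k : ℕ) {z : ℂ} (hz : ‖z‖ ≤ 1) :
    |(a * z ^ k).re| ≤ 1 := by
  refine (Complex.abs_re_le_norm _).trans ?_
  rw [norm_mul, norm_pow]
  exact mul_le_one₀ ha (by positivity) (pow_le_one₀ (norm_nonneg _) hz)

lemma fk_mem {a : ℂ} (ha : ‖a‖ ≤ 1) (k : ℕ) : fk a k ∈ Hh := by
  refine ⟨measurable_fk a k, fun z => (a * z ^ k + 1) / 2, ?_, ⟨1, ?_⟩, ?_⟩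
  · fun_prop
  · intro z hz
    rw [norm_div]
    have h1 : ‖a * z ^ k + 1‖ ≤ 2 := by
      refine (norm_add_le _ _).trans ?_
      rw [norm_mul, norm_pow, norm_one]
      have : ‖a‖ * ‖z‖ ^ k ≤ 1 := mul_le_one₀ ha (by positivity) (pow_le_one₀ (norm_nonneg _) hz.le)
      linarith
    rw [Complex.norm_ofNat]
    linarith
  · intro z hz
    have h1 := abs_le.1 (abs_re_pow_le ha k hz.le)
    have h2 : ((a * z ^ k + 1) / 2).re = ((a * z ^ k).re + 1) / 2 := by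
      rw [show (2 : ℂ) = ((2 : ℝ) : ℂ) by norm_num, Complex.div_ofReal_re, Complex.add_re,
        Complex.one_re]
    rw [h2]
    exact ⟨by linarith [h1.1], by linarith [h1.2], rfl⟩

lemma one_mem : (fun _ => 1 : ℂ → ℝ≥0∞) ∈ Hh :=
  ⟨measurable_const, fun _ => 1, differentiableOn_const _, ⟨1, by simp⟩, by simp⟩

lemma lintegral_fk {ν : Measure ℂ} [IsFiniteMeasure ν] (hν : ν (Metric.ball (0 : ℂ) 1)ᶜ = 0)
    {a : ℂ} (ha : ‖a‖ ≤ 1) (k : ℕ) :
    (∫⁻ z, fk a k z ∂ν).toReal = ((a * ∫ z, z ^ k ∂ν).re + (∫⁻ _, 1 ∂ν).toReal) / 2 := by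
  have hν' : ν (Metric.closedBall (0 : ℂ) 1)ᶜ = 0 :=
    measure_mono_null (Set.compl_subset_compl.2 Metric.ball_subset_closedBall) hν
  have hi : Integrable (fun z : ℂ => a * z ^ k) ν := (integrable_pow_of_ball hν' k).const_mul a
  have hir : Integrable (fun z : ℂ => (a * z ^ k).re) ν := hi.re
  have h0 : ∀ᵐ z ∂ν, z ∈ Metric.ball (0 : ℂ) 1 := by rw [ae_iff]; exact hν
  have h1 : ∫ z, ((a * z ^ k).re + 1) / 2 ∂ν = (∫⁻ z, fk a k z ∂ν).toReal := by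
    rw [integral_eq_lintegral_of_nonneg_ae]
    · rfl
    · filter_upwards [h0] with z hz
      rw [mem_ball_zero_iff] at hz
      have := abs_le.1 (abs_re_pow_le ha k hz.le)
      change 0 ≤ ((a * z ^ k).re + 1) / 2
      linarith [this.1]
    · exact (by fun_prop : Continuous fun z : ℂ => ((a * z ^ k).re + 1) / 2).aestronglyMeasurable
  rw [← h1, integral_div, integral_add hir (integrable_const _)]
  have h3 : ∫ z, (a * z ^ k).re ∂ν = (∫ z, a * z ^ k ∂ν).re := integral_re hi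
  rw [h3, integral_const_mul, integral_const, lintegral_one, smul_eq_mul, mul_one]
  rfl

lemma moment_eq {ν : Measure ℂ} [IsFiniteMeasure ν] (hν : ν (Metric.ball (0 : ℂ) 1)ᶜ = 0) (k : ℕ) :
    ∫ z, z ^ k ∂ν =
      ((2 * (∫⁻ z, fk 1 k z ∂ν).toReal - (∫⁻ _, 1 ∂ν).toReal : ℝ) : ℂ) +
      ((2 * (∫⁻ z, fk (-Complex.I) k z ∂ν).toReal - (∫⁻ _, 1 ∂ν).toReal : ℝ) : ℂ) *
        Complex.I := by
  rw [lintegral_fk hν (by simp) k, lintegral_fk hν (by simp) k]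
  apply Complex.ext
  · simp
    ring
  · simp
    ring

/-- Weak convergence on the closed disk to a measure carried by the circle. -/
structure IsLim (m : ℕ → Measure ℂ) (μ : Measure ℂ) : Prop where
  finm : ∀ n, m n Set.univ < ⊤
  ball : ∀ n, m n (Metric.ball (0 : ℂ) 1)ᶜ = 0
  fin : IsFiniteMeasure μ
  sphere : μ (Metric.sphere (0 : ℂ) 1)ᶜ = 0
  tends : ∀ G : ℂ → ℂ, ContinuousOn G (Metric.closedBall 0 1) →
    Tendsto (fun n => ∫ z, G z ∂(m n)) atTop (𝓝 (∫ z, G z ∂μ))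

section

variable [IsProbabilityMeasure Q] (hβ : 0 < β) (hB : Measurable fun p : ℝ≥0 × E => B p.1 p.2)
  (hmem : ∀ t e, ‖B t e‖ < 1) (hh : Cls1 B Q Hh) (hy : Cls B Q (-1 / 8) Hy)

include hβ hB hmem hh hy

theorem ae_isLim_shift {r : ℝ} (hr : 0 ≤ r) :
    ∀ᵐ ω ∂(bbmLaw β Q), ∃ μ, IsLim (fun n : ℕ => me β B n ω) μ ∧
      IsLim (fun n : ℕ => me β B (n - r) ω) μ := by
  have hI : ‖-Complex.I‖ ≤ 1 := by simp
  have h1I : ‖(1 : ℂ)‖ ≤ 1 := by simp
  have a1 : ∀ᵐ ω ∂(bbmLaw β Q), ∀ n : ℕ, (S B (n : ℝ) ω fun _ => 1) < ⊤ :=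
    ae_all_iff.2 fun n => ae_S_lt_top hβ hB hmem _
  have a2 : ∀ᵐ ω ∂(bbmLaw β Q), ∀ n : ℕ, (S B (n - r : ℝ) ω fun _ => 1) < ⊤ :=
    ae_all_iff.2 fun n => ae_S_lt_top hβ hB hmem _
  have a3 := ae_tendsto_X hβ hB hmem hh one_mem
  have a4 : ∀ᵐ ω ∂(bbmLaw β Q), ∀ k, ∃ l, Tendsto (fun n : ℕ => X B β n ω (fk 1 k)) atTop (𝓝 l) :=
    ae_all_iff.2 fun k => ae_tendsto_X hβ hB hmem hh (fk_mem h1I k)
  have a5 : ∀ᵐ ω ∂(bbmLaw β Q), ∀ k, ∃ l,
      Tendsto (fun n : ℕ => X B β n ω (fk (-Complex.I) k)) atTop (𝓝 l) :=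
    ae_all_iff.2 fun k => ae_tendsto_X hβ hB hmem hh (fk_mem hI k)
  have a6 := ae_tendsto_shift hβ hB hmem hh one_mem hr
  have a7 : ∀ᵐ ω ∂(bbmLaw β Q), ∀ k,
      Tendsto (fun n : ℕ => X B β n ω (fk 1 k) - X B β (n - r) ω (fk 1 k)) atTop (𝓝 0) :=
    ae_all_iff.2 fun k => ae_tendsto_shift hβ hB hmem hh (fk_mem h1I k) hr
  have a8 : ∀ᵐ ω ∂(bbmLaw β Q), ∀ k,
      Tendsto (fun n : ℕ => X B β n ω (fk (-Complex.I) k) -
        X B β (n - r) ω (fk (-Complex.I) k)) atTop (𝓝 0) :=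
    ae_all_iff.2 fun k => ae_tendsto_shift hβ hB hmem hh (fk_mem hI k) hr
  have hsy0 : sy 0 ≠ ⊤ := ENNReal.ofReal_ne_top
  have a9 := ae_tendsto_decay hβ hB hmem (by norm_num : (-1 / 8 : ℝ) < 0) hy sy_mem hsy0 le_rfl
  have a10 := ae_tendsto_decay hβ hB hmem (by norm_num : (-1 / 8 : ℝ) < 0) hy sy_mem hsy0 hr
  filter_upwards [a1, a2, a3, a4, a5, a6, a7, a8, a9, a10] with ω b1 b2 b3 b4 b5 b6 b7 b8 b9 b10
  have i1 : ∀ n : ℕ, IsFiniteMeasure (me β B (n : ℝ) ω) := fun n => finite_me (b1 n)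
  have i2 : ∀ n : ℕ, IsFiniteMeasure (me β B (n - r : ℝ) ω) := fun n => finite_me (b2 n)
  obtain ⟨l, hl⟩ := b3
  choose p hp using b4
  choose q hq using b5
  set c : ℕ → ℂ := fun k => ((2 * p k - l : ℝ) : ℂ) + ((2 * q k - l : ℝ) : ℂ) * Complex.I with hc
  have gen : ∀ (x : ℕ → ℝ), (∀ n : ℕ, IsFiniteMeasure (me β B (x n) ω)) →
      Tendsto (fun n => X B β (x n) ω fun _ => 1) atTop (𝓝 l) →
      (∀ k, Tendsto (fun n => X B β (x n) ω (fk 1 k)) atTop (𝓝 (p k))) →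
      (∀ k, Tendsto (fun n => X B β (x n) ω (fk (-Complex.I) k)) atTop (𝓝 (q k))) →
      ∀ k, Tendsto (fun n => ∫ z, z ^ k ∂(me β B (x n) ω)) atTop (𝓝 (c k)) := by
    intro x hx e1 e2 e3 k
    have h1 : ∀ n, ∫ z, z ^ k ∂(me β B (x n) ω) =
        ((2 * X B β (x n) ω (fk 1 k) - X B β (x n) ω (fun _ => 1) : ℝ) : ℂ) +
        ((2 * X B β (x n) ω (fk (-Complex.I) k) - X B β (x n) ω (fun _ => 1) : ℝ) : ℂ) *
          Complex.I := by
      intro n
      have := hx n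
      rw [moment_eq (me_ball hmem _ _) k, X_eq, X_eq, X_eq]
    simp_rw [h1]
    refine Tendsto.add ?_ (Tendsto.mul_const _ ?_)
    · exact (Complex.continuous_ofReal.tendsto _).comp (((e2 k).const_mul 2).sub e1)
    · exact (Complex.continuous_ofReal.tendsto _).comp (((e3 k).const_mul 2).sub e1)
  have m1 := gen (fun n => (n : ℝ)) i1 hl hp hq
  have m2 := gen (fun n => (n - r : ℝ)) i2 (by simpa using hl.sub b6)
    (fun k => by simpa using (hp k).sub (b7 k)) (fun k => by simpa using (hq k).sub (b8 k))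
  have d1 : Tendsto (fun n : ℕ => ∫⁻ z, sy z ∂(me β B n ω)) atTop (𝓝 0) := by
    simp_rw [lintegral_me]
    simpa using b9
  have d2 : Tendsto (fun n : ℕ => ∫⁻ z, sy z ∂(me β B (n - r) ω)) atTop (𝓝 0) := by
    simp_rw [lintegral_me]
    simpa using b10
  obtain ⟨μ, hμf, hμs, hμm⟩ := exists_limit (fun n => me_ball hmem _ _) d1 m1
  have m1' : ∀ k, Tendsto (fun n : ℕ => ∫ z, z ^ k ∂(me β B n ω)) atTop
      (𝓝 (∫ z, z ^ k ∂μ)) := fun k => by rw [hμm k]; exact m1 k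
  have m2' : ∀ k, Tendsto (fun n : ℕ => ∫ z, z ^ k ∂(me β B (n - r) ω)) atTop
      (𝓝 (∫ z, z ^ k ∂μ)) := fun k => by rw [hμm k]; exact m2 k
  refine ⟨μ, ⟨fun n => measure_lt_top _ _, fun n => me_ball hmem _ _, hμf, hμs, ?_⟩,
    ⟨fun n => measure_lt_top _ _, fun n => me_ball hmem _ _, hμf, hμs, ?_⟩⟩
  · exact fun G hG => weak_of_moments (fun n => me_ball hmem _ _) d1 hμs m1' hG
  · exact fun G hG => weak_of_moments (fun n => me_ball hmem _ _) d2 hμs m2' hG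

end

end Pool.Agent.Lib.P46005
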