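import Mathlib
import Pool.Agent.Lib.P46005.Dynkin
import Pool.Agent.Lib.P46005.Limit

/-!
# The mean value property of bounded harmonic functions
-/

open MeasureTheory ProbabilityTheory Filter
open scoped ComplexConjugate NNReal ENNReal Topology

namespace Pool.Agent.Lib.P46005

lemma jet_holo {g : ℂ → ℂ} (hg : DifferentiableOn ℂ g (Metric.ball 0 1)) (v : ℂ) {z : ℂ}
    (hz : ‖z‖ < 1) : Jet (fun s : ℝ => (g (z + s * v)).re) (g z).re (deriv g z * v).re
      (deriv (deriv g) z * v * v).re := by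
  have hopen : IsOpen (Metric.ball (0 : ℂ) 1) := Metric.isOpen_ball
  have hg' : DifferentiableOn ℂ (deriv g) (Metric.ball 0 1) := hg.deriv hopen
  have hlin : ∀ w : ℂ, HasDerivAt (fun w : ℂ => z + w * v) v w := fun w => by
    have := ((hasDerivAt_id w).mul_const v).const_add z
    simpa using this
  have hd : ∀ s : ℝ, z + (s : ℂ) * v ∈ Metric.ball (0 : ℂ) 1 →
      HasDerivAt (fun s : ℝ => (g (z + s * v)).re) (deriv g (z + s * v) * v).re s := by
    intro s hs
    have h1 : HasDerivAt g (deriv g (z + s * v)) (z + (s : ℂ) * v) :=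
      (hg.differentiableAt (hopen.mem_nhds hs)).hasDerivAt
    have h2 : HasDerivAt (fun w : ℂ => g (z + w * v)) (deriv g (z + s * v) * v) (s : ℂ) :=
      h1.comp (s : ℂ) (hlin s)
    exact h2.real_of_complex
  refine ⟨by simp, fun s => (deriv g (z + s * v) * v).re, ?_, by simp, ?_⟩
  · have hc : ContinuousAt (fun s : ℝ => z + (s : ℂ) * v) 0 := by fun_prop
    have hmem : Metric.ball (0 : ℂ) 1 ∈ 𝓝 (z + ((0 : ℝ) : ℂ) * v) := by
      refine hopen.mem_nhds ?_
      rw [mem_ball_zero_iff]; simpa using hz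
    filter_upwards [hc.eventually hmem] with s hs
    exact hd s hs
  · have hz' : z + ((0 : ℝ) : ℂ) * v ∈ Metric.ball (0 : ℂ) 1 := by
      rw [mem_ball_zero_iff]; simpa using hz
    have hd2 : ∀ s : ℝ, z + (s : ℂ) * v ∈ Metric.ball (0 : ℂ) 1 →
        HasDerivAt (fun s : ℝ => (deriv g (z + s * v) * v).re)
          (deriv (deriv g) (z + s * v) * v * v).re s := by
      intro s hs
      have h1 : HasDerivAt (deriv g) (deriv (deriv g) (z + s * v)) (z + (s : ℂ) * v) :=
        (hg'.differentiableAt (hopen.mem_nhds hs)).hasDerivAt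
      have h2 : HasDerivAt (fun w : ℂ => deriv g (z + w * v))
          (deriv (deriv g) (z + s * v) * v) (s : ℂ) :=
        HasDerivAt.comp (h₂ := deriv g) (h := fun w : ℂ => z + w * v) (s : ℂ) h1 (hlin s)
      exact (h2.mul_const v).real_of_complex
    have h3 := hd2 0 hz'
    simpa using h3

lemma grad_holo {g : ℂ → ℂ} (hg : DifferentiableOn ℂ g (Metric.ball 0 1)) {C : ℝ}
    (hC : ∀ z, ‖z‖ < 1 → ‖g z‖ ≤ C) {z : ℂ} (hz : ‖z‖ < 1) :
    (1 - ‖z‖ ^ 2) * ‖deriv g z‖ ≤ 4 * C := by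
  have hR : 0 < (1 - ‖z‖) / 2 := by linarith
  have hsub : Metric.closedBall z ((1 - ‖z‖) / 2) ⊆ Metric.ball (0 : ℂ) 1 := by
    intro w hw
    rw [mem_closedBall_iff_norm] at hw
    rw [mem_ball_zero_iff]
    have : ‖w‖ ≤ ‖w - z‖ + ‖z‖ := by
      calc ‖w‖ = ‖(w - z) + z‖ := by rw [sub_add_cancel]
        _ ≤ _ := norm_add_le _ _
    linarith
  have hd : DiffContOnCl ℂ g (Metric.ball z ((1 - ‖z‖) / 2)) := by
    refine DifferentiableOn.diffContOnCl ?_
    rw [closure_ball z hR.ne']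
    exact hg.mono hsub
  have h1 := Complex.norm_deriv_le_of_forall_mem_sphere_norm_le hR hd (C := C) (fun w hw =>
    hC w (by rw [← mem_ball_zero_iff]; exact hsub (Metric.sphere_subset_closedBall hw)))
  have hC0 : 0 ≤ C := (norm_nonneg _).trans (hC 0 (by simp))
  have h2 : ‖deriv g z‖ * ((1 - ‖z‖) / 2) ≤ C := by rwa [le_div_iff₀ hR] at h1
  have h3 : 1 - ‖z‖ ^ 2 ≤ 4 * ((1 - ‖z‖) / 2) := by nlinarith [norm_nonneg z]
  calc (1 - ‖z‖ ^ 2) * ‖deriv g z‖ ≤ 4 * ((1 - ‖z‖) / 2) * ‖deriv g z‖ :=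
        mul_le_mul_of_nonneg_right h3 (norm_nonneg _)
    _ = 4 * (‖deriv g z‖ * ((1 - ‖z‖) / 2)) := by ring
    _ ≤ 4 * C := by linarith

variable {E : Type} [MeasurableSpace E] {B : ℝ≥0 → E → ℂ} {Q : Measure E}
  [IsProbabilityMeasure Q]

theorem harmonic_mean (h : IsHypBM B Q) {g : ℂ → ℂ}
    (hg : DifferentiableOn ℂ g (Metric.ball 0 1)) {C : ℝ} (hC : ∀ z, ‖z‖ < 1 → ‖g z‖ ≤ C)
    (t : ℝ≥0) : ∫ e, (g (B t e)).re ∂Q = (g 0).re := by
  have hC0 : 0 ≤ C := (norm_nonneg _).trans (hC 0 (by simp))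
  have hsm : ContDiffOn ℝ (⊤ : ℕ∞) (fun z => (g z).re) (Metric.ball 0 1) := by
    have h1 : ContDiffOn ℂ (⊤ : ℕ∞) g (Metric.ball 0 1) := hg.contDiffOn Metric.isOpen_ball
    exact Complex.reCLM.contDiff.comp_contDiffOn (h1.restrict_scalars ℝ)
  have j1 : ∀ z : ℂ, ‖z‖ < 1 → Jet (fun s : ℝ => (g (z + s)).re) (g z).re (deriv g z).re
      (deriv (deriv g) z).re := fun z hz => by
    have := jet_holo hg 1 hz
    simpa using this
  have j2 : ∀ z : ℂ, ‖z‖ < 1 → Jet (fun s : ℝ => (g (z + s * Complex.I)).re) (g z).re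
      (deriv g z * Complex.I).re (deriv (deriv g) z * Complex.I * Complex.I).re := fun z hz =>
    jet_holo hg Complex.I hz
  have hgrad : ∀ z : ℂ, ‖z‖ < 1 → ∀ v : ℂ, ‖v‖ = 1 →
      (1 - ‖z‖ ^ 2) * |(deriv g z * v).re| ≤ 4 * C := by
    intro z hz v hv
    refine le_trans ?_ (grad_holo hg hC hz)
    refine mul_le_mul_of_nonneg_left ?_ (by nlinarith [norm_nonneg z])
    refine (Complex.abs_re_le_norm _).trans ?_
    rw [norm_mul, hv, mul_one]
  have h1 := dynkin h hsm (L := fun _ => 0) (C := 4 * C)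
    (fun z hz => (Complex.abs_re_le_norm _).trans ((hC z hz).trans (by linarith)))
    (fun z hz => by
      refine ⟨?_, by simp; positivity⟩
      rw [hypLap_eq (j1 z hz) (j2 z hz)]
      have : deriv (deriv g) z * Complex.I * Complex.I = -deriv (deriv g) z := by
        rw [mul_assoc, Complex.I_mul_I]; ring
      rw [this]
      simp)
    (fun z hz => by
      rw [(j1 z hz).deriv_eq]
      have := hgrad z hz 1 (by simp)
      rwa [mul_one] at this)
    (fun z hz => by
      rw [(j2 z hz).deriv_eq]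
      exact hgrad z hz Complex.I (by simp)) t
  rw [h1]
  simp

theorem cls_harm (h : IsHypBM B Q) : Cls1 B Q Hh where
  meas := fun F hF => hF.1
  closed := by
    rintro F ⟨hFm, g, hg, ⟨C, hC⟩, hFg⟩ z hz
    refine ⟨hFm.comp ?_, fun w => g (moveTo z w), ?_, ⟨C, fun w hw => hC _ (norm_moveTo_lt hz hw)⟩,
      fun w hw => hFg _ (norm_moveTo_lt hz hw)⟩
    · have h : Measurable (Function.uncurry moveTo) := measurable_moveTo
      exact h.of_uncurry_left
    · refine hg.comp (differentiableOn_moveTo hz) fun w hw => ?_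
      rw [mem_ball_zero_iff] at hw ⊢
      exact norm_moveTo_lt hz hw
  mean := by
    rintro F ⟨hFm, g, hg, ⟨C, hC⟩, hFg⟩ t
    have h1 := harmonic_mean h hg hC t
    have h2 : ∀ e, (g (B t e)).re = (F (B t e)).toReal := fun e => by
      have := hFg _ (h.mem t e)
      rw [this.2.2, ENNReal.toReal_ofReal this.1]
    have h3 : Measurable fun e => (g (B t e)).re := by
      simp_rw [h2]
      exact (hFm.comp (h.meas t)).ennreal_toReal
    have hi : Integrable (fun e => (g (B t e)).re) Q :=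
      integrable_of_bound Q h3 (C := C) fun e =>
        (Complex.abs_re_le_norm _).trans (hC _ (h.mem t e))
    have h4 : ∀ e, F (B t e) = ENNReal.ofReal (g (B t e)).re := fun e => (hFg _ (h.mem t e)).2.2
    simp_rw [h4]
    rw [← ofReal_integral_eq_lintegral_ofReal hi (ae_of_all _ fun e => (hFg _ (h.mem t e)).1), h1,
      (hFg 0 (by simp)).2.2]
    simp
  le_one := by
    rintro F ⟨hFm, g, hg, ⟨C, hC⟩, hFg⟩ w hw
    rw [(hFg w hw).2.2]
    rw [← ENNReal.ofReal_one]
    exact ENNReal.ofReal_le_ofReal (hFg w hw).2.1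

end Pool.Agent.Lib.P46005
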