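import Mathlib
import Pool.Agent.Lib.P46005.HarmCls

/-!
# The law of the logarithm of the Poisson kernel along the motion
-/

open MeasureTheory ProbabilityTheory Filter
open scoped ComplexConjugate NNReal ENNReal Topology

namespace Pool.Agent.Lib.P46005

/-- The logarithm of the Poisson kernel. -/
noncomputable def lY (z : ℂ) : ℝ := Real.log (yP z)

lemma measurable_lY : Measurable lY := Real.measurable_log.comp measurable_yP

lemma P_pos {z : ℂ} (hz : ‖z‖ < 1) : 0 < 1 - ‖z‖ ^ 2 := by nlinarith [norm_nonneg z]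

lemma W_pos {z : ℂ} (hz : ‖z‖ < 1) : 0 < ‖1 - z‖ ^ 2 := by
  have : ‖1 - z‖ ≠ 0 := norm_ne_zero_iff.2 (one_sub_ne hz)
  positivity

lemma yP_eq (z : ℂ) : yP z = (1 - ‖z‖ ^ 2) / ‖1 - z‖ ^ 2 := by
  unfold yP
  rw [Complex.normSq_eq_norm_sq, Complex.normSq_eq_norm_sq]

lemma lY_eq {z : ℂ} (hz : ‖z‖ < 1) : lY z = Real.log (1 - ‖z‖ ^ 2) - Real.log (‖1 - z‖ ^ 2) := by
  unfold lY
  rw [yP_eq, Real.log_div (P_pos hz).ne' (W_pos hz).ne']

lemma jet_log {A C D : ℝ} (hA : 0 < A) : Jet (fun s => Real.log (A + C * s + D * s ^ 2))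
    (Real.log A) (A⁻¹ * C) (-(A ^ 2)⁻¹ * C ^ 2 + A⁻¹ * (2 * D)) := by
  refine (Jet.poly A C D).comp_at (φ := Real.log) (φ1 := fun x => x⁻¹) (φ2 := -(A ^ 2)⁻¹) ?_ ?_
  · filter_upwards [lt_mem_nhds hA] with x hx
    exact Real.hasDerivAt_log hx.ne'
  · exact hasDerivAt_inv hA.ne'

lemma norm_sq_slice_one' (z : ℂ) (s : ℝ) :
    ‖1 - (z + s)‖ ^ 2 = ‖1 - z‖ ^ 2 + (-(2 * (1 - z.re))) * s + 1 * s ^ 2 := by
  rw [← Complex.normSq_eq_norm_sq, ← Complex.normSq_eq_norm_sq, Complex.normSq_apply,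
    Complex.normSq_apply]
  simp
  ring

lemma norm_sq_slice_I' (z : ℂ) (s : ℝ) :
    ‖1 - (z + s * Complex.I)‖ ^ 2 = ‖1 - z‖ ^ 2 + (2 * z.im) * s + 1 * s ^ 2 := by
  rw [← Complex.normSq_eq_norm_sq, ← Complex.normSq_eq_norm_sq, Complex.normSq_apply,
    Complex.normSq_apply]
  simp
  ring

lemma near {z : ℂ} (hz : ‖z‖ < 1) (v : ℂ) : ∀ᶠ s : ℝ in 𝓝 0, ‖z + s * v‖ < 1 := by
  have hc : ContinuousAt (fun s : ℝ => ‖z + (s : ℂ) * v‖) 0 := by fun_prop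
  have h1 : Set.Iio (1 : ℝ) ∈ 𝓝 ‖z + ((0 : ℝ) : ℂ) * v‖ :=
    isOpen_Iio.mem_nhds (by simpa using hz)
  exact hc.eventually h1

lemma jet_lY_one {z : ℂ} (hz : ‖z‖ < 1) : Jet (fun s : ℝ => lY (z + s)) (lY z)
    ((1 - ‖z‖ ^ 2)⁻¹ * (-(2 * z.re)) - (‖1 - z‖ ^ 2)⁻¹ * (-(2 * (1 - z.re))))
    ((-((1 - ‖z‖ ^ 2) ^ 2)⁻¹ * (-(2 * z.re)) ^ 2 + (1 - ‖z‖ ^ 2)⁻¹ * (2 * (-1))) -
      (-((‖1 - z‖ ^ 2) ^ 2)⁻¹ * (-(2 * (1 - z.re))) ^ 2 + (‖1 - z‖ ^ 2)⁻¹ * (2 * 1))) := by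
  have h1 := (jet_log (C := -(2 * z.re)) (D := -1) (P_pos hz)).sub
    (jet_log (C := -(2 * (1 - z.re))) (D := 1) (W_pos hz))
  have h2 := h1.congr (k := fun s : ℝ => lY (z + s)) ?_
  · exact h2.cast (lY_eq hz).symm rfl rfl
  · filter_upwards [near hz 1] with s hs
    rw [mul_one] at hs
    rw [lY_eq hs, norm_sq_slice_one, norm_sq_slice_one']
    congr 2
    ring

lemma jet_lY_I {z : ℂ} (hz : ‖z‖ < 1) : Jet (fun s : ℝ => lY (z + s * Complex.I)) (lY z)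
    ((1 - ‖z‖ ^ 2)⁻¹ * (-(2 * z.im)) - (‖1 - z‖ ^ 2)⁻¹ * (2 * z.im))
    ((-((1 - ‖z‖ ^ 2) ^ 2)⁻¹ * (-(2 * z.im)) ^ 2 + (1 - ‖z‖ ^ 2)⁻¹ * (2 * (-1))) -
      (-((‖1 - z‖ ^ 2) ^ 2)⁻¹ * (2 * z.im) ^ 2 + (‖1 - z‖ ^ 2)⁻¹ * (2 * 1))) := by
  have h1 := (jet_log (C := -(2 * z.im)) (D := -1) (P_pos hz)).sub
    (jet_log (C := 2 * z.im) (D := 1) (W_pos hz))
  have h2 := h1.congr (k := fun s : ℝ => lY (z + s * Complex.I)) ?_
  · exact h2.cast (lY_eq hz).symm rfl rfl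
  · filter_upwards [near hz Complex.I] with s hs
    rw [lY_eq hs, norm_sq_slice_I, norm_sq_slice_I']
    congr 2
    ring

lemma grad_identity {P W x y : ℝ} (hP : 0 < P) (hW : 0 < W) (h1 : P = 1 - x ^ 2 - y ^ 2)
    (h2 : W = (1 - x) ^ 2 + y ^ 2) :
    P ^ 2 / 4 * ((P⁻¹ * (-(2 * x)) - W⁻¹ * (-(2 * (1 - x)))) ^ 2 +
      (P⁻¹ * (-(2 * y)) - W⁻¹ * (2 * y)) ^ 2) = 1 := by
  have hP' := hP.ne'
  have hW' := hW.ne'
  field_simp
  have hP2 : P = 2 * (1 - x) - W := by rw [h1, h2]; ring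
  have hy : y ^ 2 = W - (1 - x) ^ 2 := by rw [h2]; ring
  have e : W * W * 4 - ((-(2 * x) * W + P * (2 * (1 - x))) ^ 2 +
    (-(2 * y) * W - P * (2 * y)) ^ 2) = 0 := by
    have e2 : (-(2 * y) * W - P * (2 * y)) ^ 2 = 4 * y ^ 2 * (W + P) ^ 2 := by ring
    rw [e2, hy, hP2]
    ring
  nlinarith [e]

lemma lap_identity {P W x y : ℝ} (hP : 0 < P) (hW : 0 < W) (h1 : P = 1 - x ^ 2 - y ^ 2)
    (h2 : W = (1 - x) ^ 2 + y ^ 2) :
    P ^ 2 / 4 * ((-(P ^ 2)⁻¹ * (-(2 * x)) ^ 2 + P⁻¹ * (2 * (-1))) -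
      (-(W ^ 2)⁻¹ * (-(2 * (1 - x))) ^ 2 + W⁻¹ * (2 * 1)) +
      ((-(P ^ 2)⁻¹ * (-(2 * y)) ^ 2 + P⁻¹ * (2 * (-1))) -
      (-(W ^ 2)⁻¹ * (2 * y) ^ 2 + W⁻¹ * (2 * 1)))) = -1 := by
  have hP' := hP.ne'
  have hW' := hW.ne'
  have hx : x ^ 2 = 1 - P - y ^ 2 := by rw [h1]; ring
  have hy : (1 - x) ^ 2 = W - y ^ 2 := by rw [h2]; ring
  have e1 : (-(2 * x)) ^ 2 = 4 * (1 - P - y ^ 2) := by rw [← hx]; ring
  have e2 : (-(2 * (1 - x))) ^ 2 = 4 * (W - y ^ 2) := by rw [← hy]; ring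
  rw [e1, e2]
  field_simp
  ring

section phi

variable {φ φ1 φ2 : ℝ → ℝ} (hφ : ∀ x, HasDerivAt φ (φ1 x) x) (hφ1 : ∀ x, HasDerivAt φ1 (φ2 x) x)

include hφ hφ1

lemma hypLap_phi {z : ℂ} (hz : ‖z‖ < 1) :
    hypLap (fun z => φ (lY z)) z = φ2 (lY z) - φ1 (lY z) := by
  have h1 := (jet_lY_one hz).comp hφ hφ1
  have h2 := (jet_lY_I hz).comp hφ hφ1
  rw [hypLap_eq h1 h2]
  have hP : 1 - ‖z‖ ^ 2 = 1 - z.re ^ 2 - z.im ^ 2 := by
    rw [← Complex.normSq_eq_norm_sq, Complex.normSq_apply]; ring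
  have hW : ‖1 - z‖ ^ 2 = (1 - z.re) ^ 2 + z.im ^ 2 := by
    rw [← Complex.normSq_eq_norm_sq, Complex.normSq_apply]; simp; ring
  have g := grad_identity (P_pos hz) (W_pos hz) hP hW
  have l := lap_identity (P_pos hz) (W_pos hz) hP hW
  set b1 := (1 - ‖z‖ ^ 2)⁻¹ * (-(2 * z.re)) - (‖1 - z‖ ^ 2)⁻¹ * (-(2 * (1 - z.re)))
  set b2 := (1 - ‖z‖ ^ 2)⁻¹ * (-(2 * z.im)) - (‖1 - z‖ ^ 2)⁻¹ * (2 * z.im)
  set c1 := (-((1 - ‖z‖ ^ 2) ^ 2)⁻¹ * (-(2 * z.re)) ^ 2 + (1 - ‖z‖ ^ 2)⁻¹ * (2 * (-1))) -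
      (-((‖1 - z‖ ^ 2) ^ 2)⁻¹ * (-(2 * (1 - z.re))) ^ 2 + (‖1 - z‖ ^ 2)⁻¹ * (2 * 1))
  set c2 := (-((1 - ‖z‖ ^ 2) ^ 2)⁻¹ * (-(2 * z.im)) ^ 2 + (1 - ‖z‖ ^ 2)⁻¹ * (2 * (-1))) -
      (-((‖1 - z‖ ^ 2) ^ 2)⁻¹ * (2 * z.im) ^ 2 + (‖1 - z‖ ^ 2)⁻¹ * (2 * 1))
  calc (1 - ‖z‖ ^ 2) ^ 2 / 4 * (φ2 (lY z) * b1 ^ 2 + φ1 (lY z) * c1 +
        (φ2 (lY z) * b2 ^ 2 + φ1 (lY z) * c2)) =
        φ2 (lY z) * ((1 - ‖z‖ ^ 2) ^ 2 / 4 * (b1 ^ 2 + b2 ^ 2)) +
        φ1 (lY z) * ((1 - ‖z‖ ^ 2) ^ 2 / 4 * (c1 + c2)) := by ring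
    _ = φ2 (lY z) - φ1 (lY z) := by rw [g, l]; ring

lemma grad_phi {z : ℂ} (hz : ‖z‖ < 1) :
    (1 - ‖z‖ ^ 2) * |deriv (fun s : ℝ => φ (lY (z + s))) 0| ≤ 2 * |φ1 (lY z)| ∧
    (1 - ‖z‖ ^ 2) * |deriv (fun s : ℝ => φ (lY (z + s * Complex.I))) 0| ≤ 2 * |φ1 (lY z)| := by
  have h1 := (jet_lY_one hz).comp hφ hφ1
  have h2 := (jet_lY_I hz).comp hφ hφ1
  rw [h1.deriv_eq, h2.deriv_eq]
  have hP : 1 - ‖z‖ ^ 2 = 1 - z.re ^ 2 - z.im ^ 2 := by
    rw [← Complex.normSq_eq_norm_sq, Complex.normSq_apply]; ring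
  have hW : ‖1 - z‖ ^ 2 = (1 - z.re) ^ 2 + z.im ^ 2 := by
    rw [← Complex.normSq_eq_norm_sq, Complex.normSq_apply]; simp; ring
  have g := grad_identity (P_pos hz) (W_pos hz) hP hW
  set b1 := (1 - ‖z‖ ^ 2)⁻¹ * (-(2 * z.re)) - (‖1 - z‖ ^ 2)⁻¹ * (-(2 * (1 - z.re)))
  set b2 := (1 - ‖z‖ ^ 2)⁻¹ * (-(2 * z.im)) - (‖1 - z‖ ^ 2)⁻¹ * (2 * z.im)
  have hPp := P_pos hz
  set P := 1 - ‖z‖ ^ 2
  have k1 : P * |b1| ≤ 2 := by
    rw [← abs_of_pos hPp, ← abs_mul]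
    refine abs_le_of_sq_le_sq ?_ (by norm_num)
    nlinarith [sq_nonneg (P * b2)]
  have k2 : P * |b2| ≤ 2 := by
    rw [← abs_of_pos hPp, ← abs_mul]
    refine abs_le_of_sq_le_sq ?_ (by norm_num)
    nlinarith [sq_nonneg (P * b1)]
  constructor
  · rw [abs_mul]
    nlinarith [abs_nonneg (φ1 (lY z))]
  · rw [abs_mul]
    nlinarith [abs_nonneg (φ1 (lY z))]

end phi

lemma contDiffOn_lY : ContDiffOn ℝ (⊤ : ℕ∞) lY (Metric.ball 0 1) := by
  intro z hz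
  rw [mem_ball_zero_iff] at hz
  refine ContDiffAt.contDiffWithinAt ?_
  have h1 : ContDiffAt ℝ (⊤ : ℕ∞) (fun z : ℂ => (1 - ‖z‖ ^ 2) / ‖1 - z‖ ^ 2) z := by
    have a1 : ContDiff ℝ (⊤ : ℕ∞) fun z : ℂ => ‖z‖ ^ 2 := contDiff_norm_sq ℝ
    have a2 : ContDiff ℝ (⊤ : ℕ∞) fun z : ℂ => ‖1 - z‖ ^ 2 :=
      a1.comp (contDiff_const.sub contDiff_id)
    exact (contDiff_const.sub a1).contDiffAt.div a2.contDiffAt (W_pos hz).ne'
  have h2 : lY = fun z => Real.log ((1 - ‖z‖ ^ 2) / ‖1 - z‖ ^ 2) := by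
    funext w; unfold lY; rw [yP_eq]
  rw [h2]
  exact h1.log (div_pos (P_pos hz) (W_pos hz)).ne'

variable {E : Type} [MeasurableSpace E] {B : ℝ≥0 → E → ℂ} {Q : Measure E}
  [IsProbabilityMeasure Q]

lemma dynkin_phi (h : IsHypBM B Q) {φ φ1 φ2 : ℝ → ℝ} (hs : ContDiff ℝ (⊤ : ℕ∞) φ)
    (hφ : ∀ x, HasDerivAt φ (φ1 x) x) (hφ1 : ∀ x, HasDerivAt φ1 (φ2 x) x) {C : ℝ}
    (h0 : ∀ x, |φ x| ≤ C) (h1 : ∀ x, |φ1 x| ≤ C) (h2 : ∀ x, |φ2 x| ≤ C) (t : ℝ≥0) :
    ∫ e, φ (lY (B t e)) ∂Q = φ 0 + ∫ s in (0 : ℝ)..t,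
      ∫ e, 1 / 2 * (φ2 (lY (B s.toNNReal e)) - φ1 (lY (B s.toNNReal e))) ∂Q := by
  have hC : 0 ≤ C := (abs_nonneg _).trans (h0 0)
  have hsm : ContDiffOn ℝ (⊤ : ℕ∞) (fun z => φ (lY z)) (Metric.ball 0 1) :=
    hs.comp_contDiffOn contDiffOn_lY
  have h3 := dynkin h hsm (L := fun z => φ2 (lY z) - φ1 (lY z)) (C := 2 * C)
    (fun z _ => (h0 _).trans (by linarith))
    (fun z hz => ⟨hypLap_phi hφ hφ1 hz, by
      refine (abs_sub _ _).trans ?_
      linarith [h1 (lY z), h2 (lY z)]⟩)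
    (fun z hz => (grad_phi hφ hφ1 hz).1.trans (by linarith [h1 (lY z)]))
    (fun z hz => (grad_phi hφ hφ1 hz).2.trans (by linarith [h1 (lY z)])) t
  rw [h3]
  have : lY 0 = 0 := by unfold lY; rw [yP_zero, Real.log_one]
  rw [this]

/-- A bounded solution of the linear integral equation is an exponential. -/
lemma exp_of_integral_eq {ψ : ℝ → ℂ} {κ : ℂ} (h0 : ∀ t, t ≤ 0 → ψ t = 1)
    (hm : Measurable ψ) {C : ℝ} (hb : ∀ t, ‖ψ t‖ ≤ C)
    (h : ∀ t, 0 ≤ t → ψ t = 1 + κ * ∫ s in (0 : ℝ)..t, ψ s) {t : ℝ} (ht : 0 ≤ t) :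
    ψ t = Complex.exp (κ * t) := by
  have hint : ∀ a b : ℝ, IntervalIntegrable ψ volume a b := fun a b =>
    (intervalIntegrable_const (c := C)).mono_fun' hm.aestronglyMeasurable
      (ae_of_all _ fun s => hb s)
  set Ψ : ℝ → ℂ := fun t => ∫ s in (0 : ℝ)..t, ψ s with hΨ
  have hΨc : Continuous Ψ := intervalIntegral.continuous_primitive hint 0
  have hcont : Continuous ψ := by
    have h1 : ψ = fun t => 1 + κ * Ψ (max t 0) := by
      funext s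
      rcases le_total 0 s with hs | hs
      · rw [max_eq_left hs]; exact h s hs
      · rw [max_eq_right hs, h0 s hs, hΨ]; simp
    rw [h1]
    fun_prop
  have hd : ∀ s, HasDerivAt Ψ (ψ s) s := fun s =>
    intervalIntegral.integral_hasDerivAt_right (hint _ _)
      (hcont.stronglyMeasurableAtFilter _ _) hcont.continuousAt
  have hconst := constant_of_has_deriv_right_zero (a := 0) (b := t)
    (f := fun s => Complex.exp (-(κ * s)) * (1 + κ * Ψ s)) (by fun_prop) (fun s hs => by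
      have e1 : HasDerivAt (fun s : ℝ => -(κ * (s : ℂ))) (-κ) s := by
        have := (Complex.ofRealCLM.hasDerivAt (x := s)).const_mul (-κ)
        simpa using this
      have e2 : HasDerivAt (fun s : ℝ => 1 + κ * Ψ s) (κ * ψ s) s :=
        ((hd s).const_mul κ).const_add 1
      have e3 := (e1.cexp.mul e2)
      refine (e3.congr_deriv ?_).hasDerivWithinAt
      rw [h s hs.1]
      ring)
  have h1 := hconst t ⟨ht, le_rfl⟩
  simp only [Complex.ofReal_zero, mul_zero, neg_zero, Complex.exp_zero, hΨ,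
    intervalIntegral.integral_same, add_zero, mul_one] at h1
  rw [h t ht]
  have h2 : Complex.exp (κ * t) * Complex.exp (-(κ * t)) = 1 := by
    rw [← Complex.exp_add]; simp
  calc 1 + κ * ∫ s in (0 : ℝ)..t, ψ s
      = (Complex.exp (κ * t) * Complex.exp (-(κ * t))) * (1 + κ * ∫ s in (0 : ℝ)..t, ψ s) := by
        rw [h2, one_mul]
    _ = Complex.exp (κ * t) * (Complex.exp (-(κ * t)) * (1 + κ * ∫ s in (0 : ℝ)..t, ψ s)) := by
        ring
    _ = Complex.exp (κ * t) := by rw [h1, mul_one]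

/-- The characteristic function of `log yP (B t)`. -/
lemma charFun_lY (h : IsHypBM B Q) (θ : ℝ) (t : ℝ≥0) :
    ∫ e, Complex.exp (θ * lY (B t e) * Complex.I) ∂Q =
      Complex.exp (-(1 / 2) * (θ ^ 2 + Complex.I * θ) * t) := by
  have hB := h.joint
  have hjm : Measurable fun p : ℝ × E => lY (B p.1.toNNReal p.2) :=
    measurable_lY.comp (hB.comp ((measurable_real_toNNReal.comp measurable_fst).prodMk
      measurable_snd))
  set φc : ℝ → ℝ := fun x => Real.cos (θ * x) with hφc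
  set φs : ℝ → ℝ := fun x => Real.sin (θ * x) with hφs
  have hlin : ∀ x : ℝ, HasDerivAt (fun x : ℝ => θ * x) θ x := fun x => by
    simpa using (hasDerivAt_id x).const_mul θ
  have dc : ∀ x, HasDerivAt φc (-θ * φs x) x := fun x => by
    have := (hlin x).cos
    refine this.congr_deriv ?_
    simp only [hφs]; ring
  have ds : ∀ x, HasDerivAt φs (θ * φc x) x := fun x => by
    have := (hlin x).sin
    refine this.congr_deriv ?_
    simp only [hφc]; ring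
  have dc2 : ∀ x, HasDerivAt (fun x => -θ * φs x) (-θ * (θ * φc x)) x := fun x =>
    (ds x).const_mul _
  have ds2 : ∀ x, HasDerivAt (fun x => θ * φc x) (θ * (-θ * φs x)) x := fun x =>
    (dc x).const_mul _
  have bc : ∀ x, |φc x| ≤ 1 := fun x => Real.abs_cos_le_one _
  have bs : ∀ x, |φs x| ≤ 1 := fun x => Real.abs_sin_le_one _
  set C : ℝ := 1 + |θ| + |θ| * |θ| with hCdef
  have hθ := abs_nonneg θ
  have hC1 : 1 ≤ C := by rw [hCdef]; nlinarith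
  have hC2 : |θ| ≤ C := by rw [hCdef]; nlinarith
  have hC3 : |θ| * |θ| ≤ C := by rw [hCdef]; nlinarith
  have sc : ContDiff ℝ (⊤ : ℕ∞) φc := Real.contDiff_cos.comp (contDiff_const.mul contDiff_id)
  have ss : ContDiff ℝ (⊤ : ℕ∞) φs := Real.contDiff_sin.comp (contDiff_const.mul contDiff_id)
  have b1 : ∀ x, |-θ * φs x| ≤ C := fun x => by
    rw [abs_mul, abs_neg]; nlinarith [bs x, abs_nonneg (φs x)]
  have b2 : ∀ x, |θ * φc x| ≤ C := fun x => by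
    rw [abs_mul]; nlinarith [bc x, abs_nonneg (φc x)]
  have b3 : ∀ x, |-θ * (θ * φc x)| ≤ C := fun x => by
    rw [abs_mul, abs_mul, abs_neg]
    have : |θ| * (|θ| * |φc x|) ≤ |θ| * |θ| := by
      nlinarith [bc x, abs_nonneg (φc x), mul_nonneg hθ hθ]
    linarith
  have b4 : ∀ x, |θ * (-θ * φs x)| ≤ C := fun x => by
    rw [abs_mul, abs_mul, abs_neg]
    have : |θ| * (|θ| * |φs x|) ≤ |θ| * |θ| := by
      nlinarith [bs x, abs_nonneg (φs x), mul_nonneg hθ hθ]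
    linarith
  have Dc := fun t : ℝ≥0 => dynkin_phi h sc dc dc2 (fun x => (bc x).trans hC1) b1 b3 t
  have Ds := fun t : ℝ≥0 => dynkin_phi h ss ds ds2 (fun x => (bs x).trans hC1) b2 b4 t
  -- the complex function
  set ψ : ℝ → ℂ := fun s => ∫ e, Complex.exp (θ * lY (B s.toNNReal e) * Complex.I) ∂Q with hψ
  set mc : ℝ → ℝ := fun s => ∫ e, φc (lY (B s.toNNReal e)) ∂Q with hmc
  set ms : ℝ → ℝ := fun s => ∫ e, φs (lY (B s.toNNReal e)) ∂Q with hms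
  have mcm : Measurable mc :=
    ((sc.continuous.measurable.comp hjm).stronglyMeasurable.integral_prod_right (ν := Q)
      (f := fun (s : ℝ) (e : E) => φc (lY (B s.toNNReal e)))).measurable
  have msm : Measurable ms :=
    ((ss.continuous.measurable.comp hjm).stronglyMeasurable.integral_prod_right (ν := Q)
      (f := fun (s : ℝ) (e : E) => φs (lY (B s.toNNReal e)))).measurable
  have ic : ∀ s : ℝ, Integrable (fun e => φc (lY (B s.toNNReal e))) Q := fun s =>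
    integrable_of_bound Q (sc.continuous.measurable.comp (measurable_lY.comp (h.meas _)))
      fun e => bc _
  have is : ∀ s : ℝ, Integrable (fun e => φs (lY (B s.toNNReal e))) Q := fun s =>
    integrable_of_bound Q (ss.continuous.measurable.comp (measurable_lY.comp (h.meas _)))
      fun e => bs _
  have hψe : ∀ s, ψ s = mc s + ms s * Complex.I := by
    intro s
    have e1 : ∀ e, Complex.exp (θ * lY (B s.toNNReal e) * Complex.I) =
        (φc (lY (B s.toNNReal e)) : ℂ) + (φs (lY (B s.toNNReal e)) : ℂ) * Complex.I := by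
      intro e
      rw [Complex.exp_mul_I]
      simp only [hφc, hφs]
      push_cast
      rfl
    simp only [hψ]
    simp_rw [e1]
    rw [integral_add ((ic s).ofReal) (((is s).ofReal).mul_const _), integral_mul_const,
      integral_complex_ofReal, integral_complex_ofReal]
  have mcb : ∀ s, |mc s| ≤ 1 := fun s => by
    refine (norm_integral_le_of_norm_le_const (f := fun e => φc (lY (B s.toNNReal e))) (C := 1)
      (ae_of_all _ fun e => bc _)).trans ?_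
    simp
  have msb : ∀ s, |ms s| ≤ 1 := fun s => by
    refine (norm_integral_le_of_norm_le_const (f := fun e => φs (lY (B s.toNNReal e))) (C := 1)
      (ae_of_all _ fun e => bs _)).trans ?_
    simp
  have hψm : Measurable ψ := by
    have : ψ = fun s => (mc s : ℂ) + ms s * Complex.I := funext hψe
    rw [this]
    exact (Complex.measurable_ofReal.comp mcm).add
      ((Complex.measurable_ofReal.comp msm).mul_const _)
  have ii : ∀ (g : ℝ → ℝ) (_ : Measurable g) (_ : ∀ s, |g s| ≤ 1) (a b : ℝ),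
      IntervalIntegrable g volume a b := fun g hg hb a b =>
    (intervalIntegrable_const (c := (1 : ℝ))).mono_fun' hg.aestronglyMeasurable
      (ae_of_all _ fun s => hb s)
  have hzero : ∀ s : ℝ, s ≤ 0 → ψ s = 1 := by
    intro s hs
    simp only [hψ]
    rw [Real.toNNReal_of_nonpos hs]
    have : ∀ᵐ e ∂Q, Complex.exp (θ * lY (B 0 e) * Complex.I) = 1 := by
      filter_upwards [h.start] with e he
      rw [he]
      have : lY 0 = 0 := by unfold lY; rw [yP_zero, Real.log_one]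
      rw [this]; simp
    rw [integral_congr_ae this]; simp
  have heq : ∀ s : ℝ, 0 ≤ s → ψ s = 1 + (-(1 / 2) * (θ ^ 2 + Complex.I * θ)) *
      ∫ r in (0 : ℝ)..s, ψ r := by
    intro s hs
    have e1 := Dc s.toNNReal
    have e2 := Ds s.toNNReal
    rw [Real.coe_toNNReal _ hs] at e1 e2
    have e3 : ∀ r : ℝ, ∫ e, 1 / 2 * (-θ * (θ * φc (lY (B r.toNNReal e))) -
        -θ * φs (lY (B r.toNNReal e))) ∂Q = 1 / 2 * (-(θ ^ 2) * mc r + θ * ms r) := by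
      intro r
      rw [integral_const_mul, integral_sub (((ic r).const_mul _).const_mul _)
        ((is r).const_mul _), integral_const_mul, integral_const_mul, integral_const_mul]
      ring
    have e4 : ∀ r : ℝ, ∫ e, 1 / 2 * (θ * (-θ * φs (lY (B r.toNNReal e))) -
        θ * φc (lY (B r.toNNReal e))) ∂Q = 1 / 2 * (-(θ ^ 2) * ms r - θ * mc r) := by
      intro r
      rw [integral_const_mul, integral_sub (((is r).const_mul _).const_mul _)
        ((ic r).const_mul _), integral_const_mul, integral_const_mul, integral_const_mul]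
      ring
    simp_rw [e3] at e1
    simp_rw [e4] at e2
    have i1 := ii mc mcm mcb 0 s
    have i2 := ii ms msm msb 0 s
    rw [intervalIntegral.integral_const_mul, intervalIntegral.integral_add (i1.const_mul _)
      (i2.const_mul _), intervalIntegral.integral_const_mul,
      intervalIntegral.integral_const_mul] at e1
    rw [intervalIntegral.integral_const_mul, intervalIntegral.integral_sub (i2.const_mul _)
      (i1.const_mul _), intervalIntegral.integral_const_mul,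
      intervalIntegral.integral_const_mul] at e2
    have e5 : ∫ r in (0 : ℝ)..s, ψ r = ((∫ r in (0 : ℝ)..s, mc r : ℝ) : ℂ) +
        ((∫ r in (0 : ℝ)..s, ms r : ℝ) : ℂ) * Complex.I := by
      simp_rw [hψe]
      have i1' : IntervalIntegrable (fun r => (mc r : ℂ)) volume 0 s := ⟨i1.1.ofReal, i1.2.ofReal⟩
      have i2' : IntervalIntegrable (fun r => (ms r : ℂ)) volume 0 s := ⟨i2.1.ofReal, i2.2.ofReal⟩
      rw [intervalIntegral.integral_add i1' (i2'.mul_const _),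
        intervalIntegral.integral_mul_const, intervalIntegral.integral_ofReal,
        intervalIntegral.integral_ofReal]
    have e6 : mc s = 1 + 1 / 2 * (-(θ ^ 2) * (∫ r in (0 : ℝ)..s, mc r) +
        θ * ∫ r in (0 : ℝ)..s, ms r) := by
      have : φc 0 = 1 := by simp [hφc]
      rw [this] at e1; exact e1
    have e7 : ms s = 1 / 2 * (-(θ ^ 2) * (∫ r in (0 : ℝ)..s, ms r) -
        θ * ∫ r in (0 : ℝ)..s, mc r) := by
      have : φs 0 = 0 := by simp [hφs]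
      rw [this, zero_add] at e2; exact e2
    rw [hψe, e5, e6, e7]
    push_cast
    linear_combination ((1 / 2 : ℂ) * θ * (∫ r in (0 : ℝ)..s, ms r : ℝ)) * Complex.I_sq
  have hfin := exp_of_integral_eq hzero hψm (C := 2) (fun s => by
    rw [hψe]
    refine (norm_add_le _ _).trans ?_
    rw [norm_mul, Complex.norm_I, mul_one, Complex.norm_real, Complex.norm_real]
    have := mcb s
    have := msb s
    simp only [Real.norm_eq_abs]
    linarith) heq t.coe_nonneg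
  simp only [hψ, Real.toNNReal_coe] at hfin
  rw [hfin]

end Pool.Agent.Lib.P46005
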