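import Mathlib
import Pool.Agent.Lib.P46005.LawY

/-!
# The boundary coordinate
-/

open MeasureTheory ProbabilityTheory Filter
open scoped ComplexConjugate NNReal ENNReal Topology

namespace Pool.Agent.Lib.P46005

/-- The Cayley transform. -/
noncomputable def cay (ζ : ℂ) : ℂ := Complex.I * (1 + ζ) / (1 - ζ)

/-- The real coordinate. -/
noncomputable def vv (ζ : ℂ) : ℝ := (cay ζ).re

lemma measurable_vv : Measurable vv := by
  unfold vv cay
  exact Complex.measurable_re.comp ((by fun_prop : Measurable fun ζ : ℂ => Complex.I * (1 + ζ)).div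
    (by fun_prop))

lemma cay_eq {z : ℂ} (hz : ‖z‖ < 1) : (vv z : ℂ) + (yP z : ℂ) * Complex.I = cay z := by
  apply Complex.ext
  · simp [vv]
  · have h1 : Complex.normSq (1 - z) ≠ 0 := (Complex.normSq_pos.2 (one_sub_ne hz)).ne'
    simp only [Complex.add_im, Complex.ofReal_im, Complex.mul_im, Complex.ofReal_re,
      Complex.I_im, Complex.I_re, mul_one, mul_zero, add_zero, zero_add]
    unfold cay yP
    rw [Complex.div_im]
    simp only [Complex.mul_im, Complex.mul_re, Complex.I_re, Complex.I_im, Complex.add_re,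
      Complex.add_im, Complex.one_re, Complex.one_im, Complex.sub_re, Complex.sub_im]
    field_simp
    rw [Complex.normSq_apply]
    ring

lemma cay_conj {z : ℂ} (hz : ‖z‖ < 1) : (vv z : ℂ) - (yP z : ℂ) * Complex.I = conj (cay z) := by
  rw [← cay_eq hz]
  simp
  ring

lemma cay_moveTo {z ξ : ℂ} (hz : ‖z‖ < 1) (hξ : ‖ξ‖ ≤ 1) (h1 : ξ ≠ 1) :
    cay (moveTo z ξ) = (vv z : ℂ) + (yP z : ℂ) * cay ξ := by
  have hd := den_ne hz hξ
  have hz1 := one_sub_ne hz
  have hz2 := one_sub_conj_ne hz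
  have hξ1 : 1 - ξ ≠ 0 := sub_ne_zero.2 (Ne.symm h1)
  have e1 : cay (moveTo z ξ) = Complex.I * ((1 + conj z * (kap z * ξ)) + kap z * ξ + z) /
      ((1 - z) * (1 - ξ)) := by
    unfold cay
    rw [one_sub_moveTo hz hξ, moveTo_eq]
    generalize 1 + conj z * (kap z * ξ) = d at hd ⊢
    field_simp
    ring
  have e2 : (vv z : ℂ) + (yP z : ℂ) * cay ξ =
      (((vv z : ℂ) + (yP z : ℂ) * Complex.I) - ((vv z : ℂ) - (yP z : ℂ) * Complex.I) * ξ) /
        (1 - ξ) := by
    unfold cay
    field_simp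
    ring
  have e3 : conj (cay z) = -Complex.I * (1 + conj z) / (1 - conj z) := by
    unfold cay
    simp
  rw [e1, e2, cay_eq hz, cay_conj hz, e3]
  unfold cay kap
  field_simp
  ring

lemma vv_moveTo {z ξ : ℂ} (hz : ‖z‖ < 1) (hξ : ‖ξ‖ ≤ 1) (h1 : ξ ≠ 1) :
    vv (moveTo z ξ) = vv z + yP z * vv ξ := by
  have h := cay_moveTo hz hξ h1
  have h2 := congrArg Complex.re h
  simpa [vv] using h2

lemma moveTo_eq_one_iff {z ξ : ℂ} (hz : ‖z‖ < 1) (hξ : ‖ξ‖ ≤ 1) : moveTo z ξ = 1 ↔ ξ = 1 := by
  have hd := den_ne hz hξ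
  have h := one_sub_moveTo hz hξ
  constructor
  · intro h1
    rw [h1, sub_self, eq_comm, div_eq_zero_iff] at h
    rcases h with h | h
    · rcases mul_eq_zero.1 h with h | h
      · exact absurd h (one_sub_ne hz)
      · exact (sub_eq_zero.1 h).symm
    · exact absurd h hd
  · intro h1
    rw [h1, sub_self, mul_zero, zero_div] at h
    rw [h1]
    exact (sub_eq_zero.1 h).symm

/-- The measure in the real coordinate. -/
noncomputable def Lf (μ : Measure ℂ) : Measure ℝ := (μ.restrict {1}ᶜ).map vv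

lemma Lf_apply (μ : Measure ℂ) {s : Set ℝ} (hs : MeasurableSet s) :
    Lf μ s = μ (vv ⁻¹' s ∩ {1}ᶜ) := by
  unfold Lf
  rw [Measure.map_apply measurable_vv hs, Measure.restrict_apply (measurable_vv hs)]

lemma measurable_Lf : Measurable Lf := by
  refine Measure.measurable_of_measurable_coe _ fun s hs => ?_
  simp_rw [Lf_apply _ hs]
  exact Measure.measurable_coe ((measurable_vv hs).inter (measurableSet_singleton (1 : ℂ)).compl)

instance (μ : Measure ℂ) [IsFiniteMeasure μ] : IsFiniteMeasure (Lf μ) := by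
  unfold Lf; infer_instance

lemma Lf_univ_le (μ : Measure ℂ) : Lf μ Set.univ ≤ μ Set.univ := by
  rw [Lf_apply _ MeasurableSet.univ]
  exact measure_mono (Set.subset_univ _)

lemma Lf_rec {μ μ' : Measure ℂ} (h : μ (Metric.sphere (0 : ℂ) 1)ᶜ = 0)
    (h' : μ' (Metric.sphere (0 : ℂ) 1)ᶜ = 0) {z : ℂ} (hz : ‖z‖ < 1) (a : ℝ≥0∞) :
    Lf (a • (μ.map (moveTo z) + μ'.map (moveTo z))) =
      a • ((Lf μ).map (fun s => vv z + yP z * s) + (Lf μ').map (fun s => vv z + yP z * s)) := by
  have hA : Measurable fun s : ℝ => vv z + yP z * s := by fun_prop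
  have hm : Measurable (moveTo z) := by
    have h : Measurable (Function.uncurry moveTo) := measurable_moveTo
    exact h.of_uncurry_left
  ext s hs
  have key : ∀ ν : Measure ℂ, ν (Metric.sphere (0 : ℂ) 1)ᶜ = 0 →
      (ν.map (moveTo z)) (vv ⁻¹' s ∩ {1}ᶜ) = ((Lf ν).map (fun s => vv z + yP z * s)) s := by
    intro ν hν
    rw [Measure.map_apply hA hs, Lf_apply _ (hA hs),
      Measure.map_apply hm ((measurable_vv hs).inter (measurableSet_singleton (1 : ℂ)).compl)]
    refine measure_congr ?_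
    have h1 : ∀ᵐ ξ ∂ν, ξ ∈ Metric.sphere (0 : ℂ) 1 := by rw [ae_iff]; exact hν
    filter_upwards [h1] with ξ hξ
    rw [mem_sphere_zero_iff_norm] at hξ
    apply propext
    change (moveTo z ξ ∈ vv ⁻¹' s ∩ {1}ᶜ) ↔
      (ξ ∈ vv ⁻¹' ((fun s => vv z + yP z * s) ⁻¹' s) ∩ {1}ᶜ)
    simp only [Set.mem_inter_iff, Set.mem_preimage, Set.mem_compl_iff, Set.mem_singleton_iff]
    rw [moveTo_eq_one_iff hz hξ.le]
    constructor
    · rintro ⟨h2, h3⟩
      rw [vv_moveTo hz hξ.le h3] at h2
      exact ⟨h2, h3⟩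
    · rintro ⟨h2, h3⟩
      rw [vv_moveTo hz hξ.le h3]
      exact ⟨h2, h3⟩
  rw [Lf_apply _ hs, Measure.smul_apply, Measure.smul_apply, Measure.add_apply,
    Measure.add_apply, key μ h, key μ' h']

/-- The boundary coordinate of the point with angle `φ`. -/
lemma vv_exp {φ : ℝ} (h0 : 0 < φ) (h1 : φ < 2 * Real.pi) :
    φ = Real.pi + 2 * Real.arctan (vv (Complex.exp (φ * Complex.I))) := by
  have hs : 0 < Real.sin (φ / 2) := Real.sin_pos_of_pos_of_lt_pi (by linarith) (by linarith)
  have e1 : vv (Complex.exp (φ * Complex.I)) = Real.tan (φ / 2 - Real.pi / 2) := by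
    rw [Real.tan_eq_sin_div_cos, Real.sin_sub_pi_div_two, Real.cos_sub_pi_div_two]
    have hc : Real.cos φ = 1 - 2 * Real.sin (φ / 2) ^ 2 := by
      have := Real.cos_two_mul (φ / 2)
      have h3 := Real.sin_sq_add_cos_sq (φ / 2)
      rw [show 2 * (φ / 2) = φ by ring] at this
      rw [this]; linarith
    have hsi : Real.sin φ = 2 * Real.sin (φ / 2) * Real.cos (φ / 2) := by
      have := Real.sin_two_mul (φ / 2)
      rwa [show 2 * (φ / 2) = φ by ring] at this
    unfold vv cay
    rw [Complex.div_re]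
    simp only [Complex.mul_im, Complex.mul_re, Complex.I_re, Complex.I_im, Complex.add_re,
      Complex.add_im, Complex.one_re, Complex.one_im, Complex.sub_re, Complex.sub_im,
      Complex.exp_ofReal_mul_I_re, Complex.exp_ofReal_mul_I_im, Complex.normSq_apply]
    have hden : (1 - Real.cos φ) * (1 - Real.cos φ) + (0 - Real.sin φ) * (0 - Real.sin φ) =
        2 * (1 - Real.cos φ) := by
      have := Real.sin_sq_add_cos_sq φ
      nlinarith
    rw [hden]
    have hne : 1 - Real.cos φ ≠ 0 := by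
      rw [hc]
      have : 0 < Real.sin (φ / 2) ^ 2 := by positivity
      intro h; linarith
    have h4 : (0 * (1 + Real.cos φ) - 1 * (0 + Real.sin φ)) * (1 - Real.cos φ) /
        (2 * (1 - Real.cos φ)) + (0 * (0 + Real.sin φ) + 1 * (1 + Real.cos φ)) *
        (0 - Real.sin φ) / (2 * (1 - Real.cos φ)) = -Real.sin φ / (1 - Real.cos φ) := by
      field_simp
      ring
    rw [h4, hsi, hc]
    have hs' := hs.ne'
    field_simp
    ring
  rw [e1, Real.arctan_tan (by linarith) (by linarith)]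
  ring

lemma arcLength_one : arcLength {1} = 0 := by
  unfold arcLength
  rw [Measure.map_apply (by fun_prop) (measurableSet_singleton _),
    Measure.restrict_apply' measurableSet_Ioc]
  refine measure_mono_null (t := {2 * Real.pi}) ?_ (measure_singleton _)
  rintro φ ⟨h1, h2, h3⟩
  rw [Set.mem_preimage, Set.mem_singleton_iff] at h1
  rw [Set.mem_singleton_iff]
  by_contra hne
  have hlt : φ < 2 * Real.pi := lt_of_le_of_ne h3 hne
  have h4 := congrArg Complex.re h1
  rw [Complex.exp_ofReal_mul_I_re, Complex.one_re] at h4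
  have h5 := (Real.cos_eq_one_iff_of_lt_of_lt (by linarith [Real.pi_pos]) hlt).1 h4
  exact h2.ne' h5

lemma arcLength_preimage {N : Set ℝ} (hN : MeasurableSet N) (h0 : volume N = 0) :
    arcLength (vv ⁻¹' N) = 0 := by
  unfold arcLength
  rw [Measure.map_apply (by fun_prop) (measurable_vv hN),
    Measure.restrict_apply' measurableSet_Ioc]
  have himg : volume ((fun r : ℝ => Real.pi + 2 * Real.arctan r) '' N) = 0 := by
    refine addHaar_image_eq_zero_of_differentiableOn_of_addHaar_eq_zero volume ?_ h0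
    exact ((Real.differentiable_arctan.const_mul 2).const_add Real.pi).differentiableOn
  refine measure_mono_null (t := ((fun r : ℝ => Real.pi + 2 * Real.arctan r) '' N) ∪
    {2 * Real.pi}) ?_ ?_
  · rintro φ ⟨h1, h2, h3⟩
    rcases h3.lt_or_eq with h | h
    · left
      exact ⟨vv (Complex.exp (φ * Complex.I)), h1, (vv_exp h2 h).symm⟩
    · right; exact h
  · rw [measure_union_null_iff]
    exact ⟨himg, measure_singleton _⟩

lemma sing_arc {μ : Measure ℂ} (h : Lf μ ⟂ₘ volume) : μ ⟂ₘ arcLength := by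
  obtain ⟨s, hs, h1, h2⟩ := h
  refine ⟨vv ⁻¹' s ∩ {1}ᶜ, (measurable_vv hs).inter (measurableSet_singleton (1 : ℂ)).compl, ?_, ?_⟩
  · rw [← Lf_apply _ hs]; exact h1
  · rw [Set.compl_inter, compl_compl, measure_union_null_iff]
    exact ⟨arcLength_preimage hs.compl h2, arcLength_one⟩

end Pool.Agent.Lib.P46005
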