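import Mathlib
import Pool.Agent.Lib.P46005.Limit

/-!
# The random limit measure, its measurability and its recursion
-/

open MeasureTheory ProbabilityTheory Filter
open scoped ComplexConjugate NNReal ENNReal Topology BoundedContinuousFunction

namespace Pool.Agent.Lib.P46005

variable {E : Type} [MeasurableSpace E] {B : ℝ≥0 → E → ℂ} {Q : Measure E} {β : ℝ}

lemma IsLim.real {m : ℕ → Measure ℂ} {μ : Measure ℂ} (h : IsLim m μ) {f : ℂ → ℝ}
    (hf : ContinuousOn f (Metric.closedBall 0 1)) :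
    Tendsto (fun n => ∫ z, f z ∂(m n)) atTop (𝓝 (∫ z, f z ∂μ)) := by
  have h1 := h.tends (fun z => (f z : ℂ)) (Complex.continuous_ofReal.comp_continuousOn hf)
  have h2 := (Complex.continuous_re.tendsto _).comp h1
  have h3 : ∀ ν : Measure ℂ, (∫ z, (f z : ℂ) ∂ν).re = ∫ z, f z ∂ν := fun ν => by
    rw [integral_complex_ofReal, Complex.ofReal_re]
  rw [h3] at h2
  refine h2.congr fun n => ?_
  exact h3 _

lemma IsLim.unique {m : ℕ → Measure ℂ} {μ μ' : Measure ℂ} (h : IsLim m μ) (h' : IsLim m μ') :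
    μ = μ' := by
  have := h.fin
  have := h'.fin
  refine ext_of_forall_integral_eq_of_IsFiniteMeasure fun f => ?_
  exact tendsto_nhds_unique (h.real f.continuous.continuousOn) (h'.real f.continuous.continuousOn)

/-- A measurable set of full measure on which the limit exists. -/
noncomputable def G0 (β : ℝ) (B : ℝ≥0 → E → ℂ) (Q : Measure E) : Set (Om E) :=
  (toMeasurable (bbmLaw β Q) {ω | ¬ ∃ μ, IsLim (fun n : ℕ => me β B n ω) μ})ᶜ

lemma measurableSet_G0 : MeasurableSet (G0 β B Q) := (measurableSet_toMeasurable _ _).compl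

lemma exists_of_G0 {ω : Om E} (h : ω ∈ G0 β B Q) : ∃ μ, IsLim (fun n : ℕ => me β B n ω) μ := by
  by_contra h2
  exact h (subset_toMeasurable _ _ h2)

open Classical in
/-- The limit measure. -/
noncomputable def Minf (β : ℝ) (B : ℝ≥0 → E → ℂ) (Q : Measure E) (ω : Om E) : Measure ℂ :=
  if h : ω ∈ G0 β B Q then (exists_of_G0 h).choose else 0

lemma Minf_isLim {ω : Om E} (h : ω ∈ G0 β B Q) :
    IsLim (fun n : ℕ => me β B n ω) (Minf β B Q ω) := by
  unfold Minf
  rw [dif_pos h]
  exact (exists_of_G0 h).choose_spec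

instance (ω : Om E) : IsFiniteMeasure (Minf β B Q ω) := by
  by_cases h : ω ∈ G0 β B Q
  · exact (Minf_isLim h).fin
  · unfold Minf
    rw [dif_neg h]
    infer_instance

lemma Minf_sphere (ω : Om E) : Minf β B Q ω (Metric.sphere (0 : ℂ) 1)ᶜ = 0 := by
  by_cases h : ω ∈ G0 β B Q
  · exact (Minf_isLim h).sphere
  · unfold Minf
    rw [dif_neg h]
    rfl

lemma measurable_lintegral_me (hB : Measurable fun p : ℝ≥0 × E => B p.1 p.2) {F : ℂ → ℝ≥0∞}
    (hF : Measurable F) (t : ℝ) : Measurable fun ω : Om E => ∫⁻ z, F z ∂(me β B t ω) := by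
  simp_rw [lintegral_me]
  exact measurable_const.mul ((measurable_S hB hF).comp measurable_prodMk_left)

theorem measurable_Minf (hB : Measurable fun p : ℝ≥0 × E => B p.1 p.2) :
    Measurable (Minf β B Q) := by
  classical
  -- integrals of bounded continuous functions
  have h1 : ∀ f : ℂ →ᵇ ℝ≥0, Measurable fun ω : Om E => ∫⁻ z, (f z : ℝ≥0∞) ∂(Minf β B Q ω) := by
    intro f
    have hF : Measurable fun z => (f z : ℝ≥0∞) := f.continuous.measurable.coe_nnreal_ennreal
    have h2 : Measurable fun ω : Om E => if ω ∈ G0 β B Q then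
        limsup (fun n : ℕ => ∫⁻ z, (f z : ℝ≥0∞) ∂(me β B n ω)) atTop else 0 :=
      Measurable.ite measurableSet_G0
        (Measurable.limsup fun n => measurable_lintegral_me hB hF _) measurable_const
    convert h2 using 1
    funext ω
    by_cases h : ω ∈ G0 β B Q
    · rw [if_pos h]
      have hl := Minf_isLim h
      have hreal := hl.real (f := fun z => (f z : ℝ))
        (NNReal.continuous_coe.comp f.continuous).continuousOn
      have hcon : ∀ ν : Measure ℂ, IsFiniteMeasure ν →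
          ENNReal.ofReal (∫ z, (f z : ℝ) ∂ν) = ∫⁻ z, (f z : ℝ≥0∞) ∂ν := by
        intro ν hν
        rw [ofReal_integral_eq_lintegral_ofReal]
        · simp
        · exact BoundedContinuousFunction.integrable_of_nnreal ν f
        · exact ae_of_all _ fun z => NNReal.coe_nonneg _
      have h3 : Tendsto (fun n : ℕ => ∫⁻ z, (f z : ℝ≥0∞) ∂(me β B n ω)) atTop
          (𝓝 (∫⁻ z, (f z : ℝ≥0∞) ∂(Minf β B Q ω))) := by
        rw [← hcon _ inferInstance]
        refine (ENNReal.tendsto_ofReal hreal).congr fun n => ?_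
        exact hcon _ ⟨hl.finm n⟩
      exact h3.limsup_eq.symm
    · rw [if_neg h]
      unfold Minf
      rw [dif_neg h]
      simp
  have h2 : ∀ s : Set ℂ, IsClosed s → Measurable fun ω : Om E => Minf β B Q ω s := by
    intro s hs
    have hpos : ∀ n : ℕ, (0 : ℝ) < 1 / ((n : ℝ) + 1) := fun n => Nat.one_div_pos_of_nat
    have h3 : ∀ ω : Om E, Tendsto (fun n : ℕ => ∫⁻ z, (thickenedIndicator (hpos n) s z : ℝ≥0∞)
        ∂(Minf β B Q ω)) atTop (𝓝 (Minf β B Q ω s)) := fun ω =>
      tendsto_lintegral_thickenedIndicator_of_isClosed _ hs hpos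
        tendsto_one_div_add_atTop_nhds_zero_nat
    exact measurable_of_tendsto_metrizable (fun n => h1 _) (tendsto_pi_nhds.2 h3)
  refine Measurable.measure_of_isPiSystem (S := {s : Set ℂ | IsClosed s}) ?_ ?_ ?_ ?_
  · rw [BorelSpace.measurable_eq (α := ℂ)]
    exact borel_eq_generateFrom_isClosed
  · exact isPiSystem_isClosed
  · exact fun s hs => h2 s hs
  · exact h2 _ isClosed_univ

omit [MeasurableSpace E] in
lemma measurable_moveTo_left (z : ℂ) : Measurable (moveTo z) := by
  have h : Measurable (Function.uncurry moveTo) := measurable_moveTo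
  exact h.of_uncurry_left

omit [MeasurableSpace E] in
lemma me_asm {t : ℝ} {m : ℝ × E} (hm : m.1 ≤ t) (a c : Om E) :
    me β B t (asm (m, a, c)) = ENNReal.ofReal (Real.exp (-(β * m.1))) •
      ((me β B (t - m.1) a).map (moveTo (B m.1.toNNReal m.2)) +
      (me β B (t - m.1) c).map (moveTo (B m.1.toNNReal m.2))) := by
  refine Measure.ext_of_lintegral _ fun F hF => ?_
  rw [lintegral_me, S_asm, if_neg (by rintro ⟨_, h⟩; linarith), zero_add,
    lintegral_smul_measure, lintegral_add_measure, lintegral_map hF (measurable_moveTo_left _),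
    lintegral_map hF (measurable_moveTo_left _), lintegral_me, lintegral_me, ← mul_add,
    smul_eq_mul, ← mul_assoc, ← ENNReal.ofReal_mul (Real.exp_pos _).le, ← Real.exp_add]
  congr 3
  ring

section

variable [IsProbabilityMeasure Q] (hβ : 0 < β) (hB : Measurable fun p : ℝ≥0 × E => B p.1 p.2)
  (hmem : ∀ t e, ‖B t e‖ < 1) (hh : Cls1 B Q Hh) (hy : Cls B Q (-1 / 8) Hy)

include hβ hB hmem hh hy

lemma ae_G0 : ∀ᵐ ω ∂(bbmLaw β Q), ω ∈ G0 β B Q := by
  have h1 : ∀ᵐ ω ∂(bbmLaw β Q), ∃ μ, IsLim (fun n : ℕ => me β B n ω) μ :=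
    (ae_isLim_shift hβ hB hmem hh hy (le_refl (0 : ℝ))).mono fun ω hω => by
      obtain ⟨μ, h, _⟩ := hω; exact ⟨μ, h⟩
  rw [ae_iff] at h1 ⊢
  have h2 : {ω : Om E | ¬ ω ∈ G0 β B Q} =
      toMeasurable (bbmLaw β Q) {ω | ¬ ∃ μ, IsLim (fun n : ℕ => me β B n ω) μ} := by
    ext ω
    simp [G0]
  rw [h2, measure_toMeasurable]
  exact h1

lemma ae_Minf_shift {r : ℝ} (hr : 0 ≤ r) : ∀ᵐ ω ∂(bbmLaw β Q),
    IsLim (fun n : ℕ => me β B (n - r) ω) (Minf β B Q ω) := by
  filter_upwards [ae_G0 hβ hB hmem hh hy, ae_isLim_shift hβ hB hmem hh hy hr] with ω h1 h2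
  obtain ⟨μ, h3, h4⟩ := h2
  rwa [(Minf_isLim h1).unique h3]

theorem Minf_rec : ∀ᵐ m ∂((expMeasure β).prod Q), ∀ᵐ a ∂(PT ((expMeasure β).prod Q)),
    ∀ᵐ c ∂(PT ((expMeasure β).prod Q)), Minf β B Q (asm (m, a, c)) =
      ENNReal.ofReal (Real.exp (-(β * m.1))) •
      ((Minf β B Q a).map (moveTo (B m.1.toNNReal m.2)) +
      (Minf β B Q c).map (moveTo (B m.1.toNNReal m.2))) := by
  have := isProbabilityMeasure_expMeasure hβ
  have hlaw : bbmLaw β Q = PT ((expMeasure β).prod Q) := rfl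
  have h1 := ae_G0 hβ hB hmem hh hy
  rw [hlaw] at h1
  have h2 := ae_tree _ h1
  have h3 : ∀ᵐ m ∂((expMeasure β).prod Q), ∀ᵐ a ∂(PT ((expMeasure β).prod Q)),
      ∀ᵐ c ∂(PT ((expMeasure β).prod Q)), asm (m, a, c) ∈ G0 β B Q := by
    filter_upwards [Measure.ae_ae_of_ae_prod h2] with m hm
    exact Measure.ae_ae_of_ae_prod hm
  have h4 : ∀ᵐ m ∂((expMeasure β).prod Q), 0 ≤ m.1 := by
    have h5 : ∀ᵐ x ∂(expMeasure β), 0 < x := exp_ae_pos hβ
    have h6 : ∀ᵐ m ∂((expMeasure β).prod Q), 0 < m.1 :=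
      Measure.quasiMeasurePreserving_fst.ae h5
    exact h6.mono fun m hm => hm.le
  filter_upwards [h3, h4] with m hm3 hm4
  have h5 := ae_Minf_shift hβ hB hmem hh hy hm4
  rw [hlaw] at h5
  filter_upwards [hm3, h5] with a ha3 ha5
  filter_upwards [ha3, h5] with c hc3 hc5
  set z := B m.1.toNNReal m.2 with hz
  have hz1 : ‖z‖ < 1 := hmem _ _
  have hl := Minf_isLim hc3
  have hfinR : IsFiniteMeasure (ENNReal.ofReal (Real.exp (-(β * m.1))) •
      ((Minf β B Q a).map (moveTo z) + (Minf β B Q c).map (moveTo z))) :=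
    Measure.smul_finite _ ENNReal.ofReal_ne_top
  refine ext_of_forall_integral_eq_of_IsFiniteMeasure fun f => ?_
  have hfc : Continuous f := f.continuous
  have hcomp : ContinuousOn (fun w => f (moveTo z w)) (Metric.closedBall 0 1) :=
    hfc.comp_continuousOn (continuousOn_moveTo hz1)
  have t1 := hl.real hfc.continuousOn
  have t2 := ha5.real hcomp
  have t3 := hc5.real hcomp
  have hint : ∀ ν : Measure ℂ, IsFiniteMeasure ν → Integrable f (ν.map (moveTo z)) := by
    intro ν hν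
    have : IsFiniteMeasure (ν.map (moveTo z)) := by infer_instance
    exact f.integrable _
  have hgen : ∀ ν ν' : Measure ℂ, IsFiniteMeasure ν → IsFiniteMeasure ν' →
      ∫ w, f w ∂(ENNReal.ofReal (Real.exp (-(β * m.1))) • (ν.map (moveTo z) + ν'.map (moveTo z))) =
      Real.exp (-(β * m.1)) * (∫ w, f (moveTo z w) ∂ν + ∫ w, f (moveTo z w) ∂ν') := by
    intro ν ν' hν hν'
    rw [integral_smul_measure, integral_add_measure (hint ν hν) (hint ν' hν'),
      integral_map (measurable_moveTo_left z).aemeasurable hfc.aestronglyMeasurable,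
      integral_map (measurable_moveTo_left z).aemeasurable hfc.aestronglyMeasurable,
      ENNReal.toReal_ofReal (Real.exp_pos _).le, smul_eq_mul]
  rw [hgen _ _ inferInstance inferInstance]
  refine tendsto_nhds_unique t1 ?_
  refine ((t2.add t3).const_mul (Real.exp (-(β * m.1)))).congr' ?_
  obtain ⟨N, hN⟩ := exists_nat_ge m.1
  filter_upwards [eventually_ge_atTop N] with n hn
  have hn' : m.1 ≤ (n : ℝ) := hN.trans (by exact_mod_cast hn)
  rw [me_asm hn', hgen _ _ ⟨ha5.finm n⟩ ⟨hc5.finm n⟩]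

end

end Pool.Agent.Lib.P46005
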