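import Mathlib
import Pool.Agent.Lib.P46005.Minf

/-!
# The mass of the limit measure
-/

open MeasureTheory ProbabilityTheory Filter
open scoped ComplexConjugate NNReal ENNReal Topology BoundedContinuousFunction

namespace Pool.Agent.Lib.P46005

variable {E : Type} [MeasurableSpace E] {B : ℝ≥0 → E → ℂ} {Q : Measure E} {β : ℝ}
  [IsProbabilityMeasure Q] (hβ : 0 < β) (hB : Measurable fun p : ℝ≥0 × E => B p.1 p.2)
  (hmem : ∀ t e, ‖B t e‖ < 1) (hh : Cls1 B Q Hh) (hy : Cls B Q (-1 / 8) Hy)

include hβ hB hmem hh hy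

lemma ae_tendsto_mass : ∀ᵐ ω ∂(bbmLaw β Q),
    Tendsto (fun n : ℕ => X B β n ω fun _ => 1) atTop (𝓝 ((Minf β B Q ω).real Set.univ)) := by
  filter_upwards [ae_G0 hβ hB hmem hh hy] with ω hω
  have h1 := (Minf_isLim hω).real (f := fun _ => 1) continuousOn_const
  simp only [integral_const, smul_eq_mul, mul_one] at h1
  refine h1.congr fun n => ?_
  rw [X_eq, lintegral_one]
  rfl

omit [IsProbabilityMeasure Q] hβ hmem hh hy in
lemma measurable_mass : Measurable fun ω : Om E => Minf β B Q ω Set.univ :=
  (Measure.measurable_coe MeasurableSet.univ).comp (measurable_Minf hB)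

lemma lintegral_mass_le : ∫⁻ ω, Minf β B Q ω Set.univ ∂(bbmLaw β Q) ≤ 1 := by
  have h1 : ∀ᵐ ω ∂(bbmLaw β Q), Minf β B Q ω Set.univ ≤
      liminf (fun n : ℕ => ENNReal.ofReal (X B β n ω fun _ => 1)) atTop := by
    filter_upwards [ae_tendsto_mass hβ hB hmem hh hy] with ω hω
    have h2 := ENNReal.tendsto_ofReal hω
    rw [h2.liminf_eq]
    unfold Measure.real
    rw [ENNReal.ofReal_toReal (measure_ne_top _ _)]
  have hm : ∀ t : ℝ, Measurable fun ω : Om E => S B t ω fun _ => 1 := fun t =>
    (measurable_S hB measurable_const).comp measurable_prodMk_left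
  refine (lintegral_mono_ae h1).trans ?_
  refine (lintegral_liminf_le fun n => ?_).trans ?_
  · exact ((measurable_X hB measurable_const).comp measurable_prodMk_left).ennreal_ofReal
  · refine liminf_le_of_le (by isBoundedDefault) fun b hb => ?_
    obtain ⟨N, hN⟩ := eventually_atTop.1 hb
    refine (hN N le_rfl).trans ?_
    have h3 : ∀ ω : Om E, ENNReal.ofReal (X B β N ω fun _ => 1) ≤
        ENNReal.ofReal (Real.exp (-(β * N))) * S B N ω fun _ => 1 := by
      intro ω
      unfold X
      rw [ENNReal.ofReal_mul (Real.exp_pos _).le]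
      exact mul_le_mul' le_rfl ENNReal.ofReal_toReal_le
    refine (lintegral_mono h3).trans ?_
    rw [lintegral_const_mul _ (hm _), lintegral_S hβ hB hmem (cls_one (B := B) (Q := Q)) rfl
      (Nat.cast_nonneg N), mul_one, ← ENNReal.ofReal_mul (Real.exp_pos _).le, ← Real.exp_add]
    simp

lemma mass_ne : ¬ ∀ᵐ ω ∂(bbmLaw β Q), Minf β B Q ω Set.univ = 0 := by
  intro h
  have := isProbabilityMeasure_expMeasure hβ
  have : IsProbabilityMeasure (bbmLaw β Q) := by unfold bbmLaw; infer_instance
  have hmX : ∀ r, Measurable fun ω : Om E => X B β r ω fun _ => 1 :=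
    fun r => (measurable_X hB measurable_const).comp measurable_prodMk_left
  have key : ∀ n : ℕ, (1 : ℝ) ≤ 6 * Real.exp (-(β * n)) := by
    intro n
    -- Fatou
    have h1 : ∫⁻ ω, ENNReal.ofReal ((X B β n ω fun _ => 1) ^ 2) ∂(bbmLaw β Q) ≤
        ENNReal.ofReal (6 * Real.exp (-(β * n))) := by
      have h2 : ∀ᵐ ω ∂(bbmLaw β Q), ENNReal.ofReal ((X B β n ω fun _ => 1) ^ 2) ≤
          liminf (fun k : ℕ => ENNReal.ofReal
            (((X B β k ω fun _ => 1) - (X B β n ω fun _ => 1)) ^ 2)) atTop := by
        filter_upwards [ae_tendsto_mass hβ hB hmem hh hy, h] with ω h3 h4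
        have h5 : (Minf β B Q ω).real Set.univ = 0 := by
          unfold Measure.real; rw [h4]; rfl
        rw [h5] at h3
        have h6 := ENNReal.tendsto_ofReal ((h3.sub_const (X B β n ω fun _ => 1)).pow 2)
        rw [h6.liminf_eq, zero_sub, neg_sq]
      refine (lintegral_mono_ae h2).trans ?_
      refine (lintegral_liminf_le fun k => ?_).trans ?_
      · exact (((hmX _).sub (hmX _)).pow_const 2).ennreal_ofReal
      · refine liminf_le_of_le (by isBoundedDefault) fun b hb => ?_
        obtain ⟨N, hN⟩ := eventually_atTop.1 hb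
        refine (hN (max N n) (le_max_left _ _)).trans ?_
        exact V_exp hβ hB hmem hh one_mem (Nat.cast_nonneg n)
          (by exact_mod_cast le_max_right _ _)
    have h7 : ∫⁻ ω, ENNReal.ofReal (X B β n ω fun _ => 1) ∂(bbmLaw β Q) = 1 := by
      have h8 := integral_X hβ hB hmem hh one_mem (Nat.cast_nonneg n)
      have h9 := integrable_X hβ hB hmem hh one_mem (Nat.cast_nonneg n)
      rw [← ofReal_integral_eq_lintegral_ofReal h9 (ae_of_all _ fun ω => X_nonneg _ _ _), h8]
      simp
    have h10 : (2 : ℝ≥0∞) * 1 ≤ 1 + ENNReal.ofReal (6 * Real.exp (-(β * n))) := by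
      calc (2 : ℝ≥0∞) * 1 = 2 * ∫⁻ ω, ENNReal.ofReal (X B β n ω fun _ => 1) ∂(bbmLaw β Q) := by
            rw [h7]
        _ = ∫⁻ ω, 2 * ENNReal.ofReal (X B β n ω fun _ => 1) ∂(bbmLaw β Q) := by
            rw [lintegral_const_mul _ (hmX _).ennreal_ofReal]
        _ ≤ ∫⁻ ω, (1 + ENNReal.ofReal ((X B β n ω fun _ => 1) ^ 2)) ∂(bbmLaw β Q) := by
            refine lintegral_mono fun ω => ?_
            change 2 * ENNReal.ofReal (X B β n ω fun _ => 1) ≤
              1 + ENNReal.ofReal ((X B β n ω fun _ => 1) ^ 2)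
            generalize (X B β n ω fun _ => 1) = x
            rw [← ENNReal.ofReal_ofNat, ← ENNReal.ofReal_mul (by norm_num), ← ENNReal.ofReal_one,
              ← ENNReal.ofReal_add (by norm_num) (sq_nonneg _)]
            refine ENNReal.ofReal_le_ofReal ?_
            nlinarith [sq_nonneg (x - 1)]
        _ = 1 + ∫⁻ ω, ENNReal.ofReal ((X B β n ω fun _ => 1) ^ 2) ∂(bbmLaw β Q) := by
            rw [lintegral_add_left measurable_const, lintegral_const, measure_univ, mul_one]
        _ ≤ _ := by gcongr
    rw [mul_one, ← ENNReal.ofReal_ofNat, ← ENNReal.ofReal_one,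
      ← ENNReal.ofReal_add (by norm_num) (by positivity),
      ENNReal.ofReal_le_ofReal_iff (by positivity)] at h10
    linarith
  have h2 : Tendsto (fun n : ℕ => 6 * Real.exp (-(β * n))) atTop (𝓝 (6 * 0)) := by
    refine Tendsto.const_mul _ (Real.tendsto_exp_neg_atTop_nhds_zero.comp ?_)
    exact tendsto_natCast_atTop_atTop.const_mul_atTop hβ
  have h3 := ge_of_tendsto' h2 key
  norm_num at h3

theorem ae_mass_pos : ∀ᵐ ω ∂(bbmLaw β Q), Minf β B Q ω Set.univ ≠ 0 := by
  have := isProbabilityMeasure_expMeasure hβ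
  have hP : IsProbabilityMeasure (bbmLaw β Q) := by unfold bbmLaw; infer_instance
  have hlaw : bbmLaw β Q = PT ((expMeasure β).prod Q) := rfl
  set A : Set (Om E) := {ω | Minf β B Q ω Set.univ = 0} with hA
  have hAm : MeasurableSet A :=
    (measurable_mass hB) (measurableSet_singleton 0)
  have h1 : bbmLaw β Q A = bbmLaw β Q A * bbmLaw β Q A := by
    have hind : Measurable (A.indicator (fun _ => (1 : ℝ≥0∞))) :=
      measurable_const.indicator hAm
    have e1 : bbmLaw β Q A = ∫⁻ m, ∫⁻ a, ∫⁻ c, A.indicator (fun _ => (1 : ℝ≥0∞)) a *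
        A.indicator (fun _ => (1 : ℝ≥0∞)) c
          ∂(PT ((expMeasure β).prod Q)) ∂(PT ((expMeasure β).prod Q)) ∂((expMeasure β).prod Q) := by
      rw [← lintegral_indicator_one hAm, hlaw]
      have e2 := lintegral_tree ((expMeasure β).prod Q) hind
      refine e2.trans ?_
      refine lintegral_congr_ae ?_
      filter_upwards [Minf_rec hβ hB hmem hh hy] with m hm
      refine lintegral_congr_ae ?_
      filter_upwards [hm] with a ha
      refine lintegral_congr_ae ?_
      filter_upwards [ha] with c hc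
      have e3 : Minf β B Q (asm (m, a, c)) Set.univ = ENNReal.ofReal (Real.exp (-(β * m.1))) *
          (Minf β B Q a Set.univ + Minf β B Q c Set.univ) := by
        rw [hc, Measure.smul_apply, Measure.add_apply,
          Measure.map_apply (measurable_moveTo_left _) MeasurableSet.univ,
          Measure.map_apply (measurable_moveTo_left _) MeasurableSet.univ,
          Set.preimage_univ, smul_eq_mul]
      have e4 : asm (m, a, c) ∈ A ↔ a ∈ A ∧ c ∈ A := by
        rw [hA, Set.mem_ofPred_eq, Set.mem_ofPred_eq, Set.mem_ofPred_eq, e3, mul_eq_zero,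
          add_eq_zero]
        constructor
        · rintro (h | h)
          · rw [ENNReal.ofReal_eq_zero] at h
            exact absurd h (not_le.2 (Real.exp_pos _))
          · exact h
        · exact fun h => Or.inr h
      by_cases ha' : a ∈ A
      · by_cases hc' : c ∈ A
        · rw [Set.indicator_of_mem (e4.2 ⟨ha', hc'⟩), Set.indicator_of_mem ha',
            Set.indicator_of_mem hc', mul_one]
        · rw [Set.indicator_of_notMem (fun h => hc' (e4.1 h).2), Set.indicator_of_notMem hc',
            mul_zero]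
      · rw [Set.indicator_of_notMem (fun h => ha' (e4.1 h).1), Set.indicator_of_notMem ha',
          zero_mul]
    conv_lhs => rw [e1]
    have e5 : ∀ a : Om E, ∫⁻ c, A.indicator (fun _ => (1 : ℝ≥0∞)) a *
        A.indicator (fun _ => (1 : ℝ≥0∞)) c ∂(PT ((expMeasure β).prod Q)) =
        A.indicator (fun _ => (1 : ℝ≥0∞)) a * bbmLaw β Q A := by
      intro a
      rw [lintegral_const_mul _ hind, ← hlaw]
      congr 1
      exact lintegral_indicator_one hAm
    simp_rw [e5]
    rw [lintegral_mul_const _ hind, lintegral_const, measure_univ, mul_one, ← hlaw]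
    congr 1
    exact lintegral_indicator_one hAm
  have h2 : bbmLaw β Q A ≠ 1 := by
    intro h
    refine mass_ne hβ hB hmem hh hy ?_
    have h3 : ∀ᵐ ω ∂(bbmLaw β Q), ω ∈ A := by
      rw [← prob_compl_eq_zero_iff hAm] at h
      rw [ae_iff]; exact h
    exact h3
  have h3 : bbmLaw β Q A = 0 := by
    by_contra h0
    have h4 : bbmLaw β Q A * 1 = bbmLaw β Q A * bbmLaw β Q A := by rw [mul_one]; exact h1
    exact h2 ((ENNReal.mul_right_inj h0 (measure_ne_top _ _)).1 h4).symm
  rw [ae_iff]
  simpa [hA] using h3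

end Pool.Agent.Lib.P46005
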