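import Mathlib

/-!
# Bounded monotone functions below their averages

A bounded nondecreasing function `g` with `g x ≤ E g (x + Y)`, where `Y` is integrable and centred
and has unbounded positive part, is constant.
-/

open MeasureTheory Filter
open scoped NNReal ENNReal Topology

namespace Pool.Agent.Lib.P46005

section

variable {g : ℝ → ℝ} (hmono : Monotone g)

include hmono

lemma mono_ii (a b : ℝ) : IntervalIntegrable g volume a b := hmono.intervalIntegrable

lemma D_lower (x y : ℝ) : y * g x ≤ ∫ s in x..(x + y), g s := by
  rcases le_total 0 y with hy | hy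
  · have h1 : ∫ _ in x..(x + y), g x = y * g x := by
      rw [intervalIntegral.integral_const, smul_eq_mul]; ring
    rw [← h1]
    refine intervalIntegral.integral_mono_on (by linarith) intervalIntegrable_const
      (mono_ii hmono _ _) fun s hs => hmono hs.1
  · have h1 : ∫ _ in (x + y)..x, g x = -(y * g x) := by
      rw [intervalIntegral.integral_const, smul_eq_mul]; ring
    rw [intervalIntegral.integral_symm, le_neg, ← h1]
    refine intervalIntegral.integral_mono_on (by linarith) (mono_ii hmono _ _)
      intervalIntegrable_const fun s hs => hmono hs.2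

lemma D_upper (x y : ℝ) : ∫ s in x..(x + y), g s ≤ y * g (x + y) := by
  rcases le_total 0 y with hy | hy
  · have h1 : ∫ _ in x..(x + y), g (x + y) = y * g (x + y) := by
      rw [intervalIntegral.integral_const, smul_eq_mul]; ring
    rw [← h1]
    refine intervalIntegral.integral_mono_on (by linarith) (mono_ii hmono _ _)
      intervalIntegrable_const fun s hs => hmono hs.2
  · have h1 : ∫ _ in (x + y)..x, g (x + y) = -(y * g (x + y)) := by
      rw [intervalIntegral.integral_const, smul_eq_mul]; ring
    rw [intervalIntegral.integral_symm, neg_le, ← h1]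
    refine intervalIntegral.integral_mono_on (by linarith) intervalIntegrable_const
      (mono_ii hmono _ _) fun s hs => hmono hs.1

lemma D_diff (A K y : ℝ) : (∫ s in K..(K + y), g s) - ∫ s in A..(A + y), g s =
    ∫ x in A..K, (g (x + y) - g x) := by
  have hi := mono_ii hmono
  have hshift : IntervalIntegrable (fun x => g (x + y)) volume A K := by
    have : Monotone fun x => g (x + y) := fun a b hab => hmono (by linarith)
    exact this.intervalIntegrable
  rw [intervalIntegral.integral_sub hshift (hi _ _),
    intervalIntegral.integral_comp_add_right (fun x => g x) y]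
  have h1 : (∫ s in K..(K + y), g s) + ∫ s in A..K, g s = ∫ s in A..(K + y), g s := by
    rw [add_comm]; exact intervalIntegral.integral_add_adjacent_intervals (hi _ _) (hi _ _)
  have h2 : (∫ s in A..(A + y), g s) + ∫ s in (A + y)..(K + y), g s = ∫ s in A..(K + y), g s :=
    intervalIntegral.integral_add_adjacent_intervals (hi _ _) (hi _ _)
  linarith

variable {ν : Measure ℝ} [IsProbabilityMeasure ν] (hint : Integrable (fun y => y) ν)
  (h0 : ∫ y, y ∂ν = 0) {C : ℝ} (hC : ∀ x, 0 ≤ g x ∧ g x ≤ C)
  (hsub : ∀ x, g x ≤ ∫ y, g (x + y) ∂ν)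

omit hmono [IsProbabilityMeasure ν] in
lemma meas_g (hmono : Monotone g) : Measurable g := hmono.measurable

include hint hC

lemma integrable_D (x : ℝ) : Integrable (fun y => ∫ s in x..(x + y), g s) ν := by
  have hc : Continuous fun y => ∫ s in x..(x + y), g s := by
    have h1 : Continuous fun z => ∫ s in x..z, g s :=
      intervalIntegral.continuous_primitive (mono_ii hmono) x
    exact h1.comp (continuous_const.add continuous_id)
  refine (hint.norm.const_mul C).mono' hc.aestronglyMeasurable (ae_of_all _ fun y => ?_)
  have h1 := D_lower hmono x y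
  have h2 := D_upper hmono x y
  have h3 := hC x
  have h4 := hC (x + y)
  rw [Real.norm_eq_abs, Real.norm_eq_abs, abs_le]
  rcases le_total 0 y with hy | hy
  · rw [abs_of_nonneg hy]
    constructor
    · nlinarith
    · nlinarith
  · rw [abs_of_nonpos hy]
    constructor
    · nlinarith
    · nlinarith

lemma integrable_yg (x : ℝ) : Integrable (fun y => y * g (x + y)) ν := by
  have hm : Measurable fun y => y * g (x + y) :=
    measurable_id.mul (hmono.measurable.comp (measurable_const.add measurable_id))
  refine (hint.norm.const_mul C).mono' hm.aestronglyMeasurable (ae_of_all _ fun y => ?_)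
  rw [norm_mul, Real.norm_eq_abs, Real.norm_eq_abs, abs_of_nonneg (hC _).1, mul_comm]
  exact mul_le_mul_of_nonneg_right (hC _).2 (abs_nonneg _)

include hsub

lemma R_mono {A K : ℝ} (hAK : A ≤ K) :
    ∫ y, (∫ s in A..(A + y), g s) ∂ν ≤ ∫ y, (∫ s in K..(K + y), g s) ∂ν := by
  rw [← sub_nonneg, ← integral_sub (integrable_D hmono hint hC K) (integrable_D hmono hint hC A)]
  simp_rw [D_diff hmono]
  have hm : Measurable (Function.uncurry fun x y => g (x + y) - g x) :=
    (hmono.measurable.comp (measurable_fst.add measurable_snd)).sub
      (hmono.measurable.comp measurable_fst)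
  have hfin : IsFiniteMeasure (volume.restrict (Set.uIoc A K)) := by
    refine ⟨?_⟩
    rw [Measure.restrict_apply_univ, Set.uIoc_of_le hAK]
    simp
  have hi : Integrable (Function.uncurry fun x y => g (x + y) - g x)
      ((volume.restrict (Set.uIoc A K)).prod ν) := by
    refine Integrable.of_bound hm.aestronglyMeasurable C (ae_of_all _ fun p => ?_)
    change |g (p.1 + p.2) - g p.1| ≤ C
    rw [abs_le]
    have h1 := hC (p.1 + p.2)
    have h2 := hC p.1
    constructor <;> linarith
  rw [← intervalIntegral_integral_swap hi]
  refine intervalIntegral.integral_nonneg hAK fun x _ => ?_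
  have h1 : Integrable (fun y => g (x + y)) ν := by
    refine Integrable.of_bound
      (hmono.measurable.comp (measurable_const.add measurable_id)).aestronglyMeasurable C
      (ae_of_all _ fun y => ?_)
    rw [Real.norm_eq_abs, abs_of_nonneg (hC _).1]
    exact (hC _).2
  rw [integral_sub h1 (integrable_const _), integral_const, probReal_univ, one_smul]
  linarith [hsub x]

include h0

lemma R_eq_zero (x : ℝ) : ∫ y, (∫ s in x..(x + y), g s) ∂ν = 0 := by
  refine le_antisymm ?_ ?_
  · -- the limit along the integers
    have hbdd : BddAbove (Set.range g) := ⟨C, by rintro _ ⟨x, rfl⟩; exact (hC x).2⟩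
    have hlim : Tendsto g atTop (𝓝 (⨆ x, g x)) := tendsto_atTop_ciSup hmono hbdd
    have h1 : Tendsto (fun n : ℕ => ∫ y, y * g (n + y) ∂ν) atTop (𝓝 (∫ y, y * (⨆ x, g x) ∂ν)) := by
      refine tendsto_integral_of_dominated_convergence (fun y => C * ‖y‖) (fun n => ?_)
        (hint.norm.const_mul C) (fun n => ae_of_all _ fun y => ?_) (ae_of_all _ fun y => ?_)
      · exact (integrable_yg hmono hint hC (n : ℝ)).aestronglyMeasurable
      · rw [norm_mul, Real.norm_eq_abs (g _), abs_of_nonneg (hC _).1, mul_comm]
        exact mul_le_mul_of_nonneg_right (hC _).2 (norm_nonneg _)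
      · refine Tendsto.const_mul _ (hlim.comp ?_)
        exact tendsto_atTop_add_const_right _ _ tendsto_natCast_atTop_atTop
    rw [integral_mul_const, h0, zero_mul] at h1
    refine ge_of_tendsto h1 ?_
    obtain ⟨N, hN⟩ := exists_nat_ge x
    filter_upwards [eventually_ge_atTop N] with n hn
    have hxn : x ≤ n := hN.trans (by exact_mod_cast hn)
    refine (R_mono hmono hint hC hsub hxn).trans ?_
    exact integral_mono (integrable_D hmono hint hC _) (integrable_yg hmono hint hC _)
      fun y => D_upper hmono _ _
  · have h1 : ∫ y, y * g x ∂ν = 0 := by rw [integral_mul_const, h0, zero_mul]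
    rw [← h1]
    exact integral_mono (hint.mul_const _) (integrable_D hmono hint hC x)
      fun y => D_lower hmono _ _

theorem const_of_submean (hcharge : ∀ b : ℝ, 0 < ν (Set.Ioi b)) (x : ℝ) {b : ℝ} (hb : 0 < b) :
    g (x + b) = g x := by
  have h1 : ∫ y, ((∫ s in x..(x + y), g s) - y * g x) ∂ν = 0 := by
    rw [integral_sub (integrable_D hmono hint hC x) (hint.mul_const _), integral_mul_const, h0,
      zero_mul, sub_zero]
    exact R_eq_zero hmono hint h0 hC hsub x
  rw [integral_eq_zero_iff_of_nonneg (fun y => sub_nonneg.2 (D_lower hmono x y))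
    ((integrable_D hmono hint hC x).sub (hint.mul_const _))] at h1
  obtain ⟨y, hy1, hy2⟩ : ∃ y ∈ Set.Ioi b, (∫ s in x..(x + y), g s) - y * g x = 0 := by
    by_contra hcon
    push Not at hcon
    have h2 : ν (Set.Ioi b) ≤ ν {y | ¬ ((∫ s in x..(x + y), g s) - y * g x = 0)} :=
      measure_mono fun y hy => hcon y hy
    have h3 : ν {y | ¬ ((∫ s in x..(x + y), g s) - y * g x = 0)} = 0 := by
      rw [← ae_iff]; exact h1
    rw [h3] at h2
    exact absurd (hcharge b) (not_lt.2 h2)
  rw [Set.mem_Ioi] at hy1
  refine le_antisymm ?_ (hmono (by linarith))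
  have h2 := D_lower hmono x b
  have h3 := D_lower hmono (x + b) (y - b)
  have h4 : (∫ s in x..(x + b), g s) + ∫ s in (x + b)..(x + b + (y - b)), g s =
      ∫ s in x..(x + y), g s := by
    have e : x + b + (y - b) = x + y := by ring
    rw [e]
    exact intervalIntegral.integral_add_adjacent_intervals (mono_ii hmono _ _)
      (mono_ii hmono _ _)
  have h5 : (y - b) * g (x + b) ≤ (y - b) * g x := by nlinarith
  exact le_of_mul_le_mul_left h5 (by linarith)

end

end Pool.Agent.Lib.P46005
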