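import Mathlib

/-!
# The truncated mass functional

`T c L` is the total mass of the infimum of `L` and `c` times Lebesgue measure.
-/

open MeasureTheory Filter
open scoped NNReal ENNReal Topology

namespace Pool.Agent.Lib.P46005

/-- Finite unions of open intervals with rational end points. -/
def UF (F : Finset (ℚ × ℚ)) : Set ℝ := ⋃ p ∈ F, Set.Ioo (p.1 : ℝ) p.2

lemma isOpen_UF (F : Finset (ℚ × ℚ)) : IsOpen (UF F) :=
  isOpen_biUnion fun _ _ => isOpen_Ioo

lemma UF_mono {F G : Finset (ℚ × ℚ)} (h : F ⊆ G) : UF F ⊆ UF G :=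
  Set.biUnion_subset_biUnion_left fun _ hp => h hp

lemma volume_UF_lt (F : Finset (ℚ × ℚ)) : volume (UF F) < ⊤ := by
  unfold UF
  refine (measure_biUnion_finset_le F _).trans_lt ?_
  refine ENNReal.sum_lt_top.2 fun p _ => ?_
  rw [Real.volume_Ioo]
  exact ENNReal.ofReal_lt_top

/-- The truncated mass. -/
noncomputable def T (c : ℝ≥0∞) (L : Measure ℝ) : ℝ≥0∞ :=
  ⨅ F : Finset (ℚ × ℚ), (L (UF F)ᶜ + c * volume (UF F))

lemma measurable_T : Measurable fun p : ℝ≥0∞ × Measure ℝ => T p.1 p.2 := by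
  unfold T
  refine Measurable.iInf fun F => ?_
  have h1 : Measurable fun p : ℝ≥0∞ × Measure ℝ => p.2 (UF F)ᶜ :=
    (Measure.measurable_coe (isOpen_UF F).measurableSet.compl).comp measurable_snd
  exact h1.add (measurable_fst.mul_const _)

lemma T_le_univ (c : ℝ≥0∞) (L : Measure ℝ) : T c L ≤ L Set.univ := by
  refine (iInf_le _ ∅).trans ?_
  simp [UF]

lemma T_mono {c c' : ℝ≥0∞} (h : c ≤ c') (L : Measure ℝ) : T c L ≤ T c' L :=
  iInf_mono fun F => by gcongr

/-- Every open set is an increasing union of sets `UF F`. -/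
lemma exists_UF {U : Set ℝ} (hU : IsOpen U) : ∃ F : ℕ → Finset (ℚ × ℚ),
    Monotone (fun n => UF (F n)) ∧ ⋃ n, UF (F n) = U := by
  classical
  obtain ⟨e, he⟩ := exists_surjective_nat (ℚ × ℚ)
  refine ⟨fun n => ((Finset.range n).image e).filter fun p => Set.Ioo (p.1 : ℝ) p.2 ⊆ U, ?_, ?_⟩
  · intro n m hnm
    refine UF_mono ?_
    refine Finset.filter_subset_filter _ (Finset.image_subset_image ?_)
    exact Finset.range_mono hnm
  · ext x
    simp only [Set.mem_iUnion, UF, Finset.mem_filter, Finset.mem_image, Finset.mem_range,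
      exists_prop]
    constructor
    · rintro ⟨n, p, ⟨_, h2⟩, h3⟩
      exact h2 h3
    · intro hx
      obtain ⟨ε, hε, hball⟩ := Metric.isOpen_iff.1 hU x hx
      obtain ⟨a, ha1, ha2⟩ := exists_rat_btwn (show x - ε < x by linarith)
      obtain ⟨b, hb1, hb2⟩ := exists_rat_btwn (show x < x + ε by linarith)
      obtain ⟨k, hk⟩ := he (a, b)
      refine ⟨k + 1, (a, b), ⟨⟨k, Nat.lt_succ_self k, hk⟩, ?_⟩, ha2, hb1⟩
      intro w hw
      refine hball ?_
      rw [Metric.mem_ball, Real.dist_eq, abs_lt]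
      constructor
      · linarith [hw.1]
      · linarith [hw.2]

lemma T_le_open {c : ℝ≥0∞} (L : Measure ℝ) [IsFiniteMeasure L] {U : Set ℝ}
    (hU : IsOpen U) : T c L ≤ L Uᶜ + c * volume U := by
  obtain ⟨F, hF1, hF2⟩ := exists_UF hU
  have h1 : ∀ n, T c L ≤ L (UF (F n))ᶜ + c * volume U := fun n => by
    refine (iInf_le _ (F n)).trans ?_
    gcongr
    rw [← hF2]; exact Set.subset_iUnion (fun n => UF (F n)) n
  have h2 : Tendsto (fun n => L (UF (F n))ᶜ) atTop (𝓝 (L (⋂ n, (UF (F n))ᶜ))) := by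
    refine tendsto_measure_iInter_atTop (fun n => ?_) ?_ ⟨0, measure_ne_top _ _⟩
    · exact (isOpen_UF _).measurableSet.compl.nullMeasurableSet
    · intro n m hnm
      exact Set.compl_subset_compl.2 (hF1 hnm)
  have h3 : (⋂ n, (UF (F n))ᶜ) = Uᶜ := by rw [← Set.compl_iUnion, hF2]
  rw [h3] at h2
  exact ge_of_tendsto' (h2.add_const _) h1

lemma T_le_borel {c : ℝ≥0∞} (hc : c ≠ ⊤) (L : Measure ℝ) [IsFiniteMeasure L] {A : Set ℝ}
    (hA : volume A ≠ ⊤) : T c L ≤ L Aᶜ + c * volume A := by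
  refine ENNReal.le_of_forall_pos_le_add fun ε hε _ => ?_
  by_cases hc0 : c = 0
  · have h1 : T c L ≤ L (Set.univ)ᶜ + c * volume (Set.univ : Set ℝ) := T_le_open L isOpen_univ
    rw [hc0] at h1 ⊢
    simp only [Set.compl_univ, measure_empty, zero_mul, add_zero] at h1
    exact h1.trans zero_le
  · have hε' : (ε : ℝ≥0∞) / c ≠ 0 := by
      rw [ne_eq, ENNReal.div_eq_zero_iff]
      push Not
      exact ⟨by exact_mod_cast hε.ne', hc⟩
    obtain ⟨U, hU1, hU2, hU3⟩ := A.exists_isOpen_lt_add hA hε'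
    refine (T_le_open L hU2).trans ?_
    calc L Uᶜ + c * volume U ≤ L Aᶜ + c * (volume A + ε / c) := by
          gcongr
      _ = L Aᶜ + c * volume A + ε := by
          rw [mul_add, ENNReal.mul_div_cancel hc0 hc, add_assoc]

/-- Behaviour under the recursion. -/
lemma T_rec {c : ℝ≥0∞} (hc : c ≠ ⊤) (L0 L1 : Measure ℝ) [IsFiniteMeasure L0] [IsFiniteMeasure L1]
    {a x y : ℝ} (ha : 0 < a) (hy : 0 < y) :
    T c (ENNReal.ofReal a • (L0.map (fun s => x + y * s) + L1.map (fun s => x + y * s))) ≤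
      ENNReal.ofReal a * (T (c * ENNReal.ofReal (y / a)) L0 + T (c * ENNReal.ofReal (y / a)) L1) := by
  set A : ℝ → ℝ := fun s => x + y * s with hA
  have hAm : Measurable A := by fun_prop
  have ha0 : ENNReal.ofReal a ≠ 0 := by
    rw [ne_eq, ENNReal.ofReal_eq_zero]; linarith
  have hfin : IsFiniteMeasure (ENNReal.ofReal a • (L0.map A + L1.map A)) :=
    Measure.smul_finite _ ENNReal.ofReal_ne_top
  have key : ∀ F0 F1 : Finset (ℚ × ℚ), T c (ENNReal.ofReal a • (L0.map A + L1.map A)) ≤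
      ENNReal.ofReal a * ((L0 (UF F0)ᶜ + c * ENNReal.ofReal (y / a) * volume (UF F0)) +
        (L1 (UF F1)ᶜ + c * ENNReal.ofReal (y / a) * volume (UF F1))) := by
    intro F0 F1
    set g : ℝ → ℝ := fun r => y⁻¹ * (r + (-x)) with hg
    have hgA : ∀ s, g (A s) = s := fun s => by
      simp only [hg, hA]; field_simp; ring
    have hgm : Measurable g := by fun_prop
    have hvol : ∀ s : Set ℝ, volume (g ⁻¹' s) = ENNReal.ofReal y * volume s := by
      intro s
      have h1 : g ⁻¹' s = (fun r => r + (-x)) ⁻¹' ((fun r => y⁻¹ * r) ⁻¹' s) := rfl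
      rw [h1, measure_preimage_add_right, Real.volume_preimage_mul_left (inv_ne_zero hy.ne'),
        inv_inv, abs_of_pos hy]
    set D : Set ℝ := g ⁻¹' (UF F0) ∪ g ⁻¹' (UF F1) with hD
    have hDv : volume D ≤ ENNReal.ofReal y * (volume (UF F0) + volume (UF F1)) := by
      refine (measure_union_le _ _).trans ?_
      rw [hvol, hvol, mul_add]
    have hDm : MeasurableSet D :=
      (hgm (isOpen_UF F0).measurableSet).union (hgm (isOpen_UF F1).measurableSet)
    have hDt : volume D ≠ ⊤ := by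
      refine (hDv.trans_lt ?_).ne
      exact ENNReal.mul_lt_top ENNReal.ofReal_lt_top
        (ENNReal.add_lt_top.2 ⟨volume_UF_lt _, volume_UF_lt _⟩)
    have h0 : A ⁻¹' Dᶜ ⊆ (UF F0)ᶜ := by
      intro s hs hs2
      exact hs (Or.inl (by rw [Set.mem_preimage, hgA]; exact hs2))
    have h1 : A ⁻¹' Dᶜ ⊆ (UF F1)ᶜ := by
      intro s hs hs2
      exact hs (Or.inr (by rw [Set.mem_preimage, hgA]; exact hs2))
    have hay : ENNReal.ofReal a * ENNReal.ofReal (y / a) = ENNReal.ofReal y := by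
      rw [← ENNReal.ofReal_mul ha.le, mul_div_cancel₀ _ ha.ne']
    calc T c (ENNReal.ofReal a • (L0.map A + L1.map A))
        ≤ (ENNReal.ofReal a • (L0.map A + L1.map A)) Dᶜ + c * volume D := T_le_borel hc _ hDt
      _ = ENNReal.ofReal a * (L0 (A ⁻¹' Dᶜ) + L1 (A ⁻¹' Dᶜ)) + c * volume D := by
          rw [Measure.smul_apply, Measure.add_apply, Measure.map_apply hAm hDm.compl,
            Measure.map_apply hAm hDm.compl, smul_eq_mul]
      _ ≤ ENNReal.ofReal a * (L0 (UF F0)ᶜ + L1 (UF F1)ᶜ) +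
          c * (ENNReal.ofReal y * (volume (UF F0) + volume (UF F1))) := by gcongr
      _ = _ := by rw [← hay]; ring
  unfold T at key ⊢
  rw [ENNReal.iInf_add]
  simp_rw [ENNReal.add_iInf]
  rw [ENNReal.mul_iInf_of_ne ha0 ENNReal.ofReal_ne_top]
  refine le_iInf fun F0 => ?_
  rw [ENNReal.mul_iInf_of_ne ha0 ENNReal.ofReal_ne_top]
  exact le_iInf fun F1 => key F0 F1

lemma T_tendsto (L : Measure ℝ) [IsFiniteMeasure L] :
    Tendsto (fun n : ℕ => T (ENNReal.ofReal (Real.exp (-n))) L) atTop (𝓝 0) := by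
  have h1 : ∀ n : ℕ, T (ENNReal.ofReal (Real.exp (-n))) L ≤
      L (Set.Ioo (-(n : ℝ)) n)ᶜ + ENNReal.ofReal (Real.exp (-n) * (2 * n)) := by
    intro n
    refine (T_le_open L (U := Set.Ioo (-(n : ℝ)) n) isOpen_Ioo).trans ?_
    rw [Real.volume_Ioo, ← ENNReal.ofReal_mul (Real.exp_pos _).le]
    gcongr
    apply le_of_eq
    ring
  have h2 : Tendsto (fun n : ℕ => L (Set.Ioo (-(n : ℝ)) n)ᶜ) atTop
      (𝓝 (L (⋂ n : ℕ, (Set.Ioo (-(n : ℝ)) n)ᶜ))) := by
    refine tendsto_measure_iInter_atTop (fun n => ?_) ?_ ⟨0, measure_ne_top _ _⟩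
    · exact measurableSet_Ioo.compl.nullMeasurableSet
    · intro n m hnm
      refine Set.compl_subset_compl.2 (Set.Ioo_subset_Ioo ?_ ?_)
      · exact neg_le_neg (by exact_mod_cast hnm)
      · exact_mod_cast hnm
  have h3 : (⋂ n : ℕ, (Set.Ioo (-(n : ℝ)) n)ᶜ) = ∅ := by
    rw [← Set.compl_iUnion, Set.compl_empty_iff]
    ext x
    simp only [Set.mem_iUnion, Set.mem_Ioo, Set.mem_univ, iff_true]
    obtain ⟨n, hn⟩ := exists_nat_gt |x|
    exact ⟨n, abs_lt.1 hn⟩
  rw [h3, measure_empty] at h2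
  have h4 : Tendsto (fun n : ℕ => ENNReal.ofReal (Real.exp (-n) * (2 * n))) atTop (𝓝 0) := by
    have h5 := (Real.tendsto_pow_mul_exp_neg_atTop_nhds_zero 1).comp
      (tendsto_natCast_atTop_atTop (R := ℝ))
    have h6 := ENNReal.tendsto_ofReal (h5.const_mul 2)
    rw [mul_zero, ENNReal.ofReal_zero] at h6
    refine h6.congr fun n => ?_
    congr 1
    simp only [Function.comp_apply, pow_one]
    ring
  have h7 := h2.add h4
  rw [add_zero] at h7
  exact tendsto_of_tendsto_of_tendsto_of_le_of_le tendsto_const_nhds h7 (fun _ => zero_le) h1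

lemma sing_of_T {L : Measure ℝ} (h : T 1 L = 0) : L ⟂ₘ volume := by
  refine Measure.mutuallySingular_of_disjoint ?_
  intro ξ h1 h2
  have h3 : ξ Set.univ ≤ 0 := by
    rw [← h]
    refine le_iInf fun F => ?_
    calc ξ Set.univ = ξ ((UF F)ᶜ ∪ UF F) := by rw [Set.compl_union_self]
      _ ≤ ξ (UF F)ᶜ + ξ (UF F) := measure_union_le _ _
      _ ≤ L (UF F)ᶜ + 1 * volume (UF F) := by
          rw [one_mul]
          exact add_le_add (h1 _) (h2 _)
  have h4 : ξ = 0 := Measure.measure_univ_eq_zero.1 (le_antisymm h3 zero_le)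
  rw [h4]
  exact le_refl _

end Pool.Agent.Lib.P46005
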