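import Mathlib
import Pool.Agent.Lib.P46005.LawY

/-!
# The law of `log yP (B t)` and the class of multiples of the square root of the Poisson kernel
-/

open MeasureTheory ProbabilityTheory Filter
open scoped ComplexConjugate NNReal ENNReal Topology

namespace Pool.Agent.Lib.P46005

variable {E : Type} [MeasurableSpace E] {B : ℝ≥0 → E → ℂ} {Q : Measure E}
  [IsProbabilityMeasure Q]

theorem map_lY (h : IsHypBM B Q) (t : ℝ≥0) :
    Q.map (fun e => lY (B t e)) = gaussianReal (-(t / 2)) t := by
  have hm : Measurable fun e => lY (B t e) := measurable_lY.comp (h.meas t)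
  have : IsProbabilityMeasure (Q.map (fun e => lY (B t e))) :=
    Measure.isProbabilityMeasure_map hm.aemeasurable
  refine Measure.ext_of_charFun ?_
  funext θ
  rw [charFun_apply_real, charFun_gaussianReal,
    integral_map hm.aemeasurable (by fun_prop)]
  rw [charFun_lY h θ t]
  congr 1
  push_cast
  ring

lemma sy_eq_exp {z : ℂ} (hz : ‖z‖ < 1) : sy z = ENNReal.ofReal (Real.exp (1 / 2 * lY z)) := by
  unfold sy lY
  congr 1
  rw [Real.sqrt_eq_rpow, Real.rpow_def_of_pos (yP_pos hz), mul_comm]

lemma lintegral_sy (h : IsHypBM B Q) (t : ℝ≥0) :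
    ∫⁻ e, sy (B t e) ∂Q = ENNReal.ofReal (Real.exp (-1 / 8 * t)) := by
  have hm : Measurable fun e => lY (B t e) := measurable_lY.comp (h.meas t)
  have h1 : ∀ e, sy (B t e) = ENNReal.ofReal (Real.exp (1 / 2 * lY (B t e))) := fun e =>
    sy_eq_exp (h.mem t e)
  simp_rw [h1]
  have h2 : Measurable fun x : ℝ => ENNReal.ofReal (Real.exp (1 / 2 * x)) := by fun_prop
  have h3 := lintegral_map (μ := Q) (f := fun x : ℝ => ENNReal.ofReal (Real.exp (1 / 2 * x))) h2 hm
  rw [← h3, map_lY h t, ← ofReal_integral_eq_lintegral_ofReal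
    (integrable_exp_mul_gaussianReal _) (ae_of_all _ fun x => (Real.exp_pos _).le)]
  have h4 := mgf_gaussianReal (p := gaussianReal (-(t / 2)) t) (X := id) (μ := -(t / 2)) (v := t)
    (by simp) (1 / 2)
  unfold mgf at h4
  simp only [id_eq] at h4
  rw [h4]
  congr 2
  ring

theorem cls_y (h : IsHypBM B Q) : Cls B Q (-1 / 8) Hy where
  meas := fun F hF => hF.1
  closed := by
    rintro F ⟨hFm, a, hF⟩ z hz
    refine ⟨hFm.comp ?_, a * (Real.sqrt (yP z)).toNNReal, fun w hw => ?_⟩
    · have h : Measurable (Function.uncurry moveTo) := measurable_moveTo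
      exact h.of_uncurry_left
    · change F (moveTo z w) = _
      rw [hF _ (norm_moveTo_lt hz hw)]
      have h1 : sy (moveTo z w) = ((Real.sqrt (yP z)).toNNReal : ℝ≥0∞) * sy w := by
        unfold sy
        rw [yP_moveTo hz hw, Real.sqrt_mul (yP_pos hz).le, ENNReal.ofReal_mul (Real.sqrt_nonneg _)]
        rfl
      rw [h1]
      push_cast
      ring
  mean := by
    rintro F ⟨hFm, a, hF⟩ t
    have h1 : ∀ e, F (B t e) = a * sy (B t e) := fun e => hF _ (h.mem t e)
    simp_rw [h1]
    rw [lintegral_const_mul' _ _ ENNReal.coe_ne_top, lintegral_sy h t, hF 0 (by simp)]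
    have h2 : sy 0 = 1 := by unfold sy; rw [yP_zero]; simp
    rw [h2, mul_one, mul_comm]

lemma map_lY_add (h : IsHypBM B Q) (t : ℝ≥0) :
    Q.map (fun e => lY (B t e) + t / 2) = gaussianReal 0 t := by
  have hm : Measurable fun e => lY (B t e) := measurable_lY.comp (h.meas t)
  have h1 := gaussianReal_map_add_const (μ := -(t / 2)) (v := t) ((t : ℝ) / 2)
  rw [← map_lY h t, Measure.map_map (by fun_prop) hm] at h1
  rw [show (0 : ℝ) = -(t / 2) + t / 2 by ring]
  exact h1

end Pool.Agent.Lib.P46005
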