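import Mathlib
import Pool.Agent.Lib.P46005.Mass
import Pool.Agent.Lib.P46005.YCls
import Pool.Agent.Lib.P46005.Cayley
import Pool.Agent.Lib.P46005.Trunc
import Pool.Agent.Lib.P46005.Submean

/-!
# Singularity of the limit measure at the critical branching rate
-/

open MeasureTheory ProbabilityTheory Filter
open scoped ComplexConjugate NNReal ENNReal Topology

namespace Pool.Agent.Lib.P46005

variable {E : Type} [MeasurableSpace E] {B : ℝ≥0 → E → ℂ} {Q : Measure E}
  [IsProbabilityMeasure Q]

/-- The expected truncated mass. -/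
noncomputable def Gf (β : ℝ) (B : ℝ≥0 → E → ℂ) (Q : Measure E) (c : ℝ≥0∞) : ℝ≥0∞ :=
  ∫⁻ ω, T c (Lf (Minf β B Q ω)) ∂(bbmLaw β Q)

omit [IsProbabilityMeasure Q] in
lemma measurable_LM {β : ℝ} (hB : Measurable fun p : ℝ≥0 × E => B p.1 p.2) :
    Measurable fun ω => Lf (Minf β B Q ω) :=
  measurable_Lf.comp (measurable_Minf hB)

omit [IsProbabilityMeasure Q] in
lemma measurable_TLM {β : ℝ} (hB : Measurable fun p : ℝ≥0 × E => B p.1 p.2) (c : ℝ≥0∞) :
    Measurable fun ω => T c (Lf (Minf β B Q ω)) := by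
  have h : Measurable fun μ : Measure ℝ => T c μ := measurable_T.comp measurable_prodMk_left
  exact h.comp (measurable_LM hB)

omit [IsProbabilityMeasure Q] in
lemma Gf_mono {β : ℝ} {c c' : ℝ≥0∞} (h : c ≤ c') : Gf β B Q c ≤ Gf β B Q c' :=
  lintegral_mono fun _ => T_mono h _

lemma Gf_le_one {β : ℝ} (hβ : 0 < β) (h : IsHypBM B Q) (c : ℝ≥0∞) : Gf β B Q c ≤ 1 := by
  refine le_trans (lintegral_mono fun ω => ?_)
    (lintegral_mass_le hβ h.joint h.mem (cls_harm h) (cls_y h))
  exact (T_le_univ _ _).trans (Lf_univ_le _)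

lemma Gf_rec {β : ℝ} (hβ : 0 < β) (h : IsHypBM B Q) {c : ℝ≥0∞} (hc : c ≠ ⊤) :
    Gf β B Q c ≤ ∫⁻ m, ENNReal.ofReal (Real.exp (-(β * m.1))) * (2 * Gf β B Q
      (c * ENNReal.ofReal (yP (B m.1.toNNReal m.2) / Real.exp (-(β * m.1)))))
      ∂((expMeasure β).prod Q) := by
  have := isProbabilityMeasure_expMeasure hβ
  have hlaw : bbmLaw β Q = PT ((expMeasure β).prod Q) := rfl
  conv_lhs => unfold Gf
  rw [hlaw]
  refine (lintegral_tree ((expMeasure β).prod Q) (measurable_TLM h.joint c)).trans_le ?_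
  refine lintegral_mono_ae ?_
  filter_upwards [Minf_rec hβ h.joint h.mem (cls_harm h) (cls_y h)] with m hm
  set z := B m.1.toNNReal m.2 with hz
  have hz1 : ‖z‖ < 1 := h.mem _ _
  set k := c * ENNReal.ofReal (yP z / Real.exp (-(β * m.1))) with hk
  have hT := measurable_TLM (β := β) (B := B) (Q := Q) h.joint k
  have e1 : ∀ᵐ a ∂(PT ((expMeasure β).prod Q)), ∫⁻ c', T c (Lf (Minf β B Q (asm (m, a, c'))))
      ∂(PT ((expMeasure β).prod Q)) ≤ ENNReal.ofReal (Real.exp (-(β * m.1))) *
      (T k (Lf (Minf β B Q a)) + Gf β B Q k) := by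
    filter_upwards [hm] with a ha
    have e2 : ∫⁻ c', T c (Lf (Minf β B Q (asm (m, a, c')))) ∂(PT ((expMeasure β).prod Q)) ≤
        ∫⁻ c', ENNReal.ofReal (Real.exp (-(β * m.1))) * (T k (Lf (Minf β B Q a)) +
          T k (Lf (Minf β B Q c'))) ∂(PT ((expMeasure β).prod Q)) := by
      refine lintegral_mono_ae ?_
      filter_upwards [ha] with c' hc'
      rw [hc', Lf_rec (Minf_sphere a) (Minf_sphere c') hz1]
      exact T_rec hc _ _ (Real.exp_pos _) (yP_pos hz1)
    refine e2.trans_eq ?_
    have h3 : Measurable fun c' : Om E => T k (Lf (Minf β B Q a)) + T k (Lf (Minf β B Q c')) :=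
      measurable_const.add hT
    rw [lintegral_const_mul _ h3, lintegral_add_left measurable_const,
      lintegral_const, measure_univ, mul_one]
    rfl
  refine (lintegral_mono_ae e1).trans_eq ?_
  have h4 : Measurable fun a : Om E => T k (Lf (Minf β B Q a)) + Gf β B Q k :=
    hT.add measurable_const
  rw [lintegral_const_mul _ h4, lintegral_add_right _ measurable_const,
    lintegral_const, measure_univ, mul_one, two_mul]
  rfl

/-- Change of the exponential rate. -/
lemma exp_change {f : ℝ → ℝ≥0∞} (hf : Measurable f) :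
    ∫⁻ x, ENNReal.ofReal (Real.exp (-(1 / 2 * x))) * (2 * f x) ∂(expMeasure (1 / 2)) =
      ∫⁻ x, f x ∂(expMeasure 1) := by
  rw [lintegral_expMeasure _ _ (by fun_prop), lintegral_expMeasure _ _ hf]
  refine lintegral_congr fun x => ?_
  by_cases hx : 0 ≤ x
  · rw [exponentialPDF_of_nonneg hx, exponentialPDF_of_nonneg hx, ← mul_assoc, ← mul_assoc,
      ← ENNReal.ofReal_mul (by positivity), ← ENNReal.ofReal_ofNat, ← ENNReal.ofReal_mul
        (by positivity)]
    congr 2
    have : Real.exp (-(1 * x)) = Real.exp (-(1 / 2 * x)) * Real.exp (-(1 / 2 * x)) := by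
      rw [← Real.exp_add]; congr 1; ring
    rw [this]; ring
  · rw [exponentialPDF_of_neg (not_le.1 hx), exponentialPDF_of_neg (not_le.1 hx)]
    simp

lemma exp_change_prod {Φ : ℝ × E → ℝ≥0∞} (hΦ : Measurable Φ) :
    ∫⁻ m, ENNReal.ofReal (Real.exp (-(1 / 2 * m.1))) * (2 * Φ m)
      ∂((expMeasure (1 / 2)).prod Q) = ∫⁻ m, Φ m ∂((expMeasure 1).prod Q) := by
  have := isProbabilityMeasure_expMeasure (r := 1) one_pos
  have := isProbabilityMeasure_expMeasure (r := 1 / 2) (by norm_num)
  have hexpm : Measurable fun m : ℝ × E => ENNReal.ofReal (Real.exp (-(1 / 2 * m.1))) := by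
    fun_prop
  rw [lintegral_prod (fun m : ℝ × E => ENNReal.ofReal (Real.exp (-(1 / 2 * m.1))) * (2 * Φ m))
    (hexpm.mul (hΦ.const_mul 2)).aemeasurable, lintegral_prod Φ hΦ.aemeasurable,
    ← exp_change hΦ.lintegral_prod_right']
  refine lintegral_congr fun t => ?_
  have h4 : Measurable fun e : E => Φ (t, e) := hΦ.comp measurable_prodMk_left
  change ∫⁻ e, ENNReal.ofReal (Real.exp (-(1 / 2 * t))) * (2 * Φ (t, e)) ∂Q = _
  rw [lintegral_const_mul _ (h4.const_mul 2), lintegral_const_mul _ h4]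

/-- The law of the step. -/
noncomputable def stepLaw (B : ℝ≥0 → E → ℂ) (Q : Measure E) : Measure ℝ :=
  ((expMeasure 1).prod Q).map fun m => lY (B m.1.toNNReal m.2) + m.1 / 2

section step

variable (h : IsHypBM B Q)

include h

omit [IsProbabilityMeasure Q] in
lemma measurable_step : Measurable fun m : ℝ × E => lY (B m.1.toNNReal m.2) + m.1 / 2 := by
  have h2 : Measurable fun p : ℝ × E => B p.1.toNNReal p.2 :=
    h.joint.comp ((measurable_real_toNNReal.comp measurable_fst).prodMk measurable_snd)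
  exact (measurable_lY.comp h2).add (measurable_fst.div_const _)

lemma prob_step : IsProbabilityMeasure (stepLaw B Q) := by
  have := isProbabilityMeasure_expMeasure (r := 1) one_pos
  exact Measure.isProbabilityMeasure_map (measurable_step h).aemeasurable

lemma lintegral_step {F : ℝ → ℝ≥0∞} (hF : Measurable F) :
    ∫⁻ y, F y ∂(stepLaw B Q) = ∫⁻ t, ∫⁻ y, F y ∂(gaussianReal 0 t.toNNReal) ∂(expMeasure 1) := by
  have := isProbabilityMeasure_expMeasure (r := 1) one_pos
  have hm := measurable_step h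
  unfold stepLaw
  rw [lintegral_map hF hm, lintegral_prod (fun m : ℝ × E => F (lY (B m.1.toNNReal m.2) + m.1 / 2))
    (hF.comp hm).aemeasurable]
  refine lintegral_congr_ae ?_
  filter_upwards [exp_ae_pos (β := 1) one_pos] with t ht
  have h1 : Measurable fun e => lY (B t.toNNReal e) + (t.toNNReal : ℝ) / 2 :=
    (measurable_lY.comp (h.meas _)).add_const _
  rw [← map_lY_add h t.toNNReal, lintegral_map hF h1, Real.coe_toNNReal _ ht.le]

lemma step_second : ∫⁻ y, ENNReal.ofReal (y ^ 2) ∂(stepLaw B Q) < ⊤ := by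
  have := isProbabilityMeasure_expMeasure (r := 1) one_pos
  rw [lintegral_step h (by fun_prop)]
  have h1 : ∀ t : ℝ, ∫⁻ y, ENNReal.ofReal (y ^ 2) ∂(gaussianReal 0 t.toNNReal) =
      (t.toNNReal : ℝ≥0∞) := by
    intro t
    have h2 : Integrable (fun y : ℝ => y ^ 2) (gaussianReal 0 t.toNNReal) := by
      have := (memLp_id_gaussianReal (μ := 0) (v := t.toNNReal) 2).integrable_sq
      simpa using this
    rw [← ofReal_integral_eq_lintegral_ofReal h2 (ae_of_all _ fun y => sq_nonneg y)]
    have h3 := variance_id_gaussianReal (μ := 0) (v := t.toNNReal)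
    rw [variance_eq_integral measurable_id.aemeasurable] at h3
    simp only [id_eq, integral_id_gaussianReal, sub_zero] at h3
    rw [h3]
    exact ENNReal.ofReal_coe_nnreal
  simp_rw [h1]
  have h2 : Measurable fun t : ℝ => (t.toNNReal : ℝ≥0∞) :=
    measurable_real_toNNReal.coe_nnreal_ennreal
  rw [← exp_change h2]
  have := isProbabilityMeasure_expMeasure (r := 1 / 2) (by norm_num)
  refine lt_of_le_of_lt (lintegral_mono (g := fun _ => ENNReal.ofReal 4) fun t => ?_) ?_
  · change ENNReal.ofReal (Real.exp (-(1 / 2 * t))) * (2 * ENNReal.ofReal t) ≤ _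
    rw [← ENNReal.ofReal_ofNat, ← ENNReal.ofReal_mul (by norm_num),
      ← ENNReal.ofReal_mul (Real.exp_pos _).le]
    refine ENNReal.ofReal_le_ofReal ?_
    have h3 := Real.add_one_le_exp (1 / 2 * t)
    have h4 : Real.exp (-(1 / 2 * t)) * Real.exp (1 / 2 * t) = 1 := by
      rw [← Real.exp_add]; simp
    have h5 := Real.exp_pos (-(1 / 2 * t))
    nlinarith
  · rw [lintegral_const, measure_univ, mul_one]
    exact ENNReal.ofReal_lt_top

lemma integrable_step : Integrable (fun y : ℝ => y) (stepLaw B Q) := by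
  have := prob_step h
  refine ⟨measurable_id.aestronglyMeasurable, ?_⟩
  rw [hasFiniteIntegral_iff_norm]
  refine lt_of_le_of_lt (lintegral_mono (g := fun y => 1 + ENNReal.ofReal (y ^ 2)) fun y => ?_) ?_
  · change ENNReal.ofReal ‖y‖ ≤ 1 + ENNReal.ofReal (y ^ 2)
    rw [← ENNReal.ofReal_one, ← ENNReal.ofReal_add (by norm_num) (sq_nonneg _)]
    refine ENNReal.ofReal_le_ofReal ?_
    rw [Real.norm_eq_abs, ← sq_abs]
    nlinarith [sq_nonneg (|y| - 1), abs_nonneg y]
  · rw [lintegral_add_left measurable_const, lintegral_const, measure_univ, mul_one]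
    exact ENNReal.add_lt_top.2 ⟨ENNReal.one_lt_top, step_second h⟩

lemma mean_step : ∫ y, y ∂(stepLaw B Q) = 0 := by
  have := isProbabilityMeasure_expMeasure (r := 1) one_pos
  have hm := measurable_step h
  have hi := integrable_step h
  unfold stepLaw at hi ⊢
  have hid : AEStronglyMeasurable (fun y : ℝ => y) (((expMeasure 1).prod Q).map
      fun m => lY (B m.1.toNNReal m.2) + m.1 / 2) := measurable_id.aestronglyMeasurable
  rw [integrable_map_measure hid hm.aemeasurable] at hi
  rw [integral_map hm.aemeasurable hid]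
  have hi' : Integrable (fun m : ℝ × E => lY (B m.1.toNNReal m.2) + m.1 / 2)
      ((expMeasure 1).prod Q) := hi
  rw [integral_prod _ hi']
  have h1 : ∀ᵐ t ∂(expMeasure 1), ∫ e, (lY (B t.toNNReal e) + t / 2) ∂Q = 0 := by
    filter_upwards [exp_ae_pos (β := 1) one_pos] with t ht
    have h2 : Measurable fun e => lY (B t.toNNReal e) + (t.toNNReal : ℝ) / 2 :=
      (measurable_lY.comp (h.meas _)).add_const _
    have h3 := integral_map h2.aemeasurable
      (measurable_id.aestronglyMeasurable (μ := Q.map fun e => lY (B t.toNNReal e) +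
        (t.toNNReal : ℝ) / 2))
    rw [map_lY_add h t.toNNReal] at h3
    simp only [id_eq, integral_id_gaussianReal, Real.coe_toNNReal _ ht.le] at h3
    exact h3.symm
  rw [integral_congr_ae h1]
  simp

lemma charge_step (b : ℝ) : 0 < stepLaw B Q (Set.Ioi b) := by
  have := isProbabilityMeasure_expMeasure (r := 1) one_pos
  by_contra hcon
  have h0 : stepLaw B Q (Set.Ioi b) = 0 := by
    rwa [not_lt, nonpos_iff_eq_zero] at hcon
  unfold stepLaw at h0
  rw [Measure.map_apply (measurable_step h) measurableSet_Ioi] at h0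
  have h1 : ∀ᵐ m ∂((expMeasure 1).prod Q), ¬ (b < lY (B m.1.toNNReal m.2) + m.1 / 2) := by
    rw [ae_iff]
    simp only [not_not]
    exact h0
  have h2 := Measure.ae_ae_of_ae_prod h1
  have h3 : ∀ᵐ t ∂(expMeasure 1), False := by
    filter_upwards [h2, exp_ae_pos (β := 1) one_pos] with t ht ht2
    have hne : t.toNNReal ≠ 0 := by
      rw [ne_eq, Real.toNNReal_eq_zero]; linarith
    have h4 : Measurable fun e => lY (B t.toNNReal e) + (t.toNNReal : ℝ) / 2 :=
      (measurable_lY.comp (h.meas _)).add_const _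
    have h5 : gaussianReal 0 t.toNNReal (Set.Ioi b) = 0 := by
      rw [← map_lY_add h t.toNNReal, Measure.map_apply h4 measurableSet_Ioi,
        Real.coe_toNNReal _ ht2.le]
      rw [ae_iff] at ht
      simp only [not_not] at ht
      exact ht
    have h6 := gaussianReal_absolutelyContinuous' 0 hne h5
    rw [Real.volume_Ioi] at h6
    exact ENNReal.top_ne_zero h6
  rw [ae_iff] at h3
  simp at h3

end step

/-- At the critical rate the expected truncated mass vanishes. -/
theorem Gf_eq_zero (h : IsHypBM B Q) : Gf (1 / 2) B Q 1 = 0 := by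
  have hβ : (0 : ℝ) < 1 / 2 := by norm_num
  have := isProbabilityMeasure_expMeasure (r := 1) one_pos
  have := isProbabilityMeasure_expMeasure (r := 1 / 2) hβ
  have hprob := prob_step h
  set g : ℝ → ℝ := fun x => (Gf (1 / 2) B Q (ENNReal.ofReal (Real.exp x))).toReal with hg
  have hfin : ∀ c, Gf (1 / 2) B Q c ≠ ⊤ := fun c =>
    ((Gf_le_one hβ h c).trans_lt ENNReal.one_lt_top).ne
  have hmono : Monotone g := by
    intro x y hxy
    refine ENNReal.toReal_mono (hfin _) (Gf_mono ?_)
    exact ENNReal.ofReal_le_ofReal (Real.exp_le_exp.2 hxy)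
  have hC : ∀ x, 0 ≤ g x ∧ g x ≤ 1 := fun x => ⟨ENNReal.toReal_nonneg, by
    have := ENNReal.toReal_mono ENNReal.one_ne_top (Gf_le_one hβ h (ENNReal.ofReal (Real.exp x)))
    rwa [ENNReal.toReal_one] at this⟩
  have hGg : ∀ x, Gf (1 / 2) B Q (ENNReal.ofReal (Real.exp x)) = ENNReal.ofReal (g x) := fun x => by
    rw [hg]; simp only; rw [ENNReal.ofReal_toReal (hfin _)]
  have hgm : Measurable g := hmono.measurable
  have hsub : ∀ x, g x ≤ ∫ y, g (x + y) ∂(stepLaw B Q) := by
    intro x
    have h1 := Gf_rec hβ h (c := ENNReal.ofReal (Real.exp x)) ENNReal.ofReal_ne_top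
    have h2 : ∀ᵐ m ∂((expMeasure (1 / 2)).prod Q),
        ENNReal.ofReal (Real.exp (-(1 / 2 * m.1))) * (2 * Gf (1 / 2) B Q
        (ENNReal.ofReal (Real.exp x) *
          ENNReal.ofReal (yP (B m.1.toNNReal m.2) / Real.exp (-(1 / 2 * m.1))))) =
        ENNReal.ofReal (Real.exp (-(1 / 2 * m.1))) * (2 *
          ENNReal.ofReal (g (x + (lY (B m.1.toNNReal m.2) + m.1 / 2)))) := by
      refine ae_of_all _ fun m => ?_
      rw [← hGg, ← ENNReal.ofReal_mul (Real.exp_pos _).le]
      congr 5
      have hy : yP (B m.1.toNNReal m.2) = Real.exp (lY (B m.1.toNNReal m.2)) := by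
        unfold lY; rw [Real.exp_log (yP_pos (h.mem _ _))]
      rw [hy, ← Real.exp_sub, ← Real.exp_add]
      congr 1
      ring
    rw [lintegral_congr_ae h2] at h1
    have hmF : Measurable fun m : ℝ × E =>
        ENNReal.ofReal (g (x + (lY (B m.1.toNNReal m.2) + m.1 / 2))) :=
      (hgm.comp (measurable_const.add (measurable_step h))).ennreal_ofReal
    rw [exp_change_prod hmF] at h1
    have h5 : ∫⁻ m, ENNReal.ofReal (g (x + (lY (B m.1.toNNReal m.2) + m.1 / 2)))
        ∂((expMeasure 1).prod Q) = ∫⁻ y, ENNReal.ofReal (g (x + y)) ∂(stepLaw B Q) := by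
      have h6 : Measurable fun y : ℝ => ENNReal.ofReal (g (x + y)) :=
        (hgm.comp (measurable_const.add measurable_id)).ennreal_ofReal
      unfold stepLaw
      rw [lintegral_map h6 (measurable_step h)]
    rw [h5, hGg, ← ofReal_integral_eq_lintegral_ofReal] at h1
    · exact (ENNReal.ofReal_le_ofReal_iff (integral_nonneg fun y => (hC _).1)).1 h1
    · refine Integrable.of_bound
        (hgm.comp (measurable_const.add measurable_id)).aestronglyMeasurable 1
        (ae_of_all _ fun y => ?_)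
      rw [Real.norm_eq_abs, abs_of_nonneg (hC _).1]
      exact (hC _).2
    · exact ae_of_all _ fun y => (hC _).1
  have hconst := fun x b hb => const_of_submean hmono (integrable_step h) (mean_step h) hC hsub
    (charge_step h) x (b := b) hb
  -- the limit at zero
  have hlim : Tendsto (fun n : ℕ => Gf (1 / 2) B Q (ENNReal.ofReal (Real.exp (-n)))) atTop
      (𝓝 0) := by
    have h1 : Tendsto (fun n : ℕ => ∫⁻ ω, T (ENNReal.ofReal (Real.exp (-n)))
        (Lf (Minf (1 / 2) B Q ω)) ∂(bbmLaw (1 / 2) Q)) atTop (𝓝 (∫⁻ _, 0 ∂(bbmLaw (1 / 2) Q))) := by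
      refine tendsto_lintegral_of_dominated_convergence (fun ω => Minf (1 / 2) B Q ω Set.univ)
        (fun n => measurable_TLM h.joint _) (fun n => ae_of_all _ fun ω =>
          (T_le_univ _ _).trans (Lf_univ_le _)) ?_ (ae_of_all _ fun ω => T_tendsto _)
      exact ((lintegral_mass_le hβ h.joint h.mem (cls_harm h) (cls_y h)).trans_lt
        ENNReal.one_lt_top).ne
    rw [lintegral_zero] at h1
    exact h1
  have h0 : ∀ n : ℕ, Gf (1 / 2) B Q 1 = Gf (1 / 2) B Q (ENNReal.ofReal (Real.exp (-n))) := by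
    intro n
    rcases Nat.eq_zero_or_pos n with hn | hn
    · subst hn; simp
    · have h1 := hconst (-(n : ℝ)) n (by exact_mod_cast hn)
      rw [neg_add_cancel] at h1
      have h2 : (1 : ℝ≥0∞) = ENNReal.ofReal (Real.exp 0) := by simp
      rw [h2, hGg, hGg, h1]
  exact tendsto_nhds_unique (tendsto_const_nhds.congr h0) hlim

/-- Almost surely the limit measure is singular. -/
theorem ae_sing (h : IsHypBM B Q) :
    ∀ᵐ ω ∂(bbmLaw (1 / 2) Q), Minf (1 / 2) B Q ω ⟂ₘ arcLength := by
  have h1 := Gf_eq_zero h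
  unfold Gf at h1
  rw [lintegral_eq_zero_iff (measurable_TLM h.joint _)] at h1
  filter_upwards [h1] with ω hω
  exact sing_arc (sing_of_T hω)

end Pool.Agent.Lib.P46005
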